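import Pool.Agent.QS2.Defs

/-! # QS2 (b): facts about the real embedding -/

set_option autoImplicit false

namespace QS2

open Finset Polynomial

theorem isFormal_map_B {R S : Type*} [CommRing R] [CommRing S] (φ : R →+* S) (v : ℕ → R)
    (hv : IsFormal v) : IsFormal (fun i => φ (v i)) := by
  unfold IsFormal at hv ⊢
  have h1 : PowerSeries.mk (fun i => φ (v i)) = PowerSeries.map φ (PowerSeries.mk v) := by
    ext n; simp
  have h2 : PowerSeries.mk (shm (fun i => φ (v i))) = PowerSeries.map φ (PowerSeries.mk (shm v)) := by
    ext n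
    rw [PowerSeries.coeff_mk, PowerSeries.coeff_map, PowerSeries.coeff_mk]
    unfold shm
    rw [map_sum]
    refine sum_congr rfl (fun m _ => ?_)
    rw [map_mul, map_natCast]
  rw [h1, h2]
  have h3 := congrArg (PowerSeries.map φ) hv
  simp only [map_add, map_sub, map_mul, map_pow, map_one, PowerSeries.map_X, map_zero,
    map_ofNat] at h3
  exact h3

theorem emb_alpha : emb alpha = 17 - 12 * Real.sqrt 2 := by
  rw [emb_apply]
  simp only [alpha]
  push_cast
  ring

/-- the conjugate value is irrational and different from `emb x` -/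
theorem star_facts (x : K) (hx' : star x ≠ x) :
    emb (star x) ≠ emb x ∧ ∀ q : ℚ, emb (star x) ≠ (q : ℝ) := by
  have him : x.im ≠ 0 := by
    intro h
    apply hx'
    ext
    · rw [QuadraticAlgebra.re_star]; simp
    · rw [QuadraticAlgebra.im_star, h]; simp
  have hs : (0 : ℝ) < √2 := by positivity
  constructor
  · intro h
    rw [emb_star, emb_apply] at h
    have h1 : (x.im : ℝ) * √2 = 0 := by linarith
    rcases mul_eq_zero.mp h1 with h2 | h2
    · exact him (by exact_mod_cast h2)
    · exact hs.ne' h2
  · intro q h
    rw [emb_star] at h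
    apply irrational_sqrt_two
    refine ⟨(x.re - q) / x.im, ?_⟩
    push_cast
    have h3 : (x.im : ℝ) ≠ 0 := by exact_mod_cast him
    rw [div_eq_iff h3]
    linarith

end QS2
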