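import Pool.Agent.QS2.B.Nodes
import Pool.Agent.QS2.AperyRec

/-! # QS2 (b): the facts about the Apéry numbers used in (b), for `zeta3` -/

set_option autoImplicit false

namespace QS2

open Finset

theorem aperyA_mono_succ (n : ℕ) : aperyA n ≤ aperyA (n + 1) := by
  rw [aperyA, aperyA, sum_range_succ _ (n + 1)]
  have h1 : ∀ k ∈ range (n + 1), ((n.choose k : ℚ) ^ 2 * ((n + k).choose k : ℚ) ^ 2) ≤
      (((n + 1).choose k : ℚ) ^ 2 * ((n + 1 + k).choose k : ℚ) ^ 2) := by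
    intro k _
    have e1 : (n.choose k : ℚ) ≤ ((n + 1).choose k : ℚ) := by
      exact_mod_cast Nat.choose_le_choose k (Nat.le_succ n)
    have e2 : ((n + k).choose k : ℚ) ≤ ((n + 1 + k).choose k : ℚ) := by
      exact_mod_cast Nat.choose_le_choose k (by omega)
    have e3 : (0 : ℚ) ≤ (n.choose k : ℚ) := by positivity
    have e4 : (0 : ℚ) ≤ ((n + k).choose k : ℚ) := by positivity
    exact mul_le_mul (pow_le_pow_left₀ e3 e1 2) (pow_le_pow_left₀ e4 e2 2) (by positivity)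
      (by positivity)
  have h2 := sum_le_sum h1
  have h3 : (0 : ℚ) ≤ (((n + 1).choose (n + 1) : ℚ) ^ 2 *
      ((n + 1 + (n + 1)).choose (n + 1) : ℚ) ^ 2) := by positivity
  linarith

theorem aperyA_mono : Monotone aperyA := monotone_nat_of_le_succ aperyA_mono_succ

theorem lrem_le (n : ℕ) : lrem n ≤ 6 * zeta3 := by
  have h := hasSum_lrem' n
  have ha : (0 : ℝ) < ((aperyA n : ℚ) : ℝ) := by exact_mod_cast aperyA_pos n
  have hs : HasSum (fun k : ℕ => 6 / ((aperyA n : ℚ) : ℝ) * (1 / ((k : ℝ) + 1) ^ 3))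
      (6 / ((aperyA n : ℚ) : ℝ) * zeta3) := summable_cube.hasSum.mul_left _
  have hle : ∀ k : ℕ, (6 : ℝ) / (((n + k : ℕ) + 1 : ℝ) ^ 3 *
      (aperyA (n + k) : ℚ) * (aperyA (n + k + 1) : ℚ)) ≤
      6 / ((aperyA n : ℚ) : ℝ) * (1 / ((k : ℝ) + 1) ^ 3) := by
    intro k
    have h1 : ((aperyA n : ℚ) : ℝ) ≤ ((aperyA (n + k) : ℚ) : ℝ) := by
      exact_mod_cast aperyA_mono (by omega : n ≤ n + k)
    have h2 : (1 : ℝ) ≤ ((aperyA (n + k + 1) : ℚ) : ℝ) := by
      exact_mod_cast one_le_aperyA (n + k + 1)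
    have h3 : ((k : ℝ) + 1) ^ 3 ≤ ((n + k : ℕ) + 1 : ℝ) ^ 3 := by
      apply pow_le_pow_left₀ (by positivity)
      push_cast
      have : (0 : ℝ) ≤ n := Nat.cast_nonneg n
      linarith
    rw [div_mul_div_comm, mul_one]
    apply div_le_div_of_nonneg_left (by norm_num) (by positivity)
    have h4 : ((k : ℝ) + 1) ^ 3 * ((aperyA n : ℚ) : ℝ) ≤
        ((n + k : ℕ) + 1 : ℝ) ^ 3 * (aperyA (n + k) : ℚ) :=
      mul_le_mul h3 h1 ha.le (by positivity)
    have h5 : (0 : ℝ) ≤ ((n + k : ℕ) + 1 : ℝ) ^ 3 * (aperyA (n + k) : ℚ) :=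
      le_trans (by positivity) h4
    calc ((aperyA n : ℚ) : ℝ) * ((k : ℝ) + 1) ^ 3 = ((k : ℝ) + 1) ^ 3 * ((aperyA n : ℚ) : ℝ) := by
          ring
      _ ≤ ((n + k : ℕ) + 1 : ℝ) ^ 3 * (aperyA (n + k) : ℚ) := h4
      _ = ((n + k : ℕ) + 1 : ℝ) ^ 3 * (aperyA (n + k) : ℚ) * 1 := by ring
      _ ≤ _ := mul_le_mul_of_nonneg_left h2 h5
  have h3 := hasSum_le hle h hs
  rw [div_le_iff₀ ha] at h3
  have e : 6 / ((aperyA n : ℚ) : ℝ) * zeta3 * ((aperyA n : ℚ) : ℝ) = 6 * zeta3 := by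
    field_simp
  rwa [e] at h3

/-- **the facts about the Apéry numbers used in (b)** -/
theorem aperyFacts : AperyFacts zeta3 where
  recA := by
    intro n
    have h := aperyA_rec n
    linarith
  recB := by
    intro n
    have h := aperyB_rec n
    linarith
  one_le := one_le_aperyA
  caso := by
    intro n
    have h := casoratian n
    rw [← h]
    ring
  pos := lrem_pos'
  bdd := ⟨6 * zeta3, lrem_le⟩

end QS2
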