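import Pool.Agent.QS2.B.EnDefs
import Pool.Agent.QS2.DeltaSq

/-! # QS2 (b): `emb Delta` against the Hankel determinant of `Lam`

`|Delta| = ∏|u| * V(F) * |det Lam| * ∏ d! / ∏ (i!)^2` for the real determinant. -/

set_option autoImplicit false

namespace QS2

open Finset Polynomial Pool.Agent.QS2 Matrix

theorem map_pp_B {R S : Type*} [CommRing R] [CommRing S] (φ : R →+* S) (hφ : Function.Injective φ)
    (v : ℕ → R) (Q : R[X]) : (pp v Q).map φ = pp (fun i => φ (v i)) (Q.map φ) := by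
  unfold pp
  rw [Polynomial.map_sum, natDegree_map_eq_of_injective hφ]
  refine sum_congr rfl (fun i _ => ?_)
  rw [Polynomial.map_sum]
  refine sum_congr rfl (fun m _ => ?_)
  simp

theorem map_fullM {R S : Type*} [Field R] [Field S] (φ : R →+* S) {F : Type*} (z : F → ℤ)
    (u0 u1 : F → R) (v : ℕ → R) (Nc R0 : ℕ) (a : F ⊕ Fin R0) (b : Fin Nc ⊕ Fin Nc) :
    φ (fullM z u0 u1 v Nc R0 a b) =
      fullM z (fun f => φ (u0 f)) (fun f => φ (u1 f)) (fun i => φ (v i)) Nc R0 a b := by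
  rcases a with f | d <;> rcases b with i | i
  · simp only [fullM, map_mul]
    rw [← map_binP φ, eval_intCast_map]
  · simp only [fullM, map_mul]
    rw [← map_binP φ, eval_intCast_map]
  · simp only [fullM, map_mul, map_natCast]
    rw [← map_binP φ, coeff_map]
  · simp only [fullM, map_mul, map_natCast]
    rw [← map_binP φ, ← map_pp_B φ φ.injective, coeff_map]

/-- `emb Delta = DeltaR` over `ℝ` -/
theorem emb_Delta (x : K) (v : ℕ → K) (A rho : ℕ) :
    emb (Delta x v A rho) =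
      DeltaR (emb x) (emb (star x)) (fun i => emb (v i)) A rho := by
  unfold Delta DeltaR
  rw [AlgHom.map_det]
  congr 1
  ext a b
  simp only [AlgHom.mapMatrix_apply, Matrix.map_apply, submatrix_apply, id, bigM]
  have h := map_fullM (emb : K →ₐ[ℚ] ℝ).toRingHom (nodeZ A) (uval x (star x) A)
    (uval1 x (star x) A) v (A + rho) (2 * rho) (idx A rho a) b
  have h0 : (fun f => (emb : K →ₐ[ℚ] ℝ).toRingHom (uval x (star x) A f)) =
      uval (emb x) (emb (star x)) A := by
    funext f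
    rcases f with i | i <;> simp [uval]
  have h1 : (fun f => (emb : K →ₐ[ℚ] ℝ).toRingHom (uval1 x (star x) A f)) =
      uval1 (emb x) (emb (star x)) A := by
    funext f
    rcases f with i | i <;> simp [uval1]
  rw [h0, h1] at h
  exact h

/-- the nodes as a function on `Fin (2 A)`: right nodes `1..A`, then left nodes `-3, …, -2-A` -/
noncomputable def ndC (A : ℕ) (s : Fin (A + A)) : ℂ :=
  ((nodeZ A (finSumFinEquiv.symm s) : ℤ) : ℂ)

/-- the ratios `u_{z+1}/u_z` on `Fin (2 A)` -/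
noncomputable def ratC (x x' : ℝ) (A : ℕ) (s : Fin (A + A)) : ℂ :=
  ((uval1 x x' A (finSumFinEquiv.symm s) / uval x x' A (finSumFinEquiv.symm s) : ℝ) : ℂ)

/-! ### the Vandermonde determinant of the nodes -/

theorem prod_pairs_fact (A : ℕ) :
    ∏ i : Fin A, ∏ j : Fin A, (if i < j then |((j : ℕ) : ℝ) - ((i : ℕ) : ℝ)| else 1) =
      ∏ d ∈ range A, (d.factorial : ℝ) := by
  rw [prod_comm, ← Fin.prod_univ_eq_prod_range (fun d => (d.factorial : ℝ)) A]
  refine prod_congr rfl (fun j _ => ?_)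
  have h1 : ∏ i : Fin A, (if i < j then |((j : ℕ) : ℝ) - ((i : ℕ) : ℝ)| else 1) =
      ∏ i ∈ range A, (if i < (j : ℕ) then |((j : ℕ) : ℝ) - (i : ℝ)| else 1) := by
    rw [← Fin.prod_univ_eq_prod_range
      (fun i => if i < (j : ℕ) then |((j : ℕ) : ℝ) - (i : ℝ)| else 1) A]
    refine prod_congr rfl (fun i _ => ?_)
    simp only [Fin.lt_def]
  rw [h1, ← prod_filter]
  have h2 : (range A).filter (fun i => i < (j : ℕ)) = range (j : ℕ) := by
    ext i
    simp only [mem_filter, mem_range]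
    have := j.isLt
    omega
  rw [h2, ← prod_range_reflect, Nat.factorial_eq_prod_range_add_one]
  push_cast
  refine prod_congr rfl (fun i hi => ?_)
  have hi' := mem_range.mp hi
  have h3 : (((j : ℕ) - 1 - i : ℕ) : ℝ) = ((j : ℕ) : ℝ) - 1 - i := by
    rw [Nat.cast_sub (by omega), Nat.cast_sub (by omega)]
    simp
  rw [h3, show ((j : ℕ) : ℝ) - (((j : ℕ) : ℝ) - 1 - i) = (i : ℝ) + 1 by ring, abs_of_pos (by positivity)]

theorem VN_nodes_eq (A : ℕ) :
    |(vandermonde fun s : Fin (A + A) =>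
      ((nodeZ A (finSumFinEquiv.symm s) : ℤ) : ℝ)).det| = Real.exp (lVF A) := by
  have h0 : |(vandermonde fun s : Fin (A + A) =>
      ((nodeZ A (finSumFinEquiv.symm s) : ℤ) : ℝ)).det| =
      ∏ i : Fin (A + A), ∏ j : Fin (A + A), (if i < j then
        |((nodeZ A (finSumFinEquiv.symm j) : ℤ) : ℝ) - ((nodeZ A (finSumFinEquiv.symm i) : ℤ) : ℝ)|
        else 1) := by
    rw [det_vandermonde, abs_prod]
    refine prod_congr rfl (fun i _ => ?_)
    rw [abs_prod, ← prod_filter]
    refine prod_congr ?_ (fun _ _ => rfl)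
    ext j
    simp
  rw [h0, Fin.prod_univ_add]
  have c1 : ∀ i : Fin A, finSumFinEquiv.symm (Fin.castAdd A i) = Sum.inl i := fun i => by simp
  have c2 : ∀ i : Fin A, finSumFinEquiv.symm (Fin.natAdd A i) = Sum.inr i := fun i => by
    rw [finSumFinEquiv_symm_apply_natAdd]
  have e1 : ∀ i : Fin A, (∏ j : Fin (A + A), (if Fin.castAdd A i < j then
        |((nodeZ A (finSumFinEquiv.symm j) : ℤ) : ℝ) -
          ((nodeZ A (finSumFinEquiv.symm (Fin.castAdd A i)) : ℤ) : ℝ)| else 1)) =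
      (∏ j : Fin A, (if i < j then |((j : ℕ) : ℝ) - ((i : ℕ) : ℝ)| else 1)) *
      ∏ j : Fin A, (((i : ℕ) : ℝ) + ((j : ℕ) : ℝ) + 4) := by
    intro i
    rw [Fin.prod_univ_add]
    congr 1
    · refine prod_congr rfl (fun j _ => ?_)
      rw [c1, c1]
      simp only [Fin.lt_def, Fin.val_castAdd, nodeZ]
      congr 2
      push_cast
      ring
    · refine prod_congr rfl (fun j _ => ?_)
      rw [c1, c2]
      have h1 : Fin.castAdd A i < Fin.natAdd A j := by
        rw [Fin.lt_def]; simp only [Fin.val_castAdd, Fin.val_natAdd]; omega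
      rw [if_pos h1]
      simp only [nodeZ]
      push_cast
      rw [show (-3 - ((j : ℕ) : ℝ) - (((i : ℕ) : ℝ) + 1)) = -(((i : ℕ) : ℝ) + ((j : ℕ) : ℝ) + 4) by ring,
        abs_neg, abs_of_pos (by positivity)]
  have e2 : ∀ i : Fin A, (∏ j : Fin (A + A), (if Fin.natAdd A i < j then
        |((nodeZ A (finSumFinEquiv.symm j) : ℤ) : ℝ) -
          ((nodeZ A (finSumFinEquiv.symm (Fin.natAdd A i)) : ℤ) : ℝ)| else 1)) =
      (∏ j : Fin A, (if i < j then |((j : ℕ) : ℝ) - ((i : ℕ) : ℝ)| else 1)) := by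
    intro i
    rw [Fin.prod_univ_add]
    have h2 : ∏ j : Fin A, (if Fin.natAdd A i < Fin.castAdd A j then
        |((nodeZ A (finSumFinEquiv.symm (Fin.castAdd A j)) : ℤ) : ℝ) -
          ((nodeZ A (finSumFinEquiv.symm (Fin.natAdd A i)) : ℤ) : ℝ)| else 1) = 1 := by
      refine prod_eq_one (fun j _ => ?_)
      rw [if_neg]
      rw [Fin.lt_def]; simp only [Fin.val_castAdd, Fin.val_natAdd]; have := j.isLt; omega
    rw [h2, one_mul]
    refine prod_congr rfl (fun j _ => ?_)
    rw [c2, c2]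
    have h3 : (Fin.natAdd A i < Fin.natAdd A j) ↔ i < j := by
      rw [Fin.lt_def, Fin.lt_def]; simp only [Fin.val_natAdd]; omega
    simp only [h3, nodeZ]
    congr 1
    push_cast
    rw [show (-3 - ((j : ℕ) : ℝ) - (-3 - ((i : ℕ) : ℝ))) = -(((j : ℕ) : ℝ) - ((i : ℕ) : ℝ)) by ring,
      abs_neg]
  rw [prod_congr rfl (fun i _ => e1 i), prod_congr rfl (fun i _ => e2 i), prod_mul_distrib,
    prod_pairs_fact]
  have e3 : ∏ i : Fin A, ∏ j : Fin A, (((i : ℕ) : ℝ) + ((j : ℕ) : ℝ) + 4) =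
      ∏ i ∈ range A, ∏ j ∈ range A, ((i : ℝ) + (j : ℝ) + 4) := by
    rw [← Fin.prod_univ_eq_prod_range (fun i => ∏ j ∈ range A, ((i : ℝ) + (j : ℝ) + 4)) A]
    refine prod_congr rfl (fun i _ => ?_)
    rw [← Fin.prod_univ_eq_prod_range (fun j => (((i : ℕ) : ℝ) + (j : ℝ) + 4)) A]
  rw [e3]
  unfold lVF
  rw [Real.exp_add, two_mul, Real.exp_add, Real.exp_sum, Real.exp_sum]
  have e4 : ∏ x ∈ range A, Real.exp (Real.log (x.factorial : ℝ)) =
      ∏ d ∈ range A, (d.factorial : ℝ) := by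
    refine prod_congr rfl (fun d _ => ?_)
    rw [Real.exp_log (by positivity)]
  have e5 : ∏ i ∈ range A, Real.exp (∑ j ∈ range A, Real.log ((i : ℝ) + j + 4)) =
      ∏ i ∈ range A, ∏ j ∈ range A, ((i : ℝ) + (j : ℝ) + 4) := by
    refine prod_congr rfl (fun i _ => ?_)
    rw [Real.exp_sum]
    refine prod_congr rfl (fun j _ => ?_)
    rw [Real.exp_log (by positivity)]
  rw [e4, e5]
  ring

/-! ### the functional over `ℝ` and over `ℂ` -/

theorem Lam_map {S : ℕ} (x r : Fin S → ℝ) (v : ℕ → ℝ) (m : ℕ) :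
    ((Lam x r v m : ℝ) : ℂ) =
      Lam (fun s => (x s : ℂ)) (fun s => (r s : ℂ)) (fun i => (v i : ℂ)) m := by
  unfold Lam dPi
  push_cast
  rfl

theorem Lam_reindex {k : Type*} [Field k] {S T : ℕ} (e : Fin S ≃ Fin T) (x r : Fin T → k)
    (v : ℕ → k) (m : ℕ) : Lam (fun s => x (e s)) (fun s => r (e s)) v m = Lam x r v m := by
  unfold Lam
  rw [← e.sum_comp]
  refine sum_congr rfl (fun s _ => ?_)
  congr 1
  unfold dPi
  have h1 : univ.erase (e s) = (univ.erase s).map e.toEmbedding := by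
    ext t
    simp only [mem_erase, mem_univ, and_true, mem_map_equiv]
    constructor
    · intro h h'
      exact h (by rw [← h']; simp)
    · intro h h'
      exact h (by rw [h']; simp)
  rw [h1, prod_map]
  rfl

/-- **link** -/
theorem abs_DeltaR (x x' : ℝ) (v : ℕ → ℝ) (A rho : ℕ) (h : 2 * rho ≤ A)
    (hu : ∀ f, uval x x' A f ≠ 0) :
    |DeltaR x x' v A rho| = (∏ f, |uval x x' A f|) * Real.exp (lVF A
      - 2 * ∑ i ∈ range (A + rho), Real.log (i.factorial : ℝ)
      + ∑ d ∈ Ico (A - rho) (A + rho), Real.log (d.factorial : ℝ)) *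
      ‖(Matrix.of fun i j : Fin (A + rho) =>
        Lam (ndC A) (ratC x x' A) (fun i => (v i : ℂ)) ((i : ℕ) + j)).det‖ := by
  have e0 : 2 * A = A + A := two_mul A
  set e : Fin (2 * A) ≃ Fin (A + A) := finCongr e0 with he
  set g : Fin (2 * A) ≃ Nd A := e.trans finSumFinEquiv.symm with hg
  have hsq := DeltaR_sq x x' v (A := A) (rho := rho) (by omega)
    (fun f => uval1 x x' A f / uval x x' A f)
    (fun f => by rw [div_mul_cancel₀ _ (hu f)]) g
  have habs := abs_eq_abs.mpr (sq_eq_sq_iff_eq_or_eq_neg.mp hsq)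
  rw [habs, abs_mul, abs_mul, abs_mul, abs_mul, abs_prod]
  have hV : |(vandermonde fun s => ((nodeZ A (g s) : ℤ) : ℝ)).det| = Real.exp (lVF A) := by
    rw [← VN_nodes_eq A, det_vandermonde, det_vandermonde, abs_prod, abs_prod]
    rw [← e.prod_comp]
    refine prod_congr rfl (fun i _ => ?_)
    rw [abs_prod, abs_prod]
    have h1 : Ioi (e i) = (Ioi i).map e.toEmbedding := by
      ext t
      simp only [mem_Ioi, mem_map_equiv]
      rw [he]
      simp [Fin.lt_def]
    rw [h1, prod_map]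
    rfl
  have hL : |(Matrix.of fun i j : Fin (A + rho) =>
      Lam (fun s => ((nodeZ A (g s) : ℤ) : ℝ))
        (fun s => (fun f => uval1 x x' A f / uval x x' A f) (g s)) v ((i : ℕ) + j)).det| =
      ‖(Matrix.of fun i j : Fin (A + rho) =>
        Lam (ndC A) (ratC x x' A) (fun i => (v i : ℂ)) ((i : ℕ) + j)).det‖ := by
    have h1 : (Matrix.of fun i j : Fin (A + rho) =>
        Lam (ndC A) (ratC x x' A) (fun i => (v i : ℂ)) ((i : ℕ) + j)) =
        (Complex.ofRealHom : ℝ →+* ℂ).mapMatrix (Matrix.of fun i j : Fin (A + rho) =>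
          Lam (fun s => ((nodeZ A (g s) : ℤ) : ℝ))
            (fun s => (fun f => uval1 x x' A f / uval x x' A f) (g s)) v ((i : ℕ) + j)) := by
      ext i j
      rw [RingHom.mapMatrix_apply, Matrix.map_apply]
      change Lam (ndC A) (ratC x x' A) (fun i => (v i : ℂ)) ((i : ℕ) + j) =
        ((Lam (fun s => ((nodeZ A (g s) : ℤ) : ℝ))
          (fun s => (fun f => uval1 x x' A f / uval x x' A f) (g s)) v ((i : ℕ) + j) : ℝ) : ℂ)
      rw [Lam_map, ← Lam_reindex e (ndC A)]
      congr 1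
    rw [h1, ← RingHom.map_det]
    change _ = ‖((_ : ℝ) : ℂ)‖
    rw [Complex.norm_real]
    rfl
  have hF : |∏ d : Fin (2 * rho), ((A - rho + d).factorial : ℝ)| *
      |(∏ i ∈ range (A + rho), ((i.factorial : ℝ)⁻¹)) ^ 2| =
      Real.exp (- 2 * ∑ i ∈ range (A + rho), Real.log (i.factorial : ℝ)
      + ∑ d ∈ Ico (A - rho) (A + rho), Real.log (d.factorial : ℝ)) := by
    rw [Real.exp_add, Real.exp_sum, neg_mul, Real.exp_neg,
      two_mul (∑ i ∈ range (A + rho), Real.log (i.factorial : ℝ)), Real.exp_add, Real.exp_sum,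
      abs_of_pos (prod_pos (fun d _ => by positivity)), abs_of_nonneg (by positivity)]
    have f1 : ∏ x ∈ range (A + rho), Real.exp (Real.log (x.factorial : ℝ)) =
        ∏ d ∈ range (A + rho), (d.factorial : ℝ) := by
      refine prod_congr rfl (fun d _ => ?_)
      rw [Real.exp_log (by positivity)]
    have f2 : ∏ x ∈ Ico (A - rho) (A + rho), Real.exp (Real.log (x.factorial : ℝ)) =
        ∏ d : Fin (2 * rho), ((A - rho + d).factorial : ℝ) := by
      rw [Fin.prod_univ_eq_prod_range (fun d => ((A - rho + d).factorial : ℝ)) (2 * rho),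
        prod_Ico_eq_prod_range]
      have : A + rho - (A - rho) = 2 * rho := by omega
      rw [this]
      refine prod_congr rfl (fun d _ => ?_)
      rw [Real.exp_log (by positivity)]
    rw [f1, f2, prod_inv_distrib]
    ring
  rw [hV, hL]
  have hx : Real.exp (lVF A
      - 2 * ∑ i ∈ range (A + rho), Real.log (i.factorial : ℝ)
      + ∑ d ∈ Ico (A - rho) (A + rho), Real.log (d.factorial : ℝ)) =
      Real.exp (lVF A) * Real.exp (- 2 * ∑ i ∈ range (A + rho), Real.log (i.factorial : ℝ)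
      + ∑ d ∈ Ico (A - rho) (A + rho), Real.log (d.factorial : ℝ)) := by
    rw [← Real.exp_add]
    congr 1
    ring
  rw [hx, ← hF]
  ring

end QS2
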