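import Pool.Agent.QS2.B.LimR
import Pool.Agent.QS2.FormalV

/-! # QS2 (b): the formal solution is the asymptotic expansion of `l_{n+1}/l_n` -/

set_option autoImplicit false

namespace QS2

open Finset Polynomial

namespace AsymAux

/-- truncation of the series as a polynomial in `t = 1/n` -/
noncomputable def Fp (v : ℕ → ℝ) (J : ℕ) : ℝ[X] := ∑ j ∈ range (J + 1), C (v j) * X ^ j

/-- `(1-t)^J F(t/(1-t))` -/
noncomputable def Gp (v : ℕ → ℝ) (J : ℕ) : ℝ[X] :=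
  ∑ j ∈ range (J + 1), C (v j) * X ^ j * (1 - X) ^ (J - j)

/-- the numerator of the defect -/
noncomputable def Np (v : ℕ → ℝ) (J : ℕ) : ℝ[X] :=
  (1 + X) ^ 3 * Fp v J * Gp v J - (34 + 51 * X + 27 * X ^ 2 + 5 * X ^ 3) * Gp v J + (1 - X) ^ J

theorem Fp_sub (v : ℕ → ℝ) (J : ℕ) :
    (PowerSeries.X : PowerSeries ℝ) ^ (J + 1) ∣ ((Fp v J : ℝ[X]) : PowerSeries ℝ) - PowerSeries.mk v := by
  rw [PowerSeries.X_pow_dvd_iff]
  intro m hm
  rw [map_sub, Polynomial.coeff_coe, PowerSeries.coeff_mk, Fp, Polynomial.finsetSum_coeff]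
  simp only [Polynomial.coeff_C_mul, Polynomial.coeff_X_pow, mul_ite, mul_one, mul_zero]
  rw [Finset.sum_ite_eq (range (J + 1)) m v, if_pos (Finset.mem_range.2 hm), sub_self]

theorem coe_Fp (v : ℕ → ℝ) (J : ℕ) : ((Fp v J : ℝ[X]) : PowerSeries ℝ) =
    ∑ j ∈ range (J + 1), PowerSeries.C (v j) * PowerSeries.X ^ j := by
  have h : ((Fp v J : ℝ[X]) : PowerSeries ℝ) = Polynomial.coeToPowerSeries.ringHom (Fp v J) := rfl
  rw [h, Fp, map_sum]
  refine Finset.sum_congr rfl fun j _ => ?_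
  rw [map_mul, map_pow]
  simp

theorem coe_Gp (v : ℕ → ℝ) (J : ℕ) : ((Gp v J : ℝ[X]) : PowerSeries ℝ) =
    (1 - PowerSeries.X) ^ J * FV.sh ((Fp v J : ℝ[X]) : PowerSeries ℝ) := by
  have h : ((Gp v J : ℝ[X]) : PowerSeries ℝ) = Polynomial.coeToPowerSeries.ringHom (Gp v J) := rfl
  rw [h, Gp, map_sum, coe_Fp, map_sum, Finset.mul_sum]
  refine Finset.sum_congr rfl fun j hj => ?_
  have hj' : j ≤ J := by
    have := Finset.mem_range.1 hj
    omega
  rw [map_mul, map_mul, map_mul, map_pow, map_pow, map_pow, FV.sh_C, FV.sh_X]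
  have e : (1 - PowerSeries.X : PowerSeries ℝ) ^ J * FV.tt ℝ ^ j =
      PowerSeries.X ^ j * (1 - PowerSeries.X) ^ (J - j) := by
    obtain ⟨k, rfl⟩ := Nat.exists_eq_add_of_le hj'
    rw [Nat.add_sub_cancel_left, pow_add]
    calc (1 - PowerSeries.X : PowerSeries ℝ) ^ j * (1 - PowerSeries.X) ^ k * FV.tt ℝ ^ j
        = (FV.tt ℝ * (1 - PowerSeries.X)) ^ j * (1 - PowerSeries.X) ^ k := by
          rw [mul_pow]; ring
      _ = _ := by rw [FV.tt_mul]
  simp only [Polynomial.coeToPowerSeries.ringHom_apply, Polynomial.coe_C, Polynomial.coe_X,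
    Polynomial.coe_sub, Polynomial.coe_one]
  calc PowerSeries.C (v j) * PowerSeries.X ^ j * (1 - PowerSeries.X) ^ (J - j)
      = PowerSeries.C (v j) * (PowerSeries.X ^ j * (1 - PowerSeries.X) ^ (J - j)) := by ring
    _ = PowerSeries.C (v j) * ((1 - PowerSeries.X : PowerSeries ℝ) ^ J * FV.tt ℝ ^ j) := by rw [e]
    _ = _ := by ring

theorem coe_Np (v : ℕ → ℝ) (J : ℕ) : ((Np v J : ℝ[X]) : PowerSeries ℝ) =
    (1 - PowerSeries.X) ^ J * FV.Res ((Fp v J : ℝ[X]) : PowerSeries ℝ) := by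
  have h : ((Np v J : ℝ[X]) : PowerSeries ℝ) = Polynomial.coeToPowerSeries.ringHom (Np v J) := rfl
  have hG : Polynomial.coeToPowerSeries.ringHom (Gp v J) =
    (1 - PowerSeries.X) ^ J * FV.sh ((Fp v J : ℝ[X]) : PowerSeries ℝ) := coe_Gp v J
  have hX : Polynomial.coeToPowerSeries.ringHom (X : ℝ[X]) = PowerSeries.X := Polynomial.coe_X
  have hF : Polynomial.coeToPowerSeries.ringHom (Fp v J) = ((Fp v J : ℝ[X]) : PowerSeries ℝ) := rfl
  rw [h, Np, FV.Res, FV.pX]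
  simp only [map_add, map_sub, map_mul, map_pow, map_one, map_ofNat, hG, hX, hF]
  ring

theorem Np_dvd (v : ℕ → ℝ) (hv : IsFormal v) (J : ℕ) : (X : ℝ[X]) ^ (J + 1) ∣ Np v J := by
  have h1 : FV.Res (PowerSeries.mk v) = 0 := by
    have h := hv
    unfold IsFormal at h
    unfold FV.Res FV.pX
    rw [FV.sh_mk]
    exact h
  have h2 := FV.res_sub_dvd (Fp_sub v J)
  rw [h1, sub_zero] at h2
  have h3 : (PowerSeries.X : PowerSeries ℝ) ^ (J + 1) ∣ ((Np v J : ℝ[X]) : PowerSeries ℝ) := by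
    rw [coe_Np]
    exact Dvd.dvd.mul_left h2 _
  rw [Polynomial.X_pow_dvd_iff]
  rw [PowerSeries.X_pow_dvd_iff] at h3
  intro d hd
  have := h3 d hd
  rwa [Polynomial.coeff_coe] at this

/-- value at `n` of the truncated series -/
noncomputable def sv (v : ℕ → ℝ) (J : ℕ) (n : ℕ) : ℝ := ∑ j ∈ range (J + 1), v j / (n : ℝ) ^ j

theorem eval_Fp (v : ℕ → ℝ) (J : ℕ) (n : ℕ) : (Fp v J).eval (1 / (n : ℝ)) = sv v J n := by
  rw [Fp, Polynomial.eval_finsetSum, sv]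
  refine Finset.sum_congr rfl fun j _ => ?_
  rw [eval_mul, eval_C, eval_pow, eval_X, one_div, inv_pow, div_eq_mul_inv]

theorem eval_Gp (v : ℕ → ℝ) (J : ℕ) (n : ℕ) (hn : 1 ≤ n) :
    (Gp v J).eval (1 / ((n : ℝ) + 1)) = (1 - 1 / ((n : ℝ) + 1)) ^ J * sv v J n := by
  have h0 : (n : ℝ) ≠ 0 := by positivity
  have h1 : (n : ℝ) + 1 ≠ 0 := by positivity
  rw [Gp, Polynomial.eval_finsetSum, sv, Finset.mul_sum]
  refine Finset.sum_congr rfl fun j hj => ?_
  have hj' : j ≤ J := by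
    have := Finset.mem_range.1 hj
    omega
  obtain ⟨k, rfl⟩ := Nat.exists_eq_add_of_le hj'
  rw [Nat.add_sub_cancel_left]
  simp only [eval_mul, eval_C, eval_pow, eval_X, eval_sub, eval_one]
  rw [pow_add]
  have e : (1 / ((n : ℝ) + 1)) ^ j = (1 - 1 / ((n : ℝ) + 1)) ^ j / (n : ℝ) ^ j := by
    rw [← div_pow]
    congr 1
    field_simp
    ring
  rw [e]
  ring

/-- the defect of the truncated series in the Riccati equation -/
theorem defect (v : ℕ → ℝ) (hv : IsFormal v) (J : ℕ) : ∃ B : ℝ, 0 ≤ B ∧ ∀ n : ℕ, 1 ≤ n →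
    |(1 + 1 / ((n : ℝ) + 1)) ^ 3 * sv v J (n + 1) * sv v J n
      - (34 + 51 * (1 / ((n : ℝ) + 1)) + 27 * (1 / ((n : ℝ) + 1)) ^ 2 + 5 * (1 / ((n : ℝ) + 1)) ^ 3)
        * sv v J n + 1| ≤ B * (1 / ((n : ℝ) + 1)) ^ (J + 1) := by
  obtain ⟨M, hM⟩ := Np_dvd v hv J
  have hc : ContinuousOn (fun t : ℝ => |M.eval t|) (Set.Icc 0 1) :=
    (M.continuous.abs).continuousOn
  obtain ⟨b, hb⟩ := isCompact_Icc.bddAbove_image hc
  have hb' : ∀ t ∈ Set.Icc (0 : ℝ) 1, |M.eval t| ≤ b := fun t ht => hb ⟨t, ht, rfl⟩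
  have hb0 : 0 ≤ b := (abs_nonneg _).trans (hb' 0 ⟨le_rfl, zero_le_one⟩)
  refine ⟨2 ^ J * b, by positivity, fun n hn => ?_⟩
  set t : ℝ := 1 / ((n : ℝ) + 1) with ht
  have hn' : (1 : ℝ) ≤ n := by exact_mod_cast hn
  have ht0 : 0 < t := by positivity
  have ht1 : t ≤ 1 / 2 := by
    rw [ht]
    apply one_div_le_one_div_of_le <;> linarith
  have e1 := congrArg (fun q : ℝ[X] => q.eval t) hM
  simp only [eval_mul, eval_pow, eval_X] at e1
  have e2 : (Np v J).eval t = (1 - t) ^ J * ((1 + t) ^ 3 * sv v J (n + 1) * sv v J n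
      - (34 + 51 * t + 27 * t ^ 2 + 5 * t ^ 3) * sv v J n + 1) := by
    have h34 : (34 + 51 * X + 27 * X ^ 2 + 5 * X ^ 3 : ℝ[X]).eval t
      = 34 + 51 * t + 27 * t ^ 2 + 5 * t ^ 3 := by simp
    have hF : (Fp v J).eval t = sv v J (n + 1) := by
      have := eval_Fp v J (n + 1)
      rw [← this, ht]
      push_cast
      rfl
    rw [Np, eval_add, eval_sub, eval_mul, eval_mul, eval_mul, h34, hF, eval_Gp v J n hn, ← ht]
    simp only [eval_pow, eval_add, eval_sub, eval_one, eval_X]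
    ring
  rw [e2] at e1
  set D := (1 + t) ^ 3 * sv v J (n + 1) * sv v J n
      - (34 + 51 * t + 27 * t ^ 2 + 5 * t ^ 3) * sv v J n + 1 with hD
  have h3 : |(1 - t) ^ J * D| ≤ t ^ (J + 1) * b := by
    rw [e1, abs_mul, abs_of_pos (by positivity : 0 < t ^ (J + 1))]
    exact mul_le_mul_of_nonneg_left (hb' t ⟨ht0.le, by linarith⟩) (by positivity)
  rw [abs_mul, abs_of_nonneg (pow_nonneg (by linarith : 0 ≤ 1 - t) J)] at h3
  have h4 : (1 / 2 : ℝ) ^ J ≤ (1 - t) ^ J := pow_le_pow_left₀ (by norm_num) (by linarith) J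
  have h5 : (1 / 2 : ℝ) ^ J * |D| ≤ t ^ (J + 1) * b :=
    (mul_le_mul_of_nonneg_right h4 (abs_nonneg _)).trans h3
  have h6 : (2 : ℝ) ^ J * (1 / 2 : ℝ) ^ J = 1 := by rw [← mul_pow]; norm_num
  calc |D| = (2 : ℝ) ^ J * ((1 / 2 : ℝ) ^ J * |D|) := by rw [← mul_assoc, h6, one_mul]
    _ ≤ (2 : ℝ) ^ J * (t ^ (J + 1) * b) := mul_le_mul_of_nonneg_left h5 (by positivity)
    _ = 2 ^ J * b * t ^ (J + 1) := by ring

/-- boundedness of the truncated series -/
theorem sv_bdd (v : ℕ → ℝ) (J : ℕ) (n : ℕ) (hn : 1 ≤ n) :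
    |sv v J n| ≤ ∑ j ∈ range (J + 1), |v j| := by
  unfold sv
  refine (Finset.abs_sum_le_sum_abs _ _).trans (Finset.sum_le_sum fun j _ => ?_)
  rw [abs_div]
  have h1 : (1 : ℝ) ≤ (n : ℝ) ^ j := one_le_pow₀ (by exact_mod_cast hn)
  rw [abs_of_pos (by linarith : (0 : ℝ) < (n : ℝ) ^ j)]
  exact div_le_self (abs_nonneg _) h1

/-- the truncated series is close to `v 0` -/
theorem sv_sub (v : ℕ → ℝ) (J : ℕ) (n : ℕ) (hn : 1 ≤ n) :
    |sv v J n - v 0| ≤ (∑ j ∈ range (J + 1), |v j|) / n := by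
  have hn' : (1 : ℝ) ≤ n := by exact_mod_cast hn
  have e : sv v J n - v 0 = ∑ j ∈ range J, v (j + 1) / (n : ℝ) ^ (j + 1) := by
    unfold sv
    rw [Finset.sum_range_succ']
    simp
  rw [e, Finset.sum_range_succ', add_div, Finset.sum_div]
  have h2 : |∑ j ∈ range J, v (j + 1) / (n : ℝ) ^ (j + 1)| ≤ ∑ j ∈ range J, |v (j + 1)| / n := by
    refine (Finset.abs_sum_le_sum_abs _ _).trans (Finset.sum_le_sum fun j _ => ?_)
    rw [abs_div]
    have h1 : (n : ℝ) ≤ (n : ℝ) ^ (j + 1) := by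
      rw [pow_succ]
      exact le_mul_of_one_le_left (by linarith) (one_le_pow₀ hn')
    rw [abs_of_pos (by linarith : (0 : ℝ) < (n : ℝ) ^ (j + 1))]
    exact div_le_div_of_nonneg_left (abs_nonneg _) (by linarith) h1
  have h3 : 0 ≤ |v 0| / (n : ℝ) := by positivity
  linarith

end AsymAux

open AsymAux in
/-- **asymptotic expansion** -/
theorem ratio_asym (l : ℕ → ℝ) (hl : IsDom l) (v : ℕ → ℝ) (hv0 : v 0 = 17 - 12 * Real.sqrt 2)
    (hv : IsFormal v) (J : ℕ) : ∃ C : ℝ, ∀ n : ℕ, 1 ≤ n →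
    |l (n + 1) / l n - ∑ j ∈ range (J + 1), v j / (n : ℝ) ^ j| ≤ C / (n : ℝ) ^ (J + 1) := by
  obtain ⟨B, hB0, hB⟩ := defect v hv J
  set S : ℝ := ∑ j ∈ range (J + 1), |v j| with hS
  have hS0 : 0 ≤ S := Finset.sum_nonneg fun _ _ => abs_nonneg _
  set e : ℕ → ℝ := fun n => l (n + 1) / l n - sv v J n with he
  have hv0' : |v 0| ≤ 1 := by
    rw [hv0]
    have h1 : Real.sqrt 2 ^ 2 = 2 := Real.sq_sqrt (by norm_num)
    have h2 : 0 ≤ Real.sqrt 2 := Real.sqrt_nonneg 2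
    have h3 : Real.sqrt 2 ≤ 3 / 2 := by nlinarith
    have h4 : (4 : ℝ) / 3 ≤ Real.sqrt 2 := by nlinarith
    rw [abs_le]
    constructor <;> linarith
  have hbd : ∀ n : ℕ, 1 ≤ n → |e n| ≤ 1 + S := by
    intro n hn
    have h1 := dom_ratio l hl n
    have h2 := sv_bdd v J n hn
    calc |e n| ≤ |l (n + 1) / l n| + |sv v J n| := abs_sub _ _
      _ ≤ 1 + S := by
        rw [abs_of_pos h1.1]
        have := h1.2
        linarith
  -- the recursion
  have hrec : ∀ n : ℕ, 1 ≤ n → e n * ((34 + 51 * (1 / ((n : ℝ) + 1)) + 27 * (1 / ((n : ℝ) + 1)) ^ 2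
      + 5 * (1 / ((n : ℝ) + 1)) ^ 3) - (1 + 1 / ((n : ℝ) + 1)) ^ 3 * (l (n + 2) / l (n + 1)))
      = (1 + 1 / ((n : ℝ) + 1)) ^ 3 * sv v J n * e (n + 1)
        + ((1 + 1 / ((n : ℝ) + 1)) ^ 3 * sv v J (n + 1) * sv v J n
      - (34 + 51 * (1 / ((n : ℝ) + 1)) + 27 * (1 / ((n : ℝ) + 1)) ^ 2 + 5 * (1 / ((n : ℝ) + 1)) ^ 3)
        * sv v J n + 1) := by
    intro n hn
    have hp0 := hl.pos n
    have hp1 := hl.pos (n + 1)
    have hr := hl.recur n
    have hn1 : (n : ℝ) + 1 ≠ 0 := by positivity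
    have hric : (1 + 1 / ((n : ℝ) + 1)) ^ 3 * (l (n + 2) / l (n + 1)) * (l (n + 1) / l n)
      - (34 + 51 * (1 / ((n : ℝ) + 1)) + 27 * (1 / ((n : ℝ) + 1)) ^ 2 + 5 * (1 / ((n : ℝ) + 1)) ^ 3)
        * (l (n + 1) / l n) + 1 = 0 := by
      have e1 : (1 + 1 / ((n : ℝ) + 1)) ^ 3 * (l (n + 2) / l (n + 1)) * (l (n + 1) / l n)
      - (34 + 51 * (1 / ((n : ℝ) + 1)) + 27 * (1 / ((n : ℝ) + 1)) ^ 2 + 5 * (1 / ((n : ℝ) + 1)) ^ 3)
        * (l (n + 1) / l n) + 1 = (((n : ℝ) + 2) ^ 3 * l (n + 2) - ap ((n : ℝ) + 1) * l (n + 1)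
    + ((n : ℝ) + 1) ^ 3 * l n) / (((n : ℝ) + 1) ^ 3 * l n) := by
        unfold ap
        field_simp
        ring
      rw [e1, hr, zero_div]
    simp only [he]
    rw [show n + 1 + 1 = n + 2 by ring]
    linear_combination -hric
  -- the contraction for large n
  obtain ⟨n1, hn1⟩ := exists_nat_gt (2 * S)
  have hcontr : ∀ n : ℕ, 1 ≤ n → n1 ≤ n →
      |e n| ≤ 1 / 2 * |e (n + 1)| + B * (1 / (n : ℝ)) ^ (J + 1) := by
    intro n hn hnn
    have hn' : (1 : ℝ) ≤ n := by exact_mod_cast hn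
    have hr := hrec n hn
    have hd := hB n hn
    have h1 := dom_ratio l hl (n + 1)
    rw [show n + 1 + 1 = n + 2 by ring] at h1
    have hs := sv_sub v J n hn
    set t : ℝ := 1 / ((n : ℝ) + 1) with ht
    have ht0 : 0 < t := by positivity
    have ht1 : t ≤ 1 / 2 := by
      rw [ht]
      apply one_div_le_one_div_of_le <;> linarith
    have ht3 : (1 + t) ^ 3 ≤ 27 / 8 := by
      calc (1 + t) ^ 3 ≤ (1 + 1 / 2) ^ 3 := pow_le_pow_left₀ (by linarith) (by linarith) 3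
        _ = 27 / 8 := by norm_num
    have ht3' : 0 < (1 + t) ^ 3 := by positivity
    set D := (1 + t) ^ 3 * sv v J (n + 1) * sv v J n
      - (34 + 51 * t + 27 * t ^ 2 + 5 * t ^ 3) * sv v J n + 1 with hD
    set den := (34 + 51 * t + 27 * t ^ 2 + 5 * t ^ 3) - (1 + t) ^ 3 * (l (n + 2) / l (n + 1))
      with hden
    have hden33 : 33 ≤ den := by
      have a1 : (1 + t) ^ 3 * (l (n + 2) / l (n + 1)) ≤ 27 / 8 * (1 / 31) :=
        mul_le_mul ht3 h1.2 h1.1.le (by norm_num)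
      have a2 : 0 ≤ 51 * t + 27 * t ^ 2 + 5 * t ^ 3 := by positivity
      rw [hden]
      linarith
    have hsv : |sv v J n| ≤ 3 / 2 := by
      have hSn : S / n ≤ 1 / 2 := by
        rw [div_le_iff₀ (by linarith)]
        have : (n1 : ℝ) ≤ n := by exact_mod_cast hnn
        linarith
      have h5 : |sv v J n| ≤ |sv v J n - v 0| + |v 0| := by
        have := abs_add_le (sv v J n - v 0) (v 0)
        rwa [sub_add_cancel] at this
      linarith
    have h6 : |e n| * den = |(1 + t) ^ 3 * sv v J n * e (n + 1) + D| := by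
      rw [← hr, abs_mul, abs_of_pos (by linarith : 0 < den)]
    have h7 : |(1 + t) ^ 3 * sv v J n * e (n + 1) + D| ≤
        27 / 8 * (3 / 2) * |e (n + 1)| + B * t ^ (J + 1) := by
      refine (abs_add_le _ _).trans (add_le_add ?_ hd)
      rw [abs_mul, abs_mul, abs_of_pos ht3']
      exact mul_le_mul_of_nonneg_right (mul_le_mul ht3 hsv (abs_nonneg _) (by norm_num))
        (abs_nonneg _)
    have h8 : |e n| * 33 ≤ |e n| * den := mul_le_mul_of_nonneg_left hden33 (abs_nonneg _)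
    have h9 : t ^ (J + 1) ≤ (1 / (n : ℝ)) ^ (J + 1) := by
      refine pow_le_pow_left₀ ht0.le ?_ _
      rw [ht]
      apply one_div_le_one_div_of_le <;> linarith
    have h10 : B * t ^ (J + 1) ≤ B * (1 / (n : ℝ)) ^ (J + 1) := mul_le_mul_of_nonneg_left h9 hB0
    have h11 : 0 ≤ B * (1 / (n : ℝ)) ^ (J + 1) := by positivity
    have h12 := abs_nonneg (e (n + 1))
    linarith
  have hiter : ∀ K : ℕ, ∀ n : ℕ, 1 ≤ n → n1 ≤ n →
      |e n| ≤ 2 * B * (1 / (n : ℝ)) ^ (J + 1) + (1 / 2) ^ K * (1 + S) := by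
    intro K
    induction K with
    | zero =>
      intro n hn _
      have h1 := hbd n hn
      have h2 : 0 ≤ 2 * B * (1 / (n : ℝ)) ^ (J + 1) := by positivity
      rw [pow_zero, one_mul]
      linarith
    | succ K ih =>
      intro n hn hnn
      have hn' : (1 : ℝ) ≤ n := by exact_mod_cast hn
      have h1 := hcontr n hn hnn
      have h2 := ih (n + 1) (by omega) (by omega)
      have h3 : (1 / ((n + 1 : ℕ) : ℝ)) ^ (J + 1) ≤ (1 / (n : ℝ)) ^ (J + 1) := by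
        refine pow_le_pow_left₀ (by positivity) ?_ _
        apply one_div_le_one_div_of_le
        · linarith
        · push_cast; linarith
      have h4 : 2 * B * (1 / ((n + 1 : ℕ) : ℝ)) ^ (J + 1) ≤ 2 * B * (1 / (n : ℝ)) ^ (J + 1) :=
        mul_le_mul_of_nonneg_left h3 (by positivity)
      rw [pow_succ (1 / 2 : ℝ) K]
      linarith
  have hlim : ∀ n : ℕ, 1 ≤ n → n1 ≤ n → |e n| ≤ 2 * B * (1 / (n : ℝ)) ^ (J + 1) := by
    intro n hn hnn
    have ht : Filter.Tendsto (fun K : ℕ => 2 * B * (1 / (n : ℝ)) ^ (J + 1) + (1 / 2) ^ K * (1 + S))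
        Filter.atTop (nhds (2 * B * (1 / (n : ℝ)) ^ (J + 1) + 0 * (1 + S))) :=
      ((tendsto_pow_atTop_nhds_zero_of_lt_one (by norm_num) (by norm_num)).mul_const _).const_add _
    rw [zero_mul, add_zero] at ht
    exact ge_of_tendsto' ht fun K => hiter K n hn hnn
  refine ⟨2 * B + (1 + S) * ((n1 : ℝ) + 1) ^ (J + 1), fun n hn => ?_⟩
  have hn' : (0 : ℝ) < n := by exact_mod_cast hn
  change |e n| ≤ _
  rw [le_div_iff₀ (by positivity)]
  by_cases hnn : n1 ≤ n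
  · have h1 := hlim n hn hnn
    have h2 : |e n| * (n : ℝ) ^ (J + 1) ≤ 2 * B := by
      calc |e n| * (n : ℝ) ^ (J + 1) ≤ 2 * B * (1 / (n : ℝ)) ^ (J + 1) * (n : ℝ) ^ (J + 1) :=
            mul_le_mul_of_nonneg_right h1 (by positivity)
        _ = 2 * B := by
          rw [mul_assoc, ← mul_pow, one_div, inv_mul_cancel₀ hn'.ne', one_pow, mul_one]
    have h3 : 0 ≤ (1 + S) * ((n1 : ℝ) + 1) ^ (J + 1) := by positivity
    linarith
  · have h1 := hbd n hn
    have h2 : (n : ℝ) ^ (J + 1) ≤ ((n1 : ℝ) + 1) ^ (J + 1) := by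
      refine pow_le_pow_left₀ hn'.le ?_ _
      have : (n : ℝ) ≤ n1 := by
        have : n ≤ n1 := by omega
        exact_mod_cast this
      linarith
    calc |e n| * (n : ℝ) ^ (J + 1) ≤ (1 + S) * ((n1 : ℝ) + 1) ^ (J + 1) :=
          mul_le_mul h1 h2 (by positivity) (by positivity)
      _ ≤ _ := by linarith

end QS2
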