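import Pool.Agent.QS2.Defs

/-!
# QS2, half (b) (archimedean): definitions

`Y M` continuants of the Apéry recurrence (going right), `rr M w = r_M(w)` the convergents
`r_0 = 0`, `r_{M+1}(w) = (w+1)^3 / (ap(w+1) - (w+2)^3 r_M(w+1)) = (w+1)^3 Y_M(w+1) / Y_{M+1}(w)`,
`am M` their value at infinity, `beta = sqrt(3/68)`, `cen j` the three centres of the unit of
index 0.
-/

set_option autoImplicit false

namespace QS2

open Finset Polynomial

/-- continuants: `Y_0 = 1`, `Y_1 = P(z+1)`, `Y_{M+2}(z) = P(z+1) Y_{M+1}(z+1) - (z+2)^6 Y_M(z+2)` -/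
noncomputable def Y : ℕ → ℂ[X]
  | 0 => 1
  | 1 => ap (X + 1)
  | M + 2 => ap (X + 1) * (Y (M + 1)).comp (X + 1) - (X + 2) ^ 6 * (Y M).comp (X + 2)

/-- `Yp M = Y_{M-1}`, `Yp 0 = 0` -/
noncomputable def Yp : ℕ → ℂ[X]
  | 0 => 0
  | M + 1 => Y M

/-- the convergents `r_M(w) = (w+1)^3 Y_{M-1}(w+1) / Y_M(w)`, `r_0 = 0` -/
noncomputable def rr (M : ℕ) (w : ℂ) : ℂ := (w + 1) ^ 3 * (Yp M).eval (w + 1) / (Y M).eval w

/-- leading coefficients of the continuants -/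
def ylead : ℕ → ℝ
  | 0 => 1
  | 1 => 34
  | M + 2 => 34 * ylead (M + 1) - ylead M

/-- value of `r_M` at infinity -/
noncomputable def am : ℕ → ℝ
  | 0 => 0
  | M + 1 => 1 / (34 - am M)

/-- `sqrt (3/68)`: the zeros of `ap` are `-1/2`, `-1/2 ± i beta` -/
noncomputable def beta : ℝ := Real.sqrt (3 / 68)

/-- the three zeros of `ap` -/
noncomputable def cen : Fin 3 → ℂ :=
  ![-1 / 2, -1 / 2 + beta * Complex.I, -1 / 2 - beta * Complex.I]

/-- the splitting function `F_k`, `k = a + 1`, `M - k = b` -/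
noncomputable def FF (a b : ℕ) (w : ℂ) : ℂ :=
  ap w - (w + 1) ^ 3 * rr b w - w ^ 3 * rr a (-1 - w)

/-- positive bounded (= dominated) solution of the Apéry recurrence -/
structure IsDom (l : ℕ → ℝ) : Prop where
  pos : ∀ n, 0 < l n
  recur : ∀ n : ℕ, ((n : ℝ) + 2) ^ 3 * l (n + 2) - ap ((n : ℝ) + 1) * l (n + 1)
    + ((n : ℝ) + 1) ^ 3 * l n = 0
  bdd : ∃ C, ∀ n, l n ≤ C

/-- recurrence of `aperyA` (from the Apery modules) -/
def RecA : Prop := ∀ n : ℕ, ((n : ℚ) + 2) ^ 3 * aperyA (n + 2) - ap ((n : ℚ) + 1) * aperyA (n + 1)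
    + ((n : ℚ) + 1) ^ 3 * aperyA n = 0

/-- the real embedding of a pole / residue family: all data of `r_M = am M + ∑ rho/(w - xi)` -/
structure IsPoles (K0 : ℝ) (M : ℕ) (xi rho : Fin M × Fin 3 → ℂ) : Prop where
  inj : Function.Injective xi
  loc : ∀ p, ‖xi p + ((p.1 : ℕ) : ℂ) + 1 - cen p.2‖ ≤ 1 / 10
  mass : ∀ p, ‖rho p‖ ≤ K0 * Real.exp (-7 * (((p.1 : ℕ) : ℝ) + 1))
  pf : ∀ w, (∀ p, w ≠ xi p) → rr M w = (am M : ℂ) + ∑ p, rho p / (w - xi p)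

end QS2
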