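import Pool.Agent.QS2.B.ContA
import Pool.Agent.QS2.Cont

/-! # QS2 (b): continuants: recurrence, degree, splitting, Casoratian -/

set_option autoImplicit false

namespace QS2

open Finset Polynomial

theorem ap_eq_pz {R : Type*} [CommRing R] (w : R) : ap w = Pool.Agent.QS2.pz w := by
  unfold ap Pool.Agent.QS2.pz
  ring

theorem eval_ap (p : ℂ[X]) (w : ℂ) : (ap p).eval w = ap (p.eval w) := by
  unfold ap
  simp

theorem eval_Y (M : ℕ) : ∀ w : ℂ, (Y M).eval w = Pool.Agent.QS2.yc (M + 1) w := by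
  induction M using Nat.strong_induction_on with
  | _ M ih =>
    intro w
    rcases M with _ | _ | M
    · simp [Y]
    · rw [Y, eval_ap, Pool.Agent.QS2.yc_left]
      simp [ap_eq_pz]
    · rw [Y, Pool.Agent.QS2.yc_left]
      simp only [eval_sub, eval_mul, eval_comp, eval_pow, eval_add, eval_X, eval_one, eval_ap]
      have e2 : ((2 : ℂ[X])).eval w = 2 := eval_ofNat 2 w
      rw [ih (M + 1) (by omega), ih M (by omega), e2, ap_eq_pz]

theorem eval_Yp (M : ℕ) (w : ℂ) : (Yp M).eval w = Pool.Agent.QS2.yc M w := by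
  rcases M with _ | M
  · simp [Yp]
  · rw [Yp, eval_Y]

theorem Y_rec (M : ℕ) (w : ℂ) : (Y (M + 1)).eval w =
    ap (w + 1) * (Y M).eval (w + 1) - (w + 2) ^ 6 * (Yp M).eval (w + 2) := by
  rw [eval_Y, eval_Y, eval_Yp, Pool.Agent.QS2.yc_left, ap_eq_pz]

/-- the recursion of the convergents -/
theorem rr_succ (M : ℕ) (w : ℂ) (h : (Y M).eval (w + 1) ≠ 0) :
    (Y (M + 1)).eval w = (Y M).eval (w + 1) * (ap (w + 1) - (w + 2) ^ 3 * rr M (w + 1)) ∧
    rr (M + 1) w = (w + 1) ^ 3 / (ap (w + 1) - (w + 2) ^ 3 * rr M (w + 1)) := by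
  have h1 : (Y (M + 1)).eval w =
      (Y M).eval (w + 1) * (ap (w + 1) - (w + 2) ^ 3 * rr M (w + 1)) := by
    rw [Y_rec, rr, show w + 1 + 1 = w + 2 by ring]
    field_simp
  refine ⟨h1, ?_⟩
  rw [rr, h1, Yp]
  rw [mul_comm (eval (w + 1) (Y M)) (ap (w + 1) - _), mul_div_mul_right _ _ h]

/-- **splitting** -/
theorem Y_split (a b : ℕ) (w : ℂ) :
    (-1) ^ a * (Y (a + b + 1)).eval (w - (a + 1)) =
      ap w * (Y a).eval (-1 - w) * (Y b).eval w
      - (w + 1) ^ 6 * (Yp b).eval (w + 1) * (Y a).eval (-1 - w)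
      + w ^ 6 * (Yp a).eval (-w) * (Y b).eval w := by
  have hs : ((-1 : ℂ) ^ a) * (-1) ^ a = 1 := by
    rw [← mul_pow]; norm_num
  rw [eval_Y, eval_Y, eval_Y, eval_Yp, eval_Yp, ap_eq_pz, Pool.Agent.QS2.yc_split, ← mul_assoc, hs]
  ring

theorem Y_split' (a b : ℕ) (w : ℂ) (h1 : (Y a).eval (-1 - w) ≠ 0) (h2 : (Y b).eval w ≠ 0) :
    (Y (a + b + 1)).eval (w - (a + 1)) =
      (-1) ^ a * (Y a).eval (-1 - w) * (Y b).eval w * FF a b w := by
  have hs : ((-1 : ℂ) ^ a) * (-1) ^ a = 1 := by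
    rw [← mul_pow]; norm_num
  have h3 := Y_split a b w
  have e1 : (Y b).eval w * rr b w = (w + 1) ^ 3 * (Yp b).eval (w + 1) := by
    rw [rr]; field_simp
  have e2 : (Y a).eval (-1 - w) * rr a (-1 - w) = (-w) ^ 3 * (Yp a).eval (-w) := by
    rw [rr, show -1 - w + 1 = -w by ring]; field_simp
  rw [FF]
  linear_combination (-1) ^ a * h3 - (Y (a + b + 1)).eval (w - (a + 1)) * hs +
    (-1) ^ a * (w + 1) ^ 3 * (Y a).eval (-1 - w) * e1 + (-1) ^ a * w ^ 3 * (Y b).eval w * e2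

/-- **Casoratian** -/
theorem Y_caso (m : ℕ) (t : ℂ) :
    (Y m).eval (t + 1) * (Y m).eval t - (Yp m).eval (t + 1) * (Y (m + 1)).eval t =
      ∏ i ∈ range m, (t + i + 2) ^ 6 := by
  rw [eval_Y, eval_Y, eval_Y, eval_Yp, Pool.Agent.QS2.yc_cas]
  refine Finset.prod_congr rfl fun i _ => ?_
  rw [add_assoc]

theorem rr_sub (m : ℕ) (t : ℂ) (h1 : (Y m).eval t ≠ 0) (h2 : (Y (m + 1)).eval t ≠ 0) :
    rr (m + 1) t - rr m t =
      (t + 1) ^ 3 * (∏ i ∈ range m, (t + i + 2) ^ 6) / ((Y m).eval t * (Y (m + 1)).eval t) := by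
  rw [← Y_caso, rr, rr, Yp]
  field_simp

end QS2
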