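import Pool.Agent.QS2.B.BDefs

/-! # QS2 (b): continuants: degree, leading coefficient, value at infinity -/

set_option autoImplicit false

namespace QS2

open Finset Polynomial

theorem ylead_aux (M : ℕ) : 0 < ylead M ∧ 33 * ylead M ≤ ylead (M + 1) := by
  induction M with
  | zero => norm_num [ylead]
  | succ M ih =>
    obtain ⟨h1, h2⟩ := ih
    have h3 : 0 < ylead (M + 1) := by linarith
    refine ⟨h3, ?_⟩
    have h4 : ylead (M + 1 + 1) = 34 * ylead (M + 1) - ylead M := rfl
    rw [h4]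
    linarith

theorem ylead_pos (M : ℕ) : 0 < ylead M := (ylead_aux M).1

theorem natDegree_ap : (ap (X + 1) : ℂ[X]).natDegree = 3 := by
  have h : (ap (X + 1) : ℂ[X]) = C 34 * X ^ 3 + C 153 * X ^ 2 + C 231 * X + C 117 := by
    unfold ap
    simp only [map_ofNat]
    ring
  rw [h]
  compute_degree!

theorem coeff_ap : (ap (X + 1) : ℂ[X]).coeff 3 = 34 := by
  have h : (ap (X + 1) : ℂ[X]) = C 34 * X ^ 3 + C 153 * X ^ 2 + C 231 * X + C 117 := by
    unfold ap
    simp only [map_ofNat]
    ring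
  rw [h]
  simp

theorem comp_taylor (p : ℂ[X]) (a : ℂ) (q : ℂ[X]) (hq : q = X + C a) :
    (p.comp q).natDegree = p.natDegree ∧ (p.comp q).leadingCoeff = p.leadingCoeff := by
  have h : p.comp q = taylor a p := by
    rw [hq, taylor_apply]
  have h1 : (taylor a p).natDegree = p.natDegree := natDegree_taylor p a
  rw [h]
  refine ⟨h1, ?_⟩
  rw [leadingCoeff, h1, coeff_taylor_natDegree]

theorem Y_deg_lead (M : ℕ) :
    (Y M).natDegree = 3 * M ∧ (Y M).leadingCoeff = (ylead M : ℂ) := by
  induction M using Nat.twoStepInduction with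
  | zero => simp [Y, ylead]
  | one =>
    refine ⟨natDegree_ap, ?_⟩
    have h : (Y 1).leadingCoeff = (ap (X + 1) : ℂ[X]).coeff 3 := by
      rw [leadingCoeff]
      change (ap (X + 1) : ℂ[X]).coeff (ap (X + 1) : ℂ[X]).natDegree = _
      rw [natDegree_ap]
    rw [h, coeff_ap]
    simp [ylead]
  | more M ih0 ih1 =>
    obtain ⟨d0, l0⟩ := ih0
    obtain ⟨d1, l1⟩ := ih1
    have hY : Y (M + 2) = ap (X + 1) * (Y (M + 1)).comp (X + 1) -
      (X + 2) ^ 6 * (Y M).comp (X + 2) := rfl
    obtain ⟨e1, f1⟩ := comp_taylor (Y (M + 1)) 1 (X + 1) (by simp)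
    obtain ⟨e2, f2⟩ := comp_taylor (Y M) 2 (X + 2) (by rw [map_ofNat])
    rw [d1] at e1
    rw [d0] at e2
    rw [l1] at f1
    rw [l0] at f2
    have c1 : ((Y (M + 1)).comp (X + 1)).coeff (3 * (M + 1)) = (ylead (M + 1) : ℂ) := by
      rw [← f1, leadingCoeff, e1]
    have c2 : ((Y M).comp (X + 2)).coeff (3 * M) = (ylead M : ℂ) := by
      rw [← f2, leadingCoeff, e2]
    have hX2 : ((X + 2 : ℂ[X]) ^ 6).natDegree = 6 := by
      have : (X + 2 : ℂ[X]) = X + C 2 := by rw [map_ofNat]
      rw [this, natDegree_pow, natDegree_X_add_C]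
    have hX2c : ((X + 2 : ℂ[X]) ^ 6).coeff 6 = 1 := by
      have h2 : (X + 2 : ℂ[X]) = X + C 2 := by rw [map_ofNat]
      have h3 : ((X + C 2 : ℂ[X]) ^ 6).Monic := (monic_X_add_C 2).pow 6
      have h4 := h3.coeff_natDegree
      rwa [← h2, hX2] at h4
    have hp1 : (ap (X + 1) * (Y (M + 1)).comp (X + 1) : ℂ[X]).coeff (3 + 3 * (M + 1)) =
        34 * (ylead (M + 1) : ℂ) := by
      rw [coeff_mul_add_eq_of_natDegree_le natDegree_ap.le e1.le, coeff_ap, c1]
    have hp2 : ((X + 2 : ℂ[X]) ^ 6 * (Y M).comp (X + 2)).coeff (6 + 3 * M) =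
        (ylead M : ℂ) := by
      rw [coeff_mul_add_eq_of_natDegree_le hX2.le e2.le, hX2c, c2, one_mul]
    have hle : (Y (M + 2)).natDegree ≤ 3 * (M + 2) := by
      rw [hY]
      refine (natDegree_sub_le _ _).trans (max_le ?_ ?_)
      · refine natDegree_mul_le.trans ?_
        rw [natDegree_ap, e1]
        omega
      · refine natDegree_mul_le.trans ?_
        rw [hX2, e2]
        omega
    have hc : (Y (M + 2)).coeff (3 * (M + 2)) = (ylead (M + 2) : ℂ) := by
      rw [hY, coeff_sub]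
      rw [show 3 * (M + 2) = 3 + 3 * (M + 1) by ring, hp1,
        show 3 + 3 * (M + 1) = 6 + 3 * M by ring, hp2]
      have : ylead (M + 2) = 34 * ylead (M + 1) - ylead M := rfl
      rw [this]
      push_cast
      ring
    have hne : (Y (M + 2)).coeff (3 * (M + 2)) ≠ 0 := by
      rw [hc]
      exact_mod_cast (ylead_pos (M + 2)).ne'
    have hd : (Y (M + 2)).natDegree = 3 * (M + 2) := le_antisymm hle (le_natDegree_of_ne_zero hne)
    exact ⟨hd, by rw [leadingCoeff, hd, hc]⟩

theorem natDegree_Y (M : ℕ) : (Y M).natDegree = 3 * M := (Y_deg_lead M).1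

theorem leadingCoeff_Y (M : ℕ) : (Y M).leadingCoeff = (ylead M : ℂ) := (Y_deg_lead M).2

theorem am_eq (M : ℕ) : am (M + 1) = ylead M / ylead (M + 1) := by
  induction M with
  | zero => norm_num [am, ylead]
  | succ M ih =>
    have h1 : am (M + 1 + 1) = 1 / (34 - am (M + 1)) := rfl
    have h2 : ylead (M + 1 + 1) = 34 * ylead (M + 1) - ylead M := rfl
    have h3 := ylead_pos (M + 1)
    have h4 := ylead_pos (M + 1 + 1)
    rw [h2] at h4
    have h5 : 34 - ylead M / ylead (M + 1) = (34 * ylead (M + 1) - ylead M) / ylead (M + 1) := by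
      field_simp
    rw [h1, ih, h2, h5, one_div, inv_div]

theorem am_bounds (M : ℕ) : 0 ≤ am M ∧ am M ≤ 1 := by
  cases M with
  | zero => simp [am]
  | succ M =>
    rw [am_eq]
    obtain ⟨h1, h2⟩ := ylead_aux M
    have h3 := ylead_pos (M + 1)
    refine ⟨by positivity, ?_⟩
    rw [div_le_one h3]
    linarith

theorem tendsto_am : Filter.Tendsto am Filter.atTop (nhds (17 - 12 * Real.sqrt 2)) := by
  set α : ℝ := 17 - 12 * Real.sqrt 2 with hα
  have hs : Real.sqrt 2 ^ 2 = 2 := Real.sq_sqrt (by norm_num)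
  have hs0 : 0 ≤ Real.sqrt 2 := Real.sqrt_nonneg 2
  have hα2 : α * (34 - α) = 1 := by
    rw [hα]
    linear_combination (-144 : ℝ) * hs
  have hs1 : 4 / 3 ≤ Real.sqrt 2 := by
    apply Real.le_sqrt_of_sq_le
    norm_num
  have hα1 : α ≤ 1 := by
    rw [hα]
    linarith
  have hbound : ∀ M, |am M - α| ≤ (1 / 2) ^ M * |am 0 - α| := by
    intro M
    induction M with
    | zero => simp
    | succ M ih =>
      obtain ⟨h1, h2⟩ := am_bounds M
      have h3 : am (M + 1) = 1 / (34 - am M) := rfl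
      have h4 : (0 : ℝ) < 34 - am M := by linarith
      have h5 : am (M + 1) - α = (am M - α) * (1 / ((34 - am M) * (34 - α))) := by
        have h6 : (0 : ℝ) < 34 - α := by linarith
        have h7 : α = 1 / (34 - α) := by
          rw [eq_div_iff h6.ne']
          exact hα2
        rw [h3]
        conv_lhs => rw [h7]
        field_simp
        ring
      have h6 : |1 / ((34 - am M) * (34 - α))| ≤ 1 / 2 := by
        have h7 : (2 : ℝ) ≤ (34 - am M) * (34 - α) := by nlinarith
        rw [abs_of_nonneg (by positivity)]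
        exact one_div_le_one_div_of_le (by norm_num) h7
      rw [h5, abs_mul, pow_succ]
      calc |am M - α| * |1 / ((34 - am M) * (34 - α))|
          ≤ ((1 / 2) ^ M * |am 0 - α|) * (1 / 2) :=
            mul_le_mul ih h6 (abs_nonneg _) (by positivity)
        _ = (1 / 2) ^ M * (1 / 2) * |am 0 - α| := by ring
  rw [tendsto_iff_norm_sub_tendsto_zero]
  have h0 : Filter.Tendsto (fun M : ℕ => (1 / 2 : ℝ) ^ M * |am 0 - α|) Filter.atTop (nhds 0) := by
    have := (tendsto_pow_atTop_nhds_zero_of_lt_one (r := (1 / 2 : ℝ)) (by norm_num)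
      (by norm_num)).mul_const (|am 0 - α|)
    rwa [zero_mul] at this
  exact squeeze_zero (fun M => norm_nonneg _) (fun M => by rw [Real.norm_eq_abs]; exact hbound M) h0

end QS2
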