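import Pool.Agent.QS2.Defs

/-!
# QS2 (b): the energy functional (interface between the determinant side and the energy side)

Particles: unit `k ≥ 1` holds three poles (`|xi + k + 1/2| ≤ 1/3`, real part within `1/10`) and,
for `3 ≤ k ≤ A + 2`, the left node `-k`. `Gw A z k` bounds the logarithm of
`e^{-7k} |phi_i phi_j| / |∏_F|` at every particle of the unit `k`, up to an additive constant.
-/

set_option autoImplicit false

namespace QS2

open Finset

/-- log weight of the unit `k` -/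
noncomputable def Gw (A : ℕ) {c : ℕ} (z : Fin c → ℝ) (k : ℕ) : ℝ :=
  2 * ∑ i, Real.log (|(k : ℝ) + z i| + 2)
    - ∑ m ∈ range A, Real.log ((m : ℝ) + 1 + k)
    - ∑ j ∈ (Icc 3 (A + 2)).filter (· < k), Real.log ((k : ℝ) - j)
    - ∑ j ∈ (Icc 3 (A + 2)).filter (k + 1 < ·), Real.log ((j : ℝ) - k - 1)
    - 7 * k

/-- `log V(z)` of the reference points -/
noncomputable def lV {c : ℕ} (z : Fin c → ℝ) : ℝ :=
  ∑ i, ∑ j ∈ Ioi i, Real.log |z j - z i|

/-- `log V(F)` of the nodes `1..A`, `-3..-2-A` -/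
noncomputable def lVF (A : ℕ) : ℝ :=
  2 * ∑ d ∈ range A, Real.log (d.factorial : ℝ)
    + ∑ i ∈ range A, ∑ j ∈ range A, Real.log ((i : ℝ) + j + 4)

/-- the exponent in the final bound, `c = A + rho` -/
noncomputable def enTot (A rho : ℕ) (z : Fin (A + rho) → ℝ) (lam : ℝ) : ℝ :=
  ((A : ℝ) + rho) * lam + 4 * ∑ k ∈ Icc 1 A, max (Gw A z k - lam) 0 - 2 * lV z + lVF A
    - 2 * ∑ i ∈ range (A + rho), Real.log (i.factorial : ℝ)
    + ∑ d ∈ Ico (A - rho) (A + rho), Real.log (d.factorial : ℝ)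

end QS2
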