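import Pool.Agent.QS2.B.EnDefs
import Pool.Agent.QS2.EnMain
import Pool.Agent.QS2.EnVF

/-! # QS2 (b): the discrete energy estimate -/

set_option autoImplicit false

namespace QS2

open Finset
open Pool.QS2E
open Pool.Agent.QS2 (psi psi_tan gC hC IC gC_sum gC_far VN VN_pos lgn_2 lgn_3 lgn_4 lgn_5 lgn_10)

/-- constant of the archimedean bound -/
noncomputable def EB : ℝ := 17 / 4

theorem gC_far1 (x : ℝ) (h : 1 ≤ x) : gC x ≤ -311 / 50 - x := by
  have hx : 0 < x := by linarith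
  have tn : ∀ c : ℝ, 0 ≤ c → c < 1 → (x - c) * (Real.log x + Real.log (1 - c)) + c * (x - 1) ≤ psi (x - c) := by
    intro c hc hc1
    have h1 := psi_tan (x * (1 - c)) (x - c) (mul_pos hx (by linarith)) (by linarith)
    rw [Real.log_mul hx.ne' (by linarith)] at h1
    have e : x - c - x * (1 - c) = c * (x - 1) := by ring
    rw [e] at h1
    exact h1
  have a1 := tn (1 / 5) (by norm_num) (by norm_num)
  have a2 := tn (2 / 5) (by norm_num) (by norm_num)
  have a3 := tn (7 / 10) (by norm_num) (by norm_num)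
  have a4 := psi_tan (x * 2) (x - (-1)) (by linarith) (by linarith)
  rw [Real.log_mul hx.ne' (by norm_num)] at a4
  have a5 : psi (x - 1) ≤ (x - 1) * Real.log x := by
    unfold psi
    rcases h.eq_or_lt with h1 | h1
    · rw [← h1]; simp
    · exact mul_le_mul_of_nonneg_left (Real.log_le_log (by linarith) (by linarith)) (by linarith)
  have a6 : psi (x - 0) = x * Real.log x := by unfold psi; rw [sub_zero]
  have a7 := Real.log_le_sub_one_of_pos hx
  have l2 := lgn_2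
  have l3 := lgn_3
  have l4 := lgn_4
  have l5 := lgn_5
  have l10 := lgn_10
  have r1 : Real.log (1 - 1 / 5) = Real.log 4 - Real.log 5 := by
    rw [← Real.log_div (by norm_num) (by norm_num)]; norm_num
  have r2 : Real.log (1 - 2 / 5) = Real.log 3 - Real.log 5 := by
    rw [← Real.log_div (by norm_num) (by norm_num)]; norm_num
  have r3 : Real.log (1 - 7 / 10) = Real.log 3 - Real.log 10 := by
    rw [← Real.log_div (by norm_num) (by norm_num)]; norm_num
  rw [r1] at a1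
  rw [r2] at a2
  rw [r3] at a3
  unfold gC
  rw [a6]
  set y := x - 1 with hy
  have hy0 : 0 ≤ y := by linarith
  have hxy : x = y + 1 := by linarith
  have b1 : y * (-0.2232) ≤ y * (Real.log 4 - Real.log 5) := mul_le_mul_of_nonneg_left (by linarith [l4.1, l5.2]) hy0
  have b2 : y * (-0.5109) ≤ y * (Real.log 3 - Real.log 5) := mul_le_mul_of_nonneg_left (by linarith [l3.1, l5.2]) hy0
  have b3 : y * (-1.2040) ≤ y * (Real.log 3 - Real.log 10) := mul_le_mul_of_nonneg_left (by linarith [l3.1, l10.2]) hy0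
  have b4 : y * 0.6931 ≤ y * Real.log 2 := mul_le_mul_of_nonneg_left (by linarith [l2.1]) hy0
  have c1 : (x - 1 / 5) * (Real.log 4 - Real.log 5) = y * (Real.log 4 - Real.log 5) + 4 / 5 * (Real.log 4 - Real.log 5) := by
    rw [hxy]; ring
  have c2 : (x - 2 / 5) * (Real.log 3 - Real.log 5) = y * (Real.log 3 - Real.log 5) + 3 / 5 * (Real.log 3 - Real.log 5) := by
    rw [hxy]; ring
  have c3 : (x - 7 / 10) * (Real.log 3 - Real.log 10) = y * (Real.log 3 - Real.log 10) + 3 / 10 * (Real.log 3 - Real.log 10) := by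
    rw [hxy]; ring
  have c4 : (x - (-1)) * Real.log 2 = y * Real.log 2 + 2 * Real.log 2 := by rw [hxy]; ring
  linarith [l2.1, l2.2, l3.1, l3.2, l4.1, l4.2, l5.1, l5.2, l10.1, l10.2]

/-- antiderivative of `log (|j| + 3) - log (|j| + 2)` -/
noncomputable def V5 (j : ℤ) : ℝ :=
  if 0 ≤ j then Real.log ((j:ℝ) + 2) else Real.log 6 - Real.log (3 - j)

theorem V5_tel (j : ℤ) : V5 (j + 1) - V5 j = Real.log (|(j:ℝ)| + 3) - Real.log (|(j:ℝ)| + 2) := by
  unfold V5
  rcases lt_trichotomy j (-1) with h | h | h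
  · have hj : (j:ℝ) ≤ 0 := by exact_mod_cast (by omega : j ≤ 0)
    rw [if_neg (by omega), if_neg (by omega), abs_of_nonpos hj]
    have e1 : (3:ℝ) - ((j + 1 : ℤ) : ℝ) = -j + 2 := by push_cast; ring
    have e2 : (3:ℝ) - (j:ℝ) = -j + 3 := by ring
    rw [e1, e2]; ring
  · subst h
    rw [if_pos (by norm_num), if_neg (by norm_num)]
    have e1 : |(((-1 : ℤ)) : ℝ)| = 1 := by push_cast; norm_num
    rw [e1]
    push_cast
    have e6 : Real.log 6 = Real.log 2 + Real.log 3 := by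
      rw [← Real.log_mul (by norm_num) (by norm_num)]; norm_num
    norm_num
    rw [e6]; ring
  · have hj : (0:ℝ) ≤ j := by exact_mod_cast (by omega : 0 ≤ j)
    rw [if_pos (by omega), if_pos (by omega), abs_of_nonneg hj]
    have e1 : ((j + 1 : ℤ) : ℝ) + 2 = j + 3 := by push_cast; ring
    rw [e1]

theorem shift_sum (k L : ℕ) : ∑ l ∈ Ioc 0 L, (Real.log (|(((k:ℤ) - (l:ℤ) : ℤ) : ℝ)| + 3)
    - Real.log (|(((k:ℤ) - (l:ℤ) : ℤ) : ℝ)| + 2)) ≤ 2 * Real.log ((k:ℝ) + L + 3) := by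
  have h := sum_tel V5 (fun j => Real.log (|(j:ℝ)| + 3) - Real.log (|(j:ℝ)| + 2)) V5_tel (k:ℤ)
    (Nat.zero_le L)
  rw [h]
  have hk : (0:ℝ) ≤ k := by positivity
  have hL : (0:ℝ) ≤ L := by positivity
  have h1 : V5 ((k:ℤ) - ((0:ℕ):ℤ)) ≤ Real.log ((k:ℝ) + L + 3) := by
    unfold V5
    rw [if_pos (by omega)]
    apply Real.log_le_log (by push_cast; linarith)
    push_cast; linarith
  have h2 : - V5 ((k:ℤ) - (L:ℤ)) ≤ Real.log ((k:ℝ) + L + 3) := by
    unfold V5
    split_ifs with h3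
    · have h4 : (0:ℝ) ≤ (((k:ℤ) - (L:ℤ) : ℤ) : ℝ) := by exact_mod_cast h3
      have h5 : 0 ≤ Real.log ((((k:ℤ) - (L:ℤ) : ℤ) : ℝ) + 2) := Real.log_nonneg (by linarith)
      have h6 : 0 ≤ Real.log ((k:ℝ) + L + 3) := Real.log_nonneg (by linarith)
      linarith
    · have h5 : 0 ≤ Real.log 6 := Real.log_nonneg (by norm_num)
      have h4 : (k:ℝ) < L := by exact_mod_cast (by omega : k < L)
      have h6 : Real.log (3 - (((k:ℤ) - (L:ℤ) : ℤ) : ℝ)) ≤ Real.log ((k:ℝ) + L + 3) := by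
        apply Real.log_le_log (by push_cast; linarith)
        push_cast; linarith
      linarith
  linarith

/-- comparison of `Gw` and `Gk` -/
theorem Gw_le (A n e k c : ℕ) (z : Fin c → ℝ) (un : Fin c → ℕ) (hn : 1 ≤ n) (he : e ≤ 16)
    (hz : ∀ i, 1 ≤ un i ∧ |z i + un i| ≤ 1 / 4 ∧ 1 / 8 ≤ |z i + un i|)
    (hF : ∀ F : ℕ → ℝ, ∑ i, F (un i) = ∑ l ∈ Ioc 0 (7 * n + e), (nu n e l : ℝ) * F l) :
    Gw A z k ≤ Gk A n e k + 6 * er ((k:ℝ) + 30 * n) := by
  have hn1 : (1:ℝ) ≤ n := by exact_mod_cast hn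
  have he1 : (e:ℝ) ≤ 16 := by exact_mod_cast he
  have hk0 : (0:ℝ) ≤ k := by positivity
  have s1 : ∑ i, Real.log (|(k : ℝ) + z i| + 2) ≤ ∑ i, Real.log (|(((k:ℤ) - (un i:ℤ) : ℤ) : ℝ)| + 3) := by
    refine sum_le_sum (fun i _ => ?_)
    apply Real.log_le_log (by have := abs_nonneg ((k:ℝ) + z i); linarith)
    have h1 := (hz i).2.1
    have h2 : |(k : ℝ) + z i| ≤ |(((k:ℤ) - (un i:ℤ) : ℤ) : ℝ)| + |z i + un i| := by
      have e1 : (k : ℝ) + z i = (((k:ℤ) - (un i:ℤ) : ℤ) : ℝ) + (z i + un i) := by push_cast; ring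
      rw [e1]; exact abs_add_le _ _
    linarith
  rw [hF (fun l => Real.log (|(((k:ℤ) - (l:ℤ) : ℤ) : ℝ)| + 3))] at s1
  have s2 : ∑ l ∈ Ioc 0 (7 * n + e), (nu n e l : ℝ) * Real.log (|(((k:ℤ) - (l:ℤ) : ℤ) : ℝ)| + 3)
      ≤ ∑ l ∈ Ioc 0 (7 * n + e), (nu n e l : ℝ) * Real.log (|(((k:ℤ) - (l:ℤ) : ℤ) : ℝ)| + 2)
        + 4 * ∑ l ∈ Ioc 0 (7 * n + e), (Real.log (|(((k:ℤ) - (l:ℤ) : ℤ) : ℝ)| + 3)
          - Real.log (|(((k:ℤ) - (l:ℤ) : ℤ) : ℝ)| + 2)) := by
    rw [mul_sum, ← sum_add_distrib]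
    refine sum_le_sum (fun l _ => ?_)
    have h1 : (nu n e l : ℝ) ≤ 4 := by exact_mod_cast nu_le n e l
    have h2 : Real.log (|(((k:ℤ) - (l:ℤ) : ℤ) : ℝ)| + 2) ≤ Real.log (|(((k:ℤ) - (l:ℤ) : ℤ) : ℝ)| + 3) := by
      apply Real.log_le_log (by have := abs_nonneg (((k:ℤ) - (l:ℤ) : ℤ) : ℝ); linarith)
      linarith
    nlinarith
  have s3 := shift_sum k (7 * n + e)
  have s4 : 3 * Real.log ((k:ℝ) + ((7 * n + e : ℕ) : ℝ) + 3) ≤ er ((k:ℝ) + 30 * n) := by
    unfold er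
    rw [abs_of_nonneg (by positivity)]
    have : Real.log ((k:ℝ) + ((7 * n + e : ℕ) : ℝ) + 3) ≤ Real.log ((k:ℝ) + 30 * n + 3) := by
      apply Real.log_le_log (by positivity)
      push_cast; linarith
    linarith
  have s5 : ∑ m ∈ range A, Real.log ((m : ℝ) + 1 + k) = ∑ m ∈ Ioc 0 A, Real.log ((m:ℝ) + k) := by
    have e1 : Ioc 0 A = Ico (0 + 1) (A + 1) := by ext x; simp only [mem_Ioc, mem_Ico]; omega
    rw [e1, ← Finset.sum_Ico_add' (fun m : ℕ => Real.log ((m:ℝ) + k)) 0 A 1, ← Finset.range_eq_Ico]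
    refine sum_congr rfl (fun m _ => ?_)
    push_cast; rfl
  have s6 : ∑ j ∈ (Icc 3 (A + 2)).filter (· < k), Real.log ((k : ℝ) - j)
      + ∑ j ∈ (Icc 3 (A + 2)).filter (k + 1 < ·), Real.log ((j : ℝ) - k - 1)
      = ∑ j ∈ Ioc 2 (A + 2), lgi ((k:ℤ) - j) := by
    have e1 : Ioc 2 (A + 2) = Icc 3 (A + 2) := by ext x; simp only [mem_Ioc, mem_Icc]; omega
    rw [e1, sum_filter, sum_filter, ← sum_add_distrib]
    refine sum_congr rfl (fun j _ => ?_)
    unfold lgi
    rcases lt_trichotomy j k with h | h | h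
    · rw [if_pos h, if_neg (by omega), if_pos (by omega), add_zero]
      push_cast; rfl
    · subst h
      rw [if_neg (by omega), if_neg (by omega), if_neg (by omega)]
      rw [sub_self]; norm_num
    · rw [if_neg (by omega), if_neg (show ¬ (1 ≤ (k:ℤ) - j) by omega)]
      split_ifs with h2
      · rw [zero_add]; congr 1; push_cast; ring
      · have h3 : j = k + 1 := by omega
        subst h3
        push_cast
        have : -((k:ℝ) - (k + 1)) - 1 = 0 := by ring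
        rw [this, Real.log_zero]; ring
  unfold Gw Gk
  rw [s5, ← s6]
  have := er_pos ((k:ℝ) + 30 * n)
  linarith


/-- the level -/
noncomputable def lamB (A n : ℕ) : ℝ :=
  (10 * n : ℝ) * (-311 / 50) + 10 * n * Real.log (10 * n) + 106 * er (5 * A)

theorem lamB_eq (A n : ℕ) : lamB A n = lamE A n + 6 * er (5 * A) := by
  unfold lamB lamE; ring

theorem Gk_le_far (A n e k : ℕ) (hA : 120 ≤ A) (hn : 1 ≤ n) (he : e ≤ 16) (hn1 : 10 * n + 2 ≤ A)
    (hk : A < k) : Gk A n e k + 6 * er ((k:ℝ) + 30 * n) ≤ lamB A n - k := by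
  have h := Gk_le' A n e k hn he hn1
  have hn1' : (1:ℝ) ≤ n := by exact_mod_cast hn
  have hA' : (10 * n + 2 : ℝ) ≤ A := by exact_mod_cast hn1
  have hA120 : (120:ℝ) ≤ A := by exact_mod_cast hA
  have hk' : (A : ℝ) < k := by exact_mod_cast hk
  have hN : (0:ℝ) < 10 * n := by linarith
  rcases le_or_gt k (2 * A) with hk2 | hk2
  · have hk3 : (k:ℝ) ≤ 2 * A := by exact_mod_cast hk2
    have h2 : (1:ℝ) ≤ (k:ℝ) / (10 * n) := by
      rw [le_div_iff₀ hN]; linarith
    have h3 := gC_far1 _ h2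
    have h4 : (10 * n : ℝ) * gC ((k:ℝ) / (10 * n)) ≤ (10 * n : ℝ) * (-311 / 50) - k := by
      have h5 := mul_le_mul_of_nonneg_left h3 hN.le
      have h6 : (10 * n : ℝ) * (-311 / 50 - (k:ℝ) / (10 * n)) = (10 * n : ℝ) * (-311 / 50) - k := by
        field_simp
      linarith
    have h1 : er ((k:ℝ) + 30 * n) ≤ er (5 * A) := by
      apply er_mono
      rw [abs_of_nonneg (by positivity), abs_of_nonneg (by positivity)]
      linarith
    unfold lamB
    linarith
  · have hk3 : (2 * A : ℝ) < k := by exact_mod_cast hk2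
    have h2 : (11:ℝ) / 10 ≤ (k:ℝ) / (10 * n) := by
      rw [le_div_iff₀ hN]; linarith
    have h3 := gC_far _ h2
    have h4 : (10 * n : ℝ) * gC ((k:ℝ) / (10 * n)) ≤ -6 * k := by
      have h5 := mul_le_mul_of_nonneg_left h3 hN.le
      have h6 : (10 * n : ℝ) * (-6 * ((k:ℝ) / (10 * n))) = -6 * k := by field_simp
      linarith
    have h7 : er ((k:ℝ) + 30 * n) - er (5 * A) ≤ 3 * ((k - 2 * A) / (5 * A)) := by
      unfold er
      rw [abs_of_nonneg (by positivity), abs_of_nonneg (by positivity)]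
      have hx : (0:ℝ) < (k:ℝ) + 30 * n + 3 := by positivity
      have hy : (0:ℝ) < 5 * (A:ℝ) + 3 := by positivity
      have h8 := Real.log_le_sub_one_of_pos (div_pos hx hy)
      rw [Real.log_div hx.ne' hy.ne'] at h8
      have h9 : ((k:ℝ) + 30 * n + 3) / (5 * A + 3) - 1 ≤ (k - 2 * A) / (5 * A) := by
        have e1 : ((k:ℝ) + 30 * n + 3) / (5 * A + 3) - 1 = ((k:ℝ) + 30 * n - 5 * A) / (5 * A + 3) := by
          field_simp; ring
        rw [e1, div_le_div_iff₀ hy (by linarith)]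
        nlinarith
      linarith
    have h10 : (k - 2 * A : ℝ) / (5 * A) ≤ (k - 2 * A) / 600 := by
      apply div_le_div_of_nonneg_left (by linarith) (by norm_num) (by linarith)
    unfold lamB
    linarith

theorem Gk_le_near (A n e k : ℕ) (hn : 1 ≤ n) (he : e ≤ 16) (hn1 : 10 * n + 2 ≤ A)
    (hk : k ≤ 2 * A) : Gk A n e k + 6 * er ((k:ℝ) + 30 * n) - lamB A n
      ≤ (10 * n : ℝ) * (gC ((k:ℝ) / (10 * n)) + 311 / 50) := by
  have h := Gk_near A n e k hn he hn1 hk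
  have hn1' : (1:ℝ) ≤ n := by exact_mod_cast hn
  have hA' : (10 * n + 2 : ℝ) ≤ A := by exact_mod_cast hn1
  have hk3 : (k:ℝ) ≤ 2 * A := by exact_mod_cast hk
  have h1 : er ((k:ℝ) + 30 * n) ≤ er (5 * A) := by
    apply er_mono
    rw [abs_of_nonneg (by positivity), abs_of_nonneg (by positivity)]
    linarith
  rw [lamB_eq]
  linarith

theorem lV_VN {c : ℕ} (z : Fin c → ℝ) (hz : Function.Injective z) :
    lV z = Real.log (VN (fun i => (z i : ℂ))) := by
  have hne : ∀ i, ∀ j ∈ Ioi i, ‖(z j : ℂ) - (z i : ℂ)‖ ≠ 0 := by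
    intro i j hj
    rw [norm_ne_zero_iff, sub_ne_zero]
    intro h
    exact (mem_Ioi.mp hj).ne' (hz (Complex.ofReal_injective h))
  unfold lV VN
  rw [Real.log_prod]
  · refine sum_congr rfl (fun i _ => ?_)
    rw [Real.log_prod (fun j hj => hne i j hj)]
    refine sum_congr rfl (fun j _ => ?_)
    rw [← Complex.ofReal_sub, Complex.norm_real, Real.norm_eq_abs]
  · intro i _
    rw [prod_ne_zero_iff]
    exact fun j hj => hne i j hj

theorem lVF_le (A : ℕ) (hA : 1 ≤ A) : lVF A ≤ (A : ℝ) ^ 2 * (2 * Real.log A + 2 * Real.log 2 - 3) +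
    250 * (A * Real.log ((A : ℝ) + 1)) := by
  have h := pairs_le A hA
  unfold lVF
  rw [sum_rl]
  change 2 * SF A + (SF (2 * A + 3) - 2 * SF (A + 3) + SF 3) ≤ _
  linarith

theorem CE_pos : 0 < CE := by
  unfold CE
  have := abs_nonneg (4 * (11461 / 80000) - IC)
  linarith

/-- the estimate for `A ≥ 120` -/
theorem en_large (A rho : ℕ) (hA : 120 ≤ A) (h1 : 2 * rho ≤ A) (h2 : A ≤ 2 * rho + 2) :
    ∃ (z : Fin (A + rho) → ℝ) (lam : ℝ), Function.Injective z ∧
      (∀ k, A < k → Gw A z k ≤ lam - k) ∧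
      enTot A rho z lam ≤ - EB * (A : ℝ) ^ 2 + (CE + 500) * A * Real.log (A + 1) := by
  obtain ⟨n, e, hn, he, hn1, hn2, hc⟩ : ∃ n e : ℕ, 1 ≤ n ∧ e ≤ 16 ∧ 10 * n + 2 ≤ A ∧ A ≤ 10 * n + 11 ∧
      A + rho = 15 * n + e := by
    refine ⟨(A - 2) / 10, A + rho - 15 * ((A - 2) / 10), ?_, ?_, ?_, ?_, ?_⟩ <;> omega
  obtain ⟨z, un, hz1, hz2, hz3⟩ := exists_z n e (A + rho) hc
  have hinj : Function.Injective z := by
    intro i j hij
    by_contra hne
    have h3 := hz2 i j hne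
    rw [hij, sub_self, abs_zero] at h3
    norm_num at h3
  have hn1' : (1:ℝ) ≤ n := by exact_mod_cast hn
  have hN : (0:ℝ) < 10 * n := by linarith
  refine ⟨z, lamB A n, hinj, ?_, ?_⟩
  · intro k hk
    exact (Gw_le A n e k (A + rho) z un hn he hz1 hz3).trans (Gk_le_far A n e k hA hn he hn1 hk)
  · have s1 : ∑ k ∈ Icc 1 A, max (Gw A z k - lamB A n) 0 ≤ (10 * n : ℝ) ^ 2 * (11461 / 80000) := by
      have e1 : Icc 1 A = Ico (0 + 1) (A + 1) := by ext x; simp only [mem_Icc, mem_Ico]; omega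
      rw [e1, ← Finset.sum_Ico_add' (fun k : ℕ => max (Gw A z k - lamB A n) 0) 0 A 1, ← Finset.range_eq_Ico]
      have h3 : ∀ k ∈ range A, max (Gw A z (k + 1) - lamB A n) 0
          ≤ (10 * n : ℝ) * max (gC (((k:ℝ) + 1) / (10 * n)) + 311 / 50) 0 := by
        intro k hk
        rw [mem_range] at hk
        have h4 := Gk_le_near A n e (k + 1) hn he hn1 (by omega)
        have h5 := Gw_le A n e (k + 1) (A + rho) z un hn he hz1 hz3
        push_cast at h4 h5
        apply max_le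
        · refine le_trans ?_ (mul_le_mul_of_nonneg_left (le_max_left _ _) hN.le)
          linarith
        · exact mul_nonneg hN.le (le_max_right _ _)
      refine (sum_le_sum h3).trans ?_
      rw [← mul_sum]
      have h4 := gC_sum (10 * n : ℝ) hN A
      calc (10 * n : ℝ) * ∑ k ∈ range A, max (gC (((k:ℝ) + 1) / (10 * n)) + 311 / 50) 0
          ≤ (10 * n : ℝ) * ((10 * n : ℝ) * (11461 / 80000)) := mul_le_mul_of_nonneg_left h4 hN.le
        _ = _ := by ring
    have s2 := VN_lower n e (A + rho) z un hz1 hz2 hz3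
    have s3 := W_lower' n e hn he
    have s4 := energy_num A n rho (by omega) h1 h2 hn hn1 hn2
    have s5 := lV_VN z hinj
    have s6 := lVF_le A (by omega)
    have s7 := D_le A rho (by omega) h1 h2
    have s8 := Pool.QS2E.cert_fin2
    obtain ⟨s9, s10⟩ := er_le_log A (by omega)
    have s11 : ∑ d ∈ Ico (A - rho) (A + rho), Real.log (d.factorial : ℝ)
        = ∑ d ∈ range (2 * rho), S (A - rho + d) := by
      rw [Finset.sum_Ico_eq_sum_range]
      have e1 : A + rho - (A - rho) = 2 * rho := by omega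
      rw [e1]
      rfl
    have hA' : (120:ℝ) ≤ A := by exact_mod_cast hA
    have g1 : (2 * rho : ℝ) ≤ A := by exact_mod_cast h1
    have s12 : ((A:ℝ) + rho) * (6 * er (5 * A)) ≤ 72 * (A * Real.log ((A:ℝ) + 1)) := by
      have c1 : ((A:ℝ) + rho) * (6 * er (5 * A)) ≤ (3 / 2 * A) * (6 * (8 * Real.log ((A:ℝ) + 1))) :=
        mul_le_mul (by linarith) (by linarith) (by have := er_pos (5 * (A:ℝ)); linarith) (by linarith)
      linarith
    have hc' : ((A + rho : ℕ) : ℝ) = (A:ℝ) + rho := by push_cast; ring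
    rw [hc'] at s2 s4
    have s13 : (A:ℝ) ^ 2 * ((2 * Real.log 2 - 3) - hC (3 / 2) - hC (1 / 2) + 3 / 2 * (-311 / 50) +
        4 * (11461 / 80000) - IC) ≤ (A:ℝ) ^ 2 * (-4273 / 1000) :=
      mul_le_mul_of_nonneg_left s8 (by positivity)
    have s14 : 0 ≤ (A:ℝ) * Real.log ((A:ℝ) + 1) := mul_nonneg (by linarith) (by linarith)
    unfold enTot EB
    rw [s11, s5, lamB_eq]
    unfold kap at s4
    have s15 : ∑ i ∈ range (A + rho), Real.log (i.factorial : ℝ) = ∑ i ∈ range (A + rho), S i := rfl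
    rw [s15]
    rw [lamB_eq] at s1
    have hA2 : 0 ≤ (A:ℝ) ^ 2 := by positivity
    linarith

/-- an arbitrary choice for small `A` -/
theorem en_small (A rho : ℕ) (hA : 2 ≤ A) : ∃ (z : Fin (A + rho) → ℝ) (lam : ℝ),
    Function.Injective z ∧ (∀ k, A < k → Gw A z k ≤ lam - k) := by
  set c : ℕ := A + rho with hc
  have hc0 : (0:ℝ) < c := by
    have : 0 < c := by omega
    exact_mod_cast this
  refine ⟨fun i => (i : ℕ), (c:ℝ) + 2 + 2 * c * Real.log (2 * c), ?_, ?_⟩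
  · intro i j hij
    apply Fin.ext
    have h3 : ((i : ℕ) : ℝ) = ((j : ℕ) : ℝ) := hij
    exact_mod_cast h3
  · intro k hk
    have hk0 : (0:ℝ) ≤ k := by positivity
    have t1 : ∑ i : Fin c, Real.log (|(k : ℝ) + ((i : ℕ) : ℝ)| + 2) ≤ c * Real.log ((k:ℝ) + c + 2) := by
      have : ∀ i ∈ (univ : Finset (Fin c)), Real.log (|(k : ℝ) + ((i : ℕ) : ℝ)| + 2) ≤ Real.log ((k:ℝ) + c + 2) := by
        intro i _
        have hi : ((i : ℕ) : ℝ) ≤ c := by exact_mod_cast i.2.le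
        have hi0 : (0:ℝ) ≤ ((i : ℕ) : ℝ) := by positivity
        rw [abs_of_nonneg (by linarith)]
        apply Real.log_le_log (by linarith) (by linarith)
      refine (sum_le_sum this).trans ?_
      rw [sum_const, card_univ, Fintype.card_fin, nsmul_eq_mul]
    have t2 : 2 * (c * Real.log ((k:ℝ) + c + 2)) ≤ k + c + 2 + 2 * c * Real.log (2 * c) := by
      have hy : (0:ℝ) < (k:ℝ) + c + 2 := by positivity
      have h1 := Real.log_le_sub_one_of_pos (div_pos hy (by linarith : (0:ℝ) < 2 * c))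
      rw [Real.log_div hy.ne' (by positivity)] at h1
      have h2 : (2 * c) * (Real.log ((k:ℝ) + c + 2) - Real.log (2 * c)) ≤ (2 * c) * (((k:ℝ) + c + 2) / (2 * c) - 1) :=
        mul_le_mul_of_nonneg_left h1 (by positivity)
      have h3 : (2 * (c:ℝ)) * (((k:ℝ) + c + 2) / (2 * c) - 1) = (k:ℝ) + c + 2 - 2 * c := by field_simp
      linarith
    have t3 : 0 ≤ ∑ m ∈ range A, Real.log ((m : ℝ) + 1 + k) := by
      refine sum_nonneg (fun m _ => Real.log_nonneg ?_)
      have : (0:ℝ) ≤ m := by positivity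
      linarith
    have t4 : 0 ≤ ∑ j ∈ (Icc 3 (A + 2)).filter (· < k), Real.log ((k : ℝ) - j) := by
      refine sum_nonneg (fun j hj => Real.log_nonneg ?_)
      rw [mem_filter] at hj
      have : (j:ℝ) + 1 ≤ k := by exact_mod_cast hj.2
      linarith
    have t5 : 0 ≤ ∑ j ∈ (Icc 3 (A + 2)).filter (k + 1 < ·), Real.log ((j : ℝ) - k - 1) := by
      refine sum_nonneg (fun j hj => Real.log_nonneg ?_)
      rw [mem_filter] at hj
      have : (k:ℝ) + 1 + 1 ≤ j := by exact_mod_cast hj.2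
      linarith
    unfold Gw
    linarith

theorem en_disc : ∃ C : ℝ, ∀ A rho : ℕ, 2 ≤ A → 2 * rho ≤ A → A ≤ 2 * rho + 2 →
    ∃ (z : Fin (A + rho) → ℝ) (lam : ℝ), Function.Injective z ∧
      (∀ k, A < k → Gw A z k ≤ lam - k) ∧
      enTot A rho z lam ≤ - EB * (A : ℝ) ^ 2 + C * A * Real.log (A + 1) := by
  choose zf lamf hz using fun (A rho : ℕ) (hA : 2 ≤ A) => en_small A rho hA
  set ev : ℕ → ℕ → ℝ := fun A rho => if hA : 2 ≤ A then
    |enTot A rho (zf A rho hA) (lamf A rho hA) + EB * (A:ℝ) ^ 2| else 0 with hev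
  have ev0 : ∀ A rho, 0 ≤ ev A rho := by
    intro A rho
    rw [hev]
    simp only
    split_ifs
    · exact abs_nonneg _
    · exact le_refl 0
  set C0 : ℝ := ∑ A ∈ range 120, ∑ rho ∈ range 120, ev A rho with hC0
  have hC0' : 0 ≤ C0 := sum_nonneg (fun A _ => sum_nonneg (fun rho _ => ev0 A rho))
  refine ⟨C0 + (CE + 500), ?_⟩
  intro A rho hA h1 h2
  have hA' : (2:ℝ) ≤ A := by exact_mod_cast hA
  have hlog : 1 ≤ Real.log ((A:ℝ) + 1) := by
    rw [Real.le_log_iff_exp_le (by linarith)]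
    have := Real.exp_one_lt_d9
    linarith
  have hAL : 1 ≤ (A:ℝ) * Real.log ((A:ℝ) + 1) := by nlinarith
  have hCE := CE_pos
  rcases lt_or_ge A 120 with h | h
  · refine ⟨zf A rho hA, lamf A rho hA, (hz A rho hA).1, (hz A rho hA).2, ?_⟩
    have h3 : ev A rho ≤ C0 := by
      have h4 : ev A rho ≤ ∑ rho ∈ range 120, ev A rho :=
        single_le_sum (f := fun rho => ev A rho) (fun r _ => ev0 A r) (mem_range.2 (by omega))
      have h5 : ∑ rho ∈ range 120, ev A rho ≤ C0 :=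
        single_le_sum (f := fun A => ∑ rho ∈ range 120, ev A rho)
          (fun a _ => sum_nonneg (fun r _ => ev0 a r)) (mem_range.2 h)
      exact h4.trans h5
    have h6 : ev A rho = |enTot A rho (zf A rho hA) (lamf A rho hA) + EB * (A:ℝ) ^ 2| := by
      rw [hev]
      simp only
      rw [dif_pos hA]
    rw [h6] at h3
    have h7 := le_abs_self (enTot A rho (zf A rho hA) (lamf A rho hA) + EB * (A:ℝ) ^ 2)
    have h8 : C0 ≤ C0 * ((A:ℝ) * Real.log ((A:ℝ) + 1)) := le_mul_of_one_le_right hC0' hAL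
    have h9 : 0 ≤ (CE + 500) * ((A:ℝ) * Real.log ((A:ℝ) + 1)) := by positivity
    linarith
  · obtain ⟨z, lam, a1, a2, a3⟩ := en_large A rho h h1 h2
    refine ⟨z, lam, a1, a2, a3.trans ?_⟩
    have h9 : 0 ≤ C0 * ((A:ℝ) * Real.log ((A:ℝ) + 1)) := mul_nonneg hC0' (by linarith)
    linarith

end QS2
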