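import Pool.Agent.QS2.B.Right

/-! # QS2 (b): the `3M` simple zeros of `Y_M`, one in each small disc -/

set_option autoImplicit false

namespace QS2

open Finset Polynomial

/-- imaginary parts of the three centres -/
noncomputable def sgB : Fin 3 → ℝ := ![0, beta, -beta]

lemma cen_eqB (j : Fin 3) : cen j = -1 / 2 + (sgB j : ℂ) * Complex.I := by
  fin_cases j <;> simp [cen, sgB]
  ring

lemma cen_reB (j : Fin 3) : (cen j).re = -1 / 2 := by
  rw [cen_eqB]
  simp

lemma cen_imB (j : Fin 3) : (cen j).im = sgB j := by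
  rw [cen_eqB]
  simp

lemma beta_sq : beta ^ 2 = 3 / 68 := by
  rw [beta, Real.sq_sqrt (by norm_num)]

lemma beta_gt : 21 / 100 < beta := by
  rw [beta, Real.lt_sqrt (by norm_num)]
  norm_num

lemma beta_lt : beta < 211 / 1000 := by
  rw [beta, Real.sqrt_lt' (by norm_num)]
  norm_num

lemma sgB_sq_le (j : Fin 3) : sgB j ^ 2 ≤ 3 / 68 := by
  have := beta_sq
  fin_cases j <;> (simp [sgB, this]; try norm_num)

lemma re_of_discB {j : Fin 3} {w : ℂ} (h : ‖w - cen j‖ ≤ 1 / 10) :
    -(6 / 10) ≤ w.re ∧ w.re ≤ -(4 / 10) := by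
  have h1 := (Complex.abs_re_le_norm (w - cen j)).trans h
  rw [Complex.sub_re, cen_reB, abs_le] at h1
  constructor <;> linarith [h1.1, h1.2]

lemma norm_shiftB {j : Fin 3} {w : ℂ} (h : ‖w - cen j‖ ≤ 1 / 10) :
    ‖w + 1‖ ≤ 643 / 1000 ∧ ‖w‖ ≤ 643 / 1000 := by
  have hs2 := sgB_sq_le j
  have e1 : ‖cen j + 1‖ ≤ 543 / 1000 := by
    rw [Complex.norm_def, Real.sqrt_le_left (by norm_num), Complex.normSq_apply]
    simp only [Complex.add_re, Complex.add_im, cen_reB, cen_imB, Complex.one_re, Complex.one_im]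
    nlinarith
  have e2 : ‖cen j‖ ≤ 543 / 1000 := by
    rw [Complex.norm_def, Real.sqrt_le_left (by norm_num), Complex.normSq_apply]
    simp only [cen_reB, cen_imB]
    nlinarith
  constructor
  · have := norm_add_le (cen j + 1) (w - cen j)
    rw [show cen j + 1 + (w - cen j) = w + 1 by ring] at this
    linarith
  · have := norm_add_le (cen j) (w - cen j)
    rw [show cen j + (w - cen j) = w by ring] at this
    linarith

/-- in the three small discs both ratio terms are tiny -/
theorem small_terms (m : ℕ) (j : Fin 3) (w : ℂ) (hw : ‖w - cen j‖ ≤ 1 / 10) :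
    ‖(w + 1) ^ 3 * rr m w‖ ≤ 1 / 100 ∧ ‖w ^ 3 * rr m (-1 - w)‖ ≤ 1 / 100 := by
  obtain ⟨h1, h2⟩ := re_of_discB hw
  obtain ⟨h3, h4⟩ := norm_shiftB hw
  have k1 := (right_bound m w (by linarith)).2
  have k2 := (right_bound m (-1 - w) (by
    rw [Complex.sub_re, Complex.neg_re, Complex.one_re]
    linarith)).2
  have k3 : ‖w + 1‖ ^ 3 ≤ (643 / 1000) ^ 3 := by gcongr
  have k4 : ‖w‖ ^ 3 ≤ (643 / 1000) ^ 3 := by gcongr
  constructor
  · rw [norm_mul, norm_pow]
    calc ‖w + 1‖ ^ 3 * ‖rr m w‖ ≤ (643 / 1000) ^ 3 * (1 / 31) := by gcongr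
      _ ≤ 1 / 100 := by norm_num
  · rw [norm_mul, norm_pow]
    calc ‖w‖ ^ 3 * ‖rr m (-1 - w)‖ ≤ (643 / 1000) ^ 3 * (1 / 31) := by gcongr
      _ ≤ 1 / 100 := by norm_num

/-- `ap` in the variable `x = w + 1/2` -/
lemma ap_x (w : ℂ) : ap w = 34 * (w + 1 / 2) * ((w + 1 / 2) ^ 2 + 3 / 68) := by
  unfold ap
  ring

lemma ap_factB (w : ℂ) : ap w = 34 * (w + 1 / 2) *
    ((w + 1 / 2) - (beta : ℂ) * Complex.I) * ((w + 1 / 2) + (beta : ℂ) * Complex.I) := by
  have hb : ((beta : ℂ)) ^ 2 = 3 / 68 := by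
    rw [← Complex.ofReal_pow, beta_sq]
    push_cast
    ring
  rw [ap_x]
  have hI := Complex.I_sq
  linear_combination (34 * (w + 1 / 2) * (-1)) * hb + (34 * (w + 1 / 2) * (beta : ℂ) ^ 2) * hI

lemma norm_bI : ‖(beta : ℂ) * Complex.I‖ = beta := by
  rw [norm_mul, Complex.norm_I, mul_one, Complex.norm_real, Real.norm_of_nonneg]
  linarith [beta_gt]

/-- the cubic on the three circles and the distance between the discs -/
theorem ap_lower (j : Fin 3) (w : ℂ) (hw : ‖w - cen j‖ = 1 / 10) : 11 / 100 ≤ ‖ap w‖ := by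
  have hb1 := beta_gt
  have hb2 := norm_bI
  fin_cases j
  · have hx : ‖w + 1 / 2‖ = 1 / 10 := by
      simp only [cen] at hw
      rw [← hw]
      congr 1
      simp
      ring
    rw [ap_x, norm_mul, norm_mul, hx]
    have h1 : (3 / 68 : ℝ) - 1 / 100 ≤ ‖(w + 1 / 2) ^ 2 + 3 / 68‖ := by
      have := norm_sub_norm_le (3 / 68 : ℂ) (-((w + 1 / 2) ^ 2))
      rw [sub_neg_eq_add, norm_neg, norm_pow, hx, add_comm] at this
      have e : ‖(3 / 68 : ℂ)‖ = 3 / 68 := by norm_num
      rw [e] at this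
      linarith
    have e : ‖(34 : ℂ)‖ = 34 := by norm_num
    rw [e]
    nlinarith
  · have hx : ‖(w + 1 / 2) - (beta : ℂ) * Complex.I‖ = 1 / 10 := by
      simp only [cen] at hw
      rw [← hw]
      congr 1
      simp
      ring
    rw [ap_factB, norm_mul, norm_mul, norm_mul, hx]
    set x := w + 1 / 2
    have h1 : beta - 1 / 10 ≤ ‖x‖ := by
      have := norm_sub_norm_le ((beta : ℂ) * Complex.I) ((beta : ℂ) * Complex.I - x)
      rw [sub_sub_cancel, norm_sub_rev ((beta : ℂ) * Complex.I) x, hx, hb2] at this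
      exact this
    have h2 : 2 * beta - 1 / 10 ≤ ‖x + (beta : ℂ) * Complex.I‖ := by
      have := norm_sub_norm_le (2 * ((beta : ℂ) * Complex.I)) ((beta : ℂ) * Complex.I - x)
      rw [show 2 * ((beta : ℂ) * Complex.I) - ((beta : ℂ) * Complex.I - x) =
        x + (beta : ℂ) * Complex.I by ring, norm_mul, norm_sub_rev ((beta : ℂ) * Complex.I) x, hx,
        hb2] at this
      norm_num at this ⊢
      linarith
    have e : ‖(34 : ℂ)‖ = 34 := by norm_num
    rw [e]
    have h3 : (11 / 100 : ℝ) ≤ ‖x‖ := by linarith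
    have h4 : (32 / 100 : ℝ) ≤ ‖x + (beta : ℂ) * Complex.I‖ := by linarith
    have h5 : (11 / 100 : ℝ) * (32 / 100) ≤ ‖x‖ * ‖x + (beta : ℂ) * Complex.I‖ := by gcongr
    nlinarith
  · have hx : ‖(w + 1 / 2) + (beta : ℂ) * Complex.I‖ = 1 / 10 := by
      simp only [cen] at hw
      rw [← hw]
      congr 1
      simp
      ring
    rw [ap_factB, norm_mul, norm_mul, norm_mul, hx]
    set x := w + 1 / 2
    have h1 : beta - 1 / 10 ≤ ‖x‖ := by
      have := norm_sub_norm_le ((beta : ℂ) * Complex.I) (x + (beta : ℂ) * Complex.I)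
      rw [show (beta : ℂ) * Complex.I - (x + (beta : ℂ) * Complex.I) = -x by ring, norm_neg, hx,
        hb2] at this
      exact this
    have h2 : 2 * beta - 1 / 10 ≤ ‖x - (beta : ℂ) * Complex.I‖ := by
      have := norm_sub_norm_le (2 * ((beta : ℂ) * Complex.I)) (x + (beta : ℂ) * Complex.I)
      rw [show 2 * ((beta : ℂ) * Complex.I) - (x + (beta : ℂ) * Complex.I) =
        -(x - (beta : ℂ) * Complex.I) by ring, norm_neg, norm_mul, hx, hb2] at this
      norm_num at this ⊢
      linarith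
    have e : ‖(34 : ℂ)‖ = 34 := by norm_num
    rw [e]
    have h3 : (11 / 100 : ℝ) ≤ ‖x‖ := by linarith
    have h4 : (32 / 100 : ℝ) ≤ ‖x - (beta : ℂ) * Complex.I‖ := by linarith
    have h5 : (11 / 100 : ℝ) * (32 / 100) ≤ ‖x‖ * ‖x - (beta : ℂ) * Complex.I‖ := by gcongr
    nlinarith

/-- hence `|F| ≥ 9/100` on the circles, `|F(centre)| ≤ 2/100` -/
theorem FF_circle (a b : ℕ) (j : Fin 3) (w : ℂ) (hw : ‖w - cen j‖ = 1 / 10) :
    9 / 100 ≤ ‖FF a b w‖ := by
  have h1 := ap_lower j w hw
  have h2 := (small_terms b j w hw.le).1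
  have h3 := (small_terms a j w hw.le).2
  have h4 := norm_sub_norm_le (ap w) ((w + 1) ^ 3 * rr b w + w ^ 3 * rr a (-1 - w))
  have h5 := norm_add_le ((w + 1) ^ 3 * rr b w) (w ^ 3 * rr a (-1 - w))
  rw [← sub_sub] at h4
  unfold FF
  linarith

theorem FF_centre (a b : ℕ) (j : Fin 3) : ‖FF a b (cen j)‖ ≤ 2 / 100 := by
  have h0 : ap (cen j) = 0 := by
    rw [ap_factB]
    fin_cases j
    · have : (cen ⟨0, by norm_num⟩ + 1 / 2 : ℂ) = 0 := by
        simp only [cen]
        norm_num
      rw [this]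
      ring
    · have : (cen ⟨1, by norm_num⟩ + 1 / 2 : ℂ) - (beta : ℂ) * Complex.I = 0 := by
        simp [cen]
        ring
      rw [this]
      ring
    · have : (cen ⟨2, by norm_num⟩ + 1 / 2 : ℂ) + (beta : ℂ) * Complex.I = 0 := by
        simp [cen]
        ring
      rw [this]
      ring
  have h2 := (small_terms b j (cen j) (by simp)).1
  have h3 := (small_terms a j (cen j) (by simp)).2
  unfold FF
  rw [h0, zero_sub]
  have h5 := norm_sub_le (-((cen j + 1) ^ 3 * rr b (cen j))) (cen j ^ 3 * rr a (-1 - cen j))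
  rw [norm_neg] at h5
  linarith

lemma cen_im_sepB {i j : Fin 3} (h : i ≠ j) : beta ≤ |(cen i).im - (cen j).im| := by
  have hb := beta_gt
  have hb0 : 0 < beta := by linarith
  rw [cen_imB, cen_imB]
  fin_cases i <;> fin_cases j <;> simp [sgB] at h ⊢
  · exact le_abs_self _
  · exact le_abs_self _
  · exact le_abs_self _
  · rw [abs_of_pos (by linarith)]
    linarith
  · exact le_abs_self _
  · rw [abs_of_neg (by linarith)]
    linarith

/-- the discs (closed, radius 1/10) of all units are disjoint -/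
theorem disc_disjoint (k k' : ℕ) (j j' : Fin 3) (z : ℂ) (h : ‖z + (k + 1) - cen j‖ ≤ 1 / 10)
    (h' : ‖z + (k' + 1) - cen j'‖ ≤ 1 / 10) : k = k' ∧ j = j' := by
  have key : ‖(k : ℂ) - (k' : ℂ) - (cen j - cen j')‖ ≤ 1 / 5 := by
    have := norm_sub_le (z + (k + 1) - cen j) (z + (k' + 1) - cen j')
    rw [show z + ((k : ℂ) + 1) - cen j - (z + ((k' : ℂ) + 1) - cen j') =
      (k : ℂ) - (k' : ℂ) - (cen j - cen j') by ring] at this
    linarith
  have hre := (Complex.abs_re_le_norm _).trans key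
  have him := (Complex.abs_im_le_norm _).trans key
  simp only [Complex.sub_re, Complex.natCast_re, cen_reB, sub_self, sub_zero, Complex.sub_im,
    Complex.natCast_im, zero_sub, abs_neg] at hre him
  constructor
  · have : |((k : ℤ) - (k' : ℤ))| < 1 := by
      have : |((k : ℝ) - (k' : ℝ))| < 1 := by linarith
      exact_mod_cast this
    rw [Int.abs_lt_one_iff] at this
    omega
  · by_contra hne
    have := cen_im_sepB hne
    linarith [beta_gt]

/-- a zero of `Y_M` in every small disc of the units `1, …, M` -/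
theorem exists_zero (M k : ℕ) (hk : k < M) (j : Fin 3) :
    ∃ z : ℂ, ‖z + (k + 1) - cen j‖ < 1 / 10 ∧ (Y M).eval z = 0 := by
  obtain ⟨b, rfl⟩ : ∃ b, M = k + b + 1 := ⟨M - 1 - k, by omega⟩
  suffices h : ∃ w : ℂ, ‖w - cen j‖ < 1 / 10 ∧ (Y (k + b + 1)).eval (w - (k + 1)) = 0 by
    obtain ⟨w, h1, h2⟩ := h
    exact ⟨w - (k + 1), by simpa using h1, h2⟩
  by_contra hcon
  push Not at hcon
  have hY1 : ∀ w : ℂ, ‖w - cen j‖ ≤ 1 / 10 → (Y k).eval (-1 - w) ≠ 0 := by
    intro w hw
    obtain ⟨r1, r2⟩ := re_of_discB hw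
    exact (right_bound k (-1 - w) (by
      rw [Complex.sub_re, Complex.neg_re, Complex.one_re]
      linarith)).1
  have hY2 : ∀ w : ℂ, ‖w - cen j‖ ≤ 1 / 10 → (Y b).eval w ≠ 0 := by
    intro w hw
    obtain ⟨r1, r2⟩ := re_of_discB hw
    exact (right_bound b w (by linarith)).1
  have hreg : ∀ w : ℂ, ‖w - cen j‖ ≤ 1 / 10 → (Y (k + b + 1)).eval (w - (k + 1)) ≠ 0 := by
    intro w hw
    rcases lt_or_eq_of_le hw with h | h
    · exact hcon w h
    · rw [Y_split' k b w (hY1 w hw) (hY2 w hw)]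
      have n3 := FF_circle k b j w h
      refine mul_ne_zero (mul_ne_zero (mul_ne_zero (by simp) (hY1 w hw)) (hY2 w hw)) ?_
      rw [← norm_pos_iff]
      linarith
  set g : ℂ → ℂ := fun w => ((-1) ^ k * (Y k).eval (-1 - w) * (Y b).eval w) /
    (Y (k + b + 1)).eval (w - (k + 1)) with hg
  have hgF : ∀ w : ℂ, ‖w - cen j‖ ≤ 1 / 10 → ‖g w‖ * ‖FF k b w‖ = 1 := by
    intro w hw
    have e := Y_split' k b w (hY1 w hw) (hY2 w hw)
    have n := hreg w hw
    rw [← norm_mul, hg]
    simp only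
    rw [div_mul_eq_mul_div, ← e, div_self n, norm_one]
  have hd : DiffContOnCl ℂ g (Metric.ball (cen j) (1 / 10)) := by
    apply DifferentiableOn.diffContOnCl
    rw [closure_ball _ (by norm_num)]
    intro w hw
    rw [mem_closedBall_iff_norm] at hw
    apply DifferentiableAt.differentiableWithinAt
    have d1 : DifferentiableAt ℂ (fun w : ℂ => (Y k).eval (-1 - w)) w :=
      ((Y k).differentiable.comp (differentiable_const (-1 : ℂ) |>.sub differentiable_id)) w
    have d2 : DifferentiableAt ℂ (fun w : ℂ => (Y b).eval w) w := (Y b).differentiable w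
    have d3 : DifferentiableAt ℂ (fun w : ℂ => (Y (k + b + 1)).eval (w - (k + 1))) w :=
      ((Y (k + b + 1)).differentiable.comp
        (differentiable_id.sub (differentiable_const ((k : ℂ) + 1)))) w
    exact (((differentiableAt_const _).mul d1).mul d2).div d3 (hreg w hw)
  have hmax := Complex.norm_le_of_forall_mem_frontier_norm_le Metric.isBounded_ball hd
    (C := 100 / 9) (by
      intro z hz
      rw [frontier_ball _ (by norm_num), mem_sphere_iff_norm] at hz
      have h1 := hgF z hz.le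
      have h2 := FF_circle k b j z hz
      have h3 := norm_nonneg (g z)
      nlinarith) (z := cen j) (by
      apply subset_closure
      exact Metric.mem_ball_self (by norm_num))
  have h1 := hgF (cen j) (by simp)
  have h2 := FF_centre k b j
  have h3 := norm_nonneg (g (cen j))
  nlinarith

/-- **all zeros** -/
theorem exists_roots (M : ℕ) : ∃ xi : Fin M × Fin 3 → ℂ, Function.Injective xi ∧
    (∀ p, ‖xi p + ((p.1 : ℕ) : ℂ) + 1 - cen p.2‖ < 1 / 10) ∧
    Y M = C (ylead M : ℂ) * ∏ p, (X - C (xi p)) := by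
  classical
  choose xi h1 h2 using fun p : Fin M × Fin 3 => exists_zero M p.1 p.1.2 p.2
  have hinj : Function.Injective xi := by
    intro p q h
    have hp := (h1 p).le
    have hq := (h1 q).le
    rw [h] at hp
    obtain ⟨e1, e2⟩ := disc_disjoint p.1 q.1 p.2 q.2 (xi q) hp hq
    exact Prod.ext (Fin.ext e1) e2
  have hY : Y M ≠ 0 := by
    intro h0
    have := leadingCoeff_Y M
    rw [h0, leadingCoeff_zero] at this
    have h3 := ylead_pos M
    have h4 : ylead M = 0 := by exact_mod_cast this.symm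
    linarith
  have hroots : (Y M).roots = (univ.image xi).val := by
    have hsub : (univ.image xi).val ≤ (Y M).roots := by
      rw [Multiset.le_iff_subset (univ.image xi).nodup]
      intro z hz
      rw [Finset.mem_val, Finset.mem_image] at hz
      obtain ⟨p, _, rfl⟩ := hz
      rw [mem_roots hY, IsRoot]
      exact h2 p
    symm
    apply Multiset.eq_of_le_of_card_le hsub
    rw [Finset.card_val, Finset.card_image_of_injective _ hinj, Finset.card_univ,
      Fintype.card_prod, Fintype.card_fin, Fintype.card_fin]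
    have h3 := card_roots' (Y M)
    rw [natDegree_Y M] at h3
    omega
  refine ⟨xi, hinj, ?_, ?_⟩
  · intro p
    have := h1 p
    rwa [← add_assoc] at this
  · have h := (IsAlgClosed.splits (Y M)).eq_prod_roots
    rw [hroots, leadingCoeff_Y] at h
    have h4 : ((univ.image xi).val.map fun a => X - C a).prod =
        ∏ p : Fin M × Fin 3, (X - C (xi p)) := by
      rw [← Finset.prod_image (f := fun z => X - C z) (g := xi) (s := univ)
        (fun a _ b _ hab => hinj hab)]
      rfl
    rw [h4] at h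
    exact h

/-- integers are not zeros -/
theorem Y_int_ne (M : ℕ) (n : ℤ) : (Y M).eval (n : ℂ) ≠ 0 := by
  obtain ⟨xi, _, h2, h3⟩ := exists_roots M
  intro h0
  rw [h3, eval_mul, eval_C, eval_prod, mul_eq_zero, Finset.prod_eq_zero_iff] at h0
  rcases h0 with h0 | ⟨p, _, hp⟩
  · have h3 := ylead_pos M
    have h4 : ylead M = 0 := by exact_mod_cast h0
    linarith
  · rw [eval_sub, eval_X, eval_C, sub_eq_zero] at hp
    have h5 := (Complex.abs_re_le_norm _).trans_lt (h2 p)
    rw [← hp, Complex.sub_re, cen_reB, Complex.add_re, Complex.add_re, Complex.intCast_re,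
      Complex.natCast_re, Complex.one_re] at h5
    have h6 : |(2 * (n + (p.1 : ℕ) + 1) + 1 : ℤ)| < 1 := by
      have : |(2 * ((n : ℝ) + ((p.1 : ℕ) : ℝ) + 1) + 1)| < 1 := by
        rw [abs_lt] at h5 ⊢
        constructor <;> linarith [h5.1, h5.2]
      exact_mod_cast this
    rw [Int.abs_lt_one_iff] at h6
    omega

end QS2
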