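import Pool.Agent.QS2.B.Right
import Pool.Agent.QS2.B.Roots

/-! # QS2 (b): values of `r_M` at the nodes -/

set_option autoImplicit false

namespace QS2

open Finset Polynomial

/-- growth step: a solution whose ratio exceeds `1/31` once grows by a factor `3` -/
theorem dom_step (l : ℕ → ℝ) (hl : IsDom l) (n : ℕ) (h : l n < 31 * l (n + 1)) :
    3 * l (n + 1) < l (n + 2) := by
  have h1 := hl.recur n
  have h3 := hl.pos (n + 1)
  have hn : (0 : ℝ) ≤ n := Nat.cast_nonneg n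
  have h4 : ((n : ℝ) + 1) ^ 3 * l n ≤ ((n : ℝ) + 1) ^ 3 * (31 * l (n + 1)) :=
    mul_le_mul_of_nonneg_left h.le (by positivity)
  have h6 : (0 : ℝ) < 42 * ((n : ℝ) + 1) ^ 2 + 18 * ((n : ℝ) + 1) + 2 := by positivity
  have h7 := mul_pos h6 h3
  have h5 : ((n : ℝ) + 2) ^ 3 * (3 * l (n + 1)) < ((n : ℝ) + 2) ^ 3 * l (n + 2) := by
    unfold ap at h1
    nlinarith [h1, h4, h7]
  exact lt_of_mul_lt_mul_left h5 (by positivity)

/-- ratios of a dominated solution are at most `1/31` -/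
theorem dom_ratio (l : ℕ → ℝ) (hl : IsDom l) (n : ℕ) :
    0 < l (n + 1) / l n ∧ l (n + 1) / l n ≤ 1 / 31 := by
  have h0 := hl.pos n
  have h1 := hl.pos (n + 1)
  refine ⟨div_pos h1 h0, ?_⟩
  by_contra hc
  rw [not_le, lt_div_iff₀ h0] at hc
  have hs : l n < 31 * l (n + 1) := by linarith
  have key : ∀ k : ℕ, l (n + k) < 31 * l (n + k + 1) ∧ 3 ^ k * l (n + 1) ≤ l (n + k + 1) := by
    intro k
    induction k with
    | zero => exact ⟨by simpa using hs, by simp⟩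
    | succ k ih =>
      have h2 := dom_step l hl (n + k) ih.1
      have h3 := hl.pos (n + k + 1)
      have e1 : n + (k + 1) = n + k + 1 := by ring
      have e2 : n + (k + 1) + 1 = n + k + 2 := by ring
      rw [e2, e1]
      constructor
      · linarith
      · calc (3 : ℝ) ^ (k + 1) * l (n + 1) = 3 * (3 ^ k * l (n + 1)) := by ring
          _ ≤ 3 * l (n + k + 1) := by linarith [ih.2]
          _ ≤ l (n + k + 2) := h2.le
  obtain ⟨C, hC⟩ := hl.bdd
  have ht : Filter.Tendsto (fun k : ℕ => (3 : ℝ) ^ k * l (n + 1)) Filter.atTop Filter.atTop :=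
    (tendsto_pow_atTop_atTop_of_one_lt (by norm_num)).atTop_mul_const h1
  obtain ⟨k, hk⟩ := (ht.eventually (Filter.eventually_gt_atTop C)).exists
  have h4 := (key k).2
  have h5 := hC (n + k + 1)
  linarith

/-- the ratios satisfy the recursion of the convergents -/
theorem dom_rec (l : ℕ → ℝ) (hl : IsDom l) (n : ℕ) :
    (l (n + 1) / l n) * (ap ((n : ℝ) + 1) - ((n : ℝ) + 2) ^ 3 * (l (n + 2) / l (n + 1)))
      = ((n : ℝ) + 1) ^ 3 := by
  have h0 := (hl.pos n).ne'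
  have h1 := (hl.pos (n + 1)).ne'
  have h2 := hl.recur n
  field_simp
  linarith

theorem rr_dist (l : ℕ → ℝ) (hl : IsDom l) (M : ℕ) : ∀ n : ℕ,
    ‖rr M (n : ℂ) - ((l (n + 1) / l n : ℝ) : ℂ)‖ ≤ (1 / 100 : ℝ) ^ M := by
  induction M with
  | zero =>
    intro n
    have h := dom_ratio l hl n
    have h0 : rr 0 (n : ℂ) = 0 := by simp [rr, Yp]
    rw [h0, zero_sub, norm_neg, Complex.norm_real, Real.norm_eq_abs, abs_of_pos h.1]
    simp only [pow_zero]
    linarith [h.2]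
  | succ M ih =>
    intro n
    set q : ℝ := l (n + 1) / l n with hq
    set q' : ℝ := l (n + 2) / l (n + 1) with hq'
    have hn : (0 : ℝ) ≤ n := Nat.cast_nonneg n
    have hqb := dom_ratio l hl n
    rw [← hq] at hqb
    have hrec := dom_rec l hl n
    rw [← hq, ← hq'] at hrec
    have hre1 : -3 / 5 ≤ ((n : ℂ) + 1).re := by
      simp; linarith
    have hre0 : -3 / 5 ≤ ((n : ℂ)).re := by
      simp; linarith
    have hY := (right_bound M ((n : ℂ) + 1) hre1).1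
    obtain ⟨hs1, hs2⟩ := rr_succ M (n : ℂ) hY
    obtain ⟨hY2, hb2⟩ := right_bound (M + 1) (n : ℂ) hre0
    have hih := ih (n + 1)
    have e1 : ((n + 1 : ℕ) : ℂ) = (n : ℂ) + 1 := by push_cast; ring
    have e2 : n + 1 + 1 = n + 2 := rfl
    rw [e1, e2, ← hq'] at hih
    set r' : ℂ := rr M ((n : ℂ) + 1) with hr'
    set D1 : ℂ := ap ((n : ℂ) + 1) - ((n : ℂ) + 2) ^ 3 * r' with hD1
    set D2 : ℝ := ap ((n : ℝ) + 1) - ((n : ℝ) + 2) ^ 3 * q' with hD2
    have hD1ne : D1 ≠ 0 := by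
      intro h
      rw [h, mul_zero] at hs1
      exact hY2 hs1
    have hn3 : (0 : ℝ) < ((n : ℝ) + 1) ^ 3 := by positivity
    have hD2ne : D2 ≠ 0 := by
      intro h
      rw [h, mul_zero] at hrec
      linarith
    have hD2c : ((D2 : ℝ) : ℂ) ≠ 0 := by exact_mod_cast hD2ne
    have hD2e : ((D2 : ℝ) : ℂ) = ap ((n : ℂ) + 1) - ((n : ℂ) + 2) ^ 3 * (q' : ℂ) := by
      rw [hD2]
      simp [ap]
    have hqe : ((q : ℝ) : ℂ) = ((n : ℂ) + 1) ^ 3 / (D2 : ℂ) := by
      rw [eq_div_iff hD2c]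
      have := congrArg (fun x : ℝ => (x : ℂ)) hrec
      push_cast at this
      exact this
    have hn1c : ((n : ℂ) + 1) ≠ 0 := by
      have : ((n : ℂ) + 1) = ((n + 1 : ℕ) : ℂ) := by push_cast; ring
      rw [this]
      exact_mod_cast Nat.succ_ne_zero n
    have hdiff : rr (M + 1) (n : ℂ) - (q : ℂ)
        = rr (M + 1) (n : ℂ) * (q : ℂ) * (((n : ℂ) + 2) / ((n : ℂ) + 1)) ^ 3 * (r' - (q' : ℂ)) := by
      rw [hqe, hs2]
      rw [div_pow]
      field_simp
      rw [hD2e, hD1]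
      ring
    rw [hdiff]
    rw [norm_mul, norm_mul, norm_mul, norm_pow]
    have hb3 : ‖((q : ℝ) : ℂ)‖ ≤ 1 / 31 := by
      rw [Complex.norm_real, Real.norm_eq_abs, abs_of_pos hqb.1]
      exact hqb.2
    have hb4 : ‖((n : ℂ) + 2) / ((n : ℂ) + 1)‖ ≤ 2 := by
      have : ((n : ℂ) + 2) / ((n : ℂ) + 1) = (((((n : ℝ) + 2) / ((n : ℝ) + 1) : ℝ)) : ℂ) := by
        push_cast; ring
      rw [this, Complex.norm_real, Real.norm_eq_abs, abs_of_pos (by positivity)]
      rw [div_le_iff₀ (by positivity)]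
      linarith
    have hb5 : ‖((n : ℂ) + 2) / ((n : ℂ) + 1)‖ ^ 3 ≤ 8 := by
      calc ‖((n : ℂ) + 2) / ((n : ℂ) + 1)‖ ^ 3 ≤ 2 ^ 3 :=
            pow_le_pow_left₀ (norm_nonneg _) hb4 3
        _ = 8 := by norm_num
    calc ‖rr (M + 1) (n : ℂ)‖ * ‖((q : ℝ) : ℂ)‖ * ‖((n : ℂ) + 2) / ((n : ℂ) + 1)‖ ^ 3
          * ‖r' - (q' : ℂ)‖
        ≤ (1 / 31) * (1 / 31) * 8 * (1 / 100 : ℝ) ^ M := by
          gcongr
      _ ≤ (1 / 100 : ℝ) ^ (M + 1) := by
          rw [pow_succ]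
          have : (0 : ℝ) ≤ (1 / 100 : ℝ) ^ M := by positivity
          nlinarith

/-- right nodes: `r_M(n) → l_{n+1}/l_n` -/
theorem rr_tendsto (l : ℕ → ℝ) (hl : IsDom l) (n : ℕ) :
    Filter.Tendsto (fun M => rr M (n : ℂ)) Filter.atTop (nhds ((l (n + 1) / l n : ℝ) : ℂ)) := by
  rw [tendsto_iff_norm_sub_tendsto_zero]
  refine squeeze_zero (fun _ => norm_nonneg _) (fun M => rr_dist l hl M n) ?_
  exact tendsto_pow_atTop_nhds_zero_of_lt_one (by norm_num) (by norm_num)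

private theorem aperyA_pos0 (n : ℕ) : 0 < aperyA n := by
  unfold aperyA
  apply sum_pos
  · intro k hk
    rw [mem_range] at hk
    have h1 : 0 < n.choose k := Nat.choose_pos (by omega)
    have h2 : 0 < (n + k).choose k := Nat.choose_pos (by omega)
    positivity
  · exact ⟨0, by simp⟩

/-- left nodes: `r_M(-2-m) = a_m/a_{m+1}` as soon as `M > m` -/
theorem rr_left (hA : RecA) (m M : ℕ) (h : m + 1 ≤ M) :
    rr M (-2 - (m : ℂ)) = ((aperyA m / aperyA (m + 1) : ℚ) : ℂ) := by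
  induction m generalizing M with
  | zero =>
    obtain ⟨M, rfl⟩ : ∃ M', M = M' + 1 := ⟨M - 1, by omega⟩
    have hY : (Y M).eval ((-2 - ((0 : ℕ) : ℂ)) + 1) ≠ 0 := by
      have := Y_int_ne M (-1)
      convert this using 2
      push_cast
      ring
    rw [(rr_succ M _ hY).2]
    have h0 : aperyA 0 = 1 := by simp [aperyA]
    have h1 : aperyA (0 + 1) = 5 := by
      simp [aperyA, sum_range_succ]
      norm_num
    rw [h0, h1]
    have e1 : ((-2 : ℂ) - ((0 : ℕ) : ℂ)) + 1 = -1 := by push_cast; ring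
    have e2 : ((-2 : ℂ) - ((0 : ℕ) : ℂ)) + 2 = 0 := by push_cast; ring
    rw [e1, e2]
    simp [ap]
    norm_num
  | succ m ih =>
    obtain ⟨M, rfl⟩ : ∃ M', M = M' + 1 := ⟨M - 1, by omega⟩
    have hM : m + 1 ≤ M := by omega
    have hY : (Y M).eval ((-2 - ((m + 1 : ℕ) : ℂ)) + 1) ≠ 0 := by
      have := Y_int_ne M (-2 - m)
      convert this using 2
      push_cast
      ring
    rw [(rr_succ M _ hY).2]
    have e1 : ((-2 : ℂ) - ((m + 1 : ℕ) : ℂ)) + 1 = -2 - (m : ℂ) := by push_cast; ring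
    rw [e1, ih M hM]
    have hr := hA m
    have p0 := (aperyA_pos0 m).ne'
    have p1 := (aperyA_pos0 (m + 1)).ne'
    have p2 := (aperyA_pos0 (m + 2)).ne'
    have hm : ((m : ℚ) + 2) ≠ 0 := by positivity
    have hD : (m + 2 : ℚ) ^ 3 * aperyA (m + 2) = ap ((m : ℚ) + 1) * aperyA (m + 1)
        - ((m : ℚ) + 1) ^ 3 * aperyA m := by linarith
    have key : (-(m : ℚ) - 2) ^ 3 / (ap (-2 - (m : ℚ)) - (-(m : ℚ) - 1) ^ 3
        * (aperyA m / aperyA (m + 1))) = aperyA (m + 1) / aperyA (m + 1 + 1) := by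
      have e3 : ap (-2 - (m : ℚ)) = - ap ((m : ℚ) + 1) := by unfold ap; ring
      have e4 : ap (-2 - (m : ℚ)) - (-(m : ℚ) - 1) ^ 3 * (aperyA m / aperyA (m + 1))
          = - ((m + 2 : ℚ) ^ 3 * aperyA (m + 2)) / aperyA (m + 1) := by
        rw [hD, e3]
        field_simp
        ring
      rw [e4]
      have e5 : aperyA (m + 1 + 1) = aperyA (m + 2) := rfl
      rw [e5]
      field_simp
      ring
    rw [← key]
    push_cast
    simp only [ap]
    congr 1
    · ring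
    · push_cast
      ring

end QS2
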