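import Pool.Agent.QS2.B.BDefs

/-! # QS2 (b): sizes of the node values (`x = zeta(3)` on the right, `x' ≠ zeta(3)` on the left)

`Apery facts used` (hypotheses here, delivered by the Apery modules): recurrences, Casoratian,
positivity and boundedness of `l_n = a_n zeta(3) - b_n`. -/

set_option autoImplicit false

namespace QS2

open Finset Polynomial

/-- facts about the Apéry numbers used in (b) -/
structure AperyFacts (z3 : ℝ) : Prop where
  recA : ∀ n : ℕ, ((n : ℚ) + 2) ^ 3 * aperyA (n + 2) - ap ((n : ℚ) + 1) * aperyA (n + 1)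
    + ((n : ℚ) + 1) ^ 3 * aperyA n = 0
  recB : ∀ n : ℕ, ((n : ℚ) + 2) ^ 3 * aperyB (n + 2) - ap ((n : ℚ) + 1) * aperyB (n + 1)
    + ((n : ℚ) + 1) ^ 3 * aperyB n = 0
  one_le : ∀ n, 1 ≤ aperyA n
  caso : ∀ n : ℕ, aperyB (n + 1) * aperyA n - aperyA (n + 1) * aperyB n = 6 / ((n : ℚ) + 1) ^ 3
  pos : ∀ n, 0 < (aperyA n : ℝ) * z3 - aperyB n
  bdd : ∃ C : ℝ, ∀ n, (aperyA n : ℝ) * z3 - aperyB n ≤ C

theorem recA_real {z3 : ℝ} (h : AperyFacts z3) (n : ℕ) :
    ((n : ℝ) + 2) ^ 3 * (aperyA (n + 2) : ℝ) - ap ((n : ℝ) + 1) * (aperyA (n + 1) : ℝ)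
    + ((n : ℝ) + 1) ^ 3 * (aperyA n : ℝ) = 0 := by
  have h1 := congrArg (fun q : ℚ => (q : ℝ)) (h.recA n)
  simp only [ap] at h1 ⊢
  push_cast at h1
  linarith

theorem recB_real {z3 : ℝ} (h : AperyFacts z3) (n : ℕ) :
    ((n : ℝ) + 2) ^ 3 * (aperyB (n + 2) : ℝ) - ap ((n : ℝ) + 1) * (aperyB (n + 1) : ℝ)
    + ((n : ℝ) + 1) ^ 3 * (aperyB n : ℝ) = 0 := by
  have h1 := congrArg (fun q : ℚ => (q : ℝ)) (h.recB n)
  simp only [ap] at h1 ⊢
  push_cast at h1
  linarith

theorem caso_real {z3 : ℝ} (h : AperyFacts z3) (n : ℕ) :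
    (aperyB (n + 1) : ℝ) * (aperyA n : ℝ) - (aperyA (n + 1) : ℝ) * (aperyB n : ℝ)
      = 6 / ((n : ℝ) + 1) ^ 3 := by
  have h1 := congrArg (fun q : ℚ => (q : ℝ)) (h.caso n)
  push_cast at h1
  exact h1

theorem one_le_real {z3 : ℝ} (h : AperyFacts z3) (n : ℕ) : (1 : ℝ) ≤ (aperyA n : ℝ) := by
  exact_mod_cast h.one_le n

theorem dom_of_facts {z3 : ℝ} (h : AperyFacts z3) :
    IsDom (fun n => (aperyA n : ℝ) * z3 - aperyB n) where
  pos := h.pos
  recur := by
    intro n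
    have h1 := recA_real h n
    have h2 := recB_real h n
    linear_combination z3 * h1 - h2
  bdd := h.bdd

/-- `a_{n+2} ≥ (33.9 - 60/(n+2)) a_{n+1}` -/
theorem a_ratio {z3 : ℝ} (h : AperyFacts z3) (n : ℕ) :
    (339 / 10 - 60 / ((n : ℝ) + 2)) * (aperyA (n + 1) : ℝ) ≤ (aperyA (n + 2) : ℝ) := by
  induction n with
  | zero =>
    have h1 := recA_real h 0
    have h2 := one_le_real h 0
    have h3 := recA_real h 0
    have e1 : (aperyA 1 : ℝ) = 5 := by
      have : aperyA 1 = 5 := by simp [aperyA, sum_range_succ]; norm_num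
      rw [this]; norm_num
    have e2 : (aperyA 0 : ℝ) = 1 := by
      have : aperyA 0 = 1 := by simp [aperyA]
      rw [this]; norm_num
    simp only [ap, Nat.cast_zero, zero_add] at h1 ⊢
    rw [e1, e2] at h1
    rw [e1]
    norm_num at h1 ⊢
    linarith
  | succ n ih =>
    have h1 := recA_real h (n + 1)
    have p1 := one_le_real h (n + 1)
    have p2 := one_le_real h (n + 2)
    rw [show n + 1 + 2 = n + 3 from rfl, show n + 1 + 1 = n + 2 from rfl] at h1
    rw [show n + 1 + 2 = n + 3 from rfl, show n + 1 + 1 = n + 2 from rfl]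
    set a1 : ℝ := (aperyA (n + 1) : ℝ)
    set a2 : ℝ := (aperyA (n + 2) : ℝ)
    set a3 : ℝ := (aperyA (n + 3) : ℝ)
    simp only [ap] at h1
    push_cast at h1 ⊢
    have hn : (0 : ℝ) ≤ n := Nat.cast_nonneg n
    set x : ℝ := (n : ℝ) with hx
    -- `a1 ≤ a2 (x+2)/(33.9 (x+2) - 60)`
    have q1 : (339 / 10 * (x + 2) - 60) * a1 ≤ (x + 2) * a2 := by
      have : (339 / 10 - 60 / (x + 2)) * a1 * (x + 2) ≤ a2 * (x + 2) :=
        mul_le_mul_of_nonneg_right ih (by linarith)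
      have e : (339 / 10 - 60 / (x + 2)) * a1 * (x + 2) = (339 / 10 * (x + 2) - 60) * a1 := by
        have : x + 2 ≠ 0 := by linarith
        field_simp
      linarith
    have q2 : (0 : ℝ) < 339 / 10 * (x + 2) - 60 := by linarith
    have q3 : (0 : ℝ) < (x + 3) ^ 3 := by positivity
    have q4 : (x + 1 + 2) ^ 3 * a3 = (34 * (x + 1 + 1) ^ 3 + 51 * (x + 1 + 1) ^ 2 +
        27 * (x + 1 + 1) + 5) * a2 - (x + 1 + 1) ^ 3 * a1 := by linarith
    -- goal
    have goal1 : (339 / 10 * (x + 3) - 60) * (x + 3) ^ 2 * a2 ≤ (x + 3) ^ 3 * a3 := by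
      have e5 : (x + 3) ^ 3 * a3 = (34 * (x + 2) ^ 3 + 51 * (x + 2) ^ 2 +
        27 * (x + 2) + 5) * a2 - (x + 2) ^ 3 * a1 := by
        rw [show x + 3 = x + 1 + 2 by ring, q4]; ring
      rw [e5]
      have q5 : (339 / 10 * (x + 2) - 60) * ((x + 2) ^ 3 * a1) ≤
          (x + 2) ^ 4 * a2 := by
        have := mul_le_mul_of_nonneg_left q1 (by positivity : (0 : ℝ) ≤ (x + 2) ^ 3)
        nlinarith [this]
      have q6 : (x + 2) ^ 4 * a2 ≤ (339 / 10 * (x + 2) - 60) *
          ((34 * (x + 2) ^ 3 + 51 * (x + 2) ^ 2 + 27 * (x + 2) + 5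
            - (339 / 10 * (x + 3) - 60) * (x + 3) ^ 2) * a2) := by
        rw [← mul_assoc]
        apply mul_le_mul_of_nonneg_right _ (by linarith)
        nlinarith [pow_nonneg hn 2, pow_nonneg hn 3, pow_nonneg hn 4, hn]
      have q7 : (x + 2) ^ 3 * a1 ≤ (34 * (x + 2) ^ 3 + 51 * (x + 2) ^ 2 + 27 * (x + 2) + 5
            - (339 / 10 * (x + 3) - 60) * (x + 3) ^ 2) * a2 :=
        le_of_mul_le_mul_left (le_trans q5 q6) q2
      linarith
    have e6 : (339 / 10 - 60 / (x + 1 + 2)) * a2 =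
        ((339 / 10 * (x + 3) - 60) * (x + 3) ^ 2 * a2) / (x + 3) ^ 3 := by
      rw [show x + 1 + 2 = x + 3 by ring]
      have : x + 3 ≠ 0 := by linarith
      field_simp
    rw [e6, div_le_iff₀ q3]
    linarith

/-- `3 a_{n} ≤ a_{n+1}` -/
theorem a_three {z3 : ℝ} (h : AperyFacts z3) (n : ℕ) :
    3 * (aperyA n : ℝ) ≤ (aperyA (n + 1) : ℝ) := by
  rcases n with _ | n
  · have e1 : (aperyA 1 : ℝ) = 5 := by
      have : aperyA 1 = 5 := by simp [aperyA, sum_range_succ]; norm_num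
      rw [this]; norm_num
    have e2 : (aperyA 0 : ℝ) = 1 := by
      have : aperyA 0 = 1 := by simp [aperyA]
      rw [this]; norm_num
    rw [zero_add, e1, e2]; norm_num
  · have h1 := a_ratio h n
    have p1 := one_le_real h (n + 1)
    refine le_trans ?_ h1
    apply mul_le_mul_of_nonneg_right _ (by linarith)
    have hn : (0 : ℝ) ≤ n := Nat.cast_nonneg n
    have : 60 / ((n : ℝ) + 2) ≤ 30 := by
      rw [div_le_iff₀ (by linarith)]
      linarith
    linarith

theorem exp_lt : Real.exp (7 / 2) < 332 / 10 := by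
  have h1 : Real.exp (7 / 2) ^ 2 = Real.exp 1 ^ 7 := by
    rw [← Real.exp_nat_mul, ← Real.exp_nat_mul]
    norm_num
  have h2 : Real.exp 1 ^ 7 < (2.7182818286 : ℝ) ^ 7 :=
    pow_lt_pow_left₀ Real.exp_one_lt_d9 (Real.exp_pos 1).le (by norm_num)
  have h3 : (2.7182818286 : ℝ) ^ 7 < (332 / 10) ^ 2 := by norm_num
  have h4 : Real.exp (7 / 2) ^ 2 < (332 / 10) ^ 2 := by linarith
  exact lt_of_pow_lt_pow_left₀ 2 (by norm_num) h4

/-- growth: `a_{n+1} ≥ c (33.97)^n / poly`, in the form used for the masses -/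
theorem a_lower {z3 : ℝ} (h : AperyFacts z3) : ∃ c : ℝ, 0 < c ∧ ∀ n : ℕ,
    c * Real.exp (7 / 2 * n) ≤ aperyA n := by
  refine ⟨Real.exp (-(7 / 2 * 100)), Real.exp_pos _, ?_⟩
  intro n
  rw [← Real.exp_add]
  rcases le_total n 100 with hn | hn
  · have h1 : Real.exp (-(7 / 2 * 100) + 7 / 2 * n) ≤ 1 := by
      rw [Real.exp_le_one_iff]
      have : (n : ℝ) ≤ 100 := by exact_mod_cast hn
      linarith
    exact le_trans h1 (one_le_real h n)
  · obtain ⟨k, rfl⟩ := Nat.exists_eq_add_of_le hn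
    induction k with
    | zero =>
      have : Real.exp (-(7 / 2 * 100) + 7 / 2 * ((100 + 0 : ℕ) : ℝ)) = 1 := by
        rw [Real.exp_eq_one_iff]; push_cast; ring
      rw [this]
      exact one_le_real h _
    | succ k ih =>
      have ih' := ih (by omega)
      have h1 := a_ratio h (99 + k)
      rw [show 99 + k + 1 = 100 + k by ring, show 99 + k + 2 = 100 + (k + 1) by ring] at h1
      have p1 := one_le_real h (100 + k)
      have h2 : Real.exp (-(7 / 2 * 100) + 7 / 2 * ((100 + (k + 1) : ℕ) : ℝ)) =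
          Real.exp (7 / 2) * Real.exp (-(7 / 2 * 100) + 7 / 2 * ((100 + k : ℕ) : ℝ)) := by
        rw [← Real.exp_add]
        congr 1
        push_cast
        ring
      rw [h2]
      have h3 : (332 / 10 : ℝ) ≤ 339 / 10 - 60 / (((99 + k : ℕ) : ℝ) + 2) := by
        have hk : (0 : ℝ) ≤ k := Nat.cast_nonneg k
        have : 60 / (((99 + k : ℕ) : ℝ) + 2) ≤ 7 / 10 := by
          push_cast
          rw [div_le_iff₀ (by linarith)]
          linarith
        linarith
      have h4 := exp_lt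
      calc Real.exp (7 / 2) * Real.exp (-(7 / 2 * 100) + 7 / 2 * ((100 + k : ℕ) : ℝ))
          ≤ (332 / 10) * (aperyA (100 + k) : ℝ) :=
            mul_le_mul h4.le ih' (Real.exp_pos _).le (by norm_num)
        _ ≤ (339 / 10 - 60 / (((99 + k : ℕ) : ℝ) + 2)) * (aperyA (100 + k) : ℝ) :=
            mul_le_mul_of_nonneg_right h3 (by linarith)
        _ ≤ _ := h1

/-- the dominated solution decreases -/
theorem l_succ_le {z3 : ℝ} (h : AperyFacts z3) (n : ℕ) :
    (aperyA (n + 1) : ℝ) * z3 - aperyB (n + 1) ≤ (aperyA n : ℝ) * z3 - aperyB n := by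
  by_contra hcon
  push Not at hcon
  have hd := dom_of_facts h
  set l : ℕ → ℝ := fun n => (aperyA n : ℝ) * z3 - aperyB n with hl
  have key : ∀ k : ℕ, l (n + k) < l (n + k + 1) ∧ 2 ^ k * l (n + 1) ≤ l (n + k + 1) := by
    intro k
    induction k with
    | zero => exact ⟨by simpa [hl] using hcon, by simp⟩
    | succ k ih =>
      have hr := hd.recur (n + k)
      have hp := hd.pos (n + k)
      have hp1 := hd.pos (n + k + 1)
      change ((n + k : ℕ) + 2 : ℝ) ^ 3 * l (n + k + 2) - ap (((n + k : ℕ) : ℝ) + 1) *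
        l (n + k + 1) + (((n + k : ℕ) : ℝ) + 1) ^ 3 * l (n + k) = 0 at hr
      change 0 < l (n + k) at hp
      change 0 < l (n + k + 1) at hp1
      have hx : (0 : ℝ) ≤ ((n + k : ℕ) : ℝ) := Nat.cast_nonneg _
      set x : ℝ := ((n + k : ℕ) : ℝ)
      simp only [ap] at hr
      have h1 : (x + 1) ^ 3 * l (n + k) ≤ (x + 1) ^ 3 * l (n + k + 1) :=
        mul_le_mul_of_nonneg_left ih.1.le (by positivity)
      have h2 : (x + 2) ^ 3 * (2 * l (n + k + 1)) ≤ (x + 2) ^ 3 * l (n + k + 2) := by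
        have h3 : (x + 2) ^ 3 * 2 ≤ (34 * (x + 1) ^ 3 + 51 * (x + 1) ^ 2 + 27 * (x + 1) + 5) -
            (x + 1) ^ 3 := by
          nlinarith [pow_nonneg hx 2, pow_nonneg hx 3]
        have h4 := mul_le_mul_of_nonneg_right h3 hp1.le
        nlinarith [h4]
      have h5 : 2 * l (n + k + 1) ≤ l (n + k + 2) :=
        le_of_mul_le_mul_left h2 (by positivity)
      rw [show n + (k + 1) = n + k + 1 by ring]
      refine ⟨by linarith, ?_⟩
      rw [pow_succ]
      have := ih.2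
      calc 2 ^ k * 2 * l (n + 1) = 2 * (2 ^ k * l (n + 1)) := by ring
        _ ≤ 2 * l (n + k + 1) := by linarith
        _ ≤ _ := h5
  obtain ⟨C, hC⟩ := hd.bdd
  have hp := hd.pos (n + 1)
  change 0 < l (n + 1) at hp
  obtain ⟨k, hk⟩ := pow_unbounded_of_one_lt (C / l (n + 1)) (by norm_num : (1 : ℝ) < 2)
  rw [div_lt_iff₀ hp] at hk
  have h6 := (key k).2
  have h7 := hC (n + k + 1)
  change l (n + k + 1) ≤ C at h7
  linarith

/-- `l_n a_{n+1} ≤ 12` -/
theorem l_upper {z3 : ℝ} (h : AperyFacts z3) (n : ℕ) :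
    ((aperyA n : ℝ) * z3 - aperyB n) * (aperyA (n + 1) : ℝ) ≤ 12 := by
  have h1 := caso_real h n
  have h2 := l_succ_le h n
  have h3 := a_three h n
  have p0 := one_le_real h n
  have hp := h.pos n
  have h6 : 6 / ((n : ℝ) + 1) ^ 3 ≤ 6 := by
    have hn : (0 : ℝ) ≤ n := Nat.cast_nonneg n
    rw [div_le_iff₀ (by positivity)]
    have : (1 : ℝ) ≤ ((n : ℝ) + 1) ^ 3 := one_le_pow₀ (by linarith)
    linarith
  set l0 : ℝ := (aperyA n : ℝ) * z3 - aperyB n with hl0
  set l1 : ℝ := (aperyA (n + 1) : ℝ) * z3 - aperyB (n + 1) with hl1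
  -- `a_{n+1} l_n = a_n l_{n+1} + 6/(n+1)^3`
  have e1 : l0 * (aperyA (n + 1) : ℝ) = (aperyA n : ℝ) * l1 + 6 / ((n : ℝ) + 1) ^ 3 := by
    rw [← h1, hl0, hl1]; ring
  have h4 : (aperyA n : ℝ) * l1 ≤ (aperyA n : ℝ) * l0 :=
    mul_le_mul_of_nonneg_left h2 (by linarith)
  have h5 : 3 * (aperyA n : ℝ) * l0 ≤ (aperyA (n + 1) : ℝ) * l0 :=
    mul_le_mul_of_nonneg_right h3 hp.le
  nlinarith

/-- **product of the node values**: `|∏ u| ≤ C^A` -/
theorem prod_u {z3 : ℝ} (h : AperyFacts z3) (x' : ℝ) : ∃ C : ℝ, 1 ≤ C ∧ ∀ A : ℕ,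
    ∏ f, |uval z3 x' A f| ≤ C ^ A := by
  obtain ⟨B, hB⟩ := h.bdd
  have hB0 : 0 < B := lt_of_lt_of_le (h.pos 0) (hB 0)
  refine ⟨max 1 (12 * |x' - z3| + B * B), le_max_left _ _, ?_⟩
  intro A
  rw [Fintype.prod_sum_type, ← Finset.prod_mul_distrib]
  calc ∏ i : Fin A, |uval z3 x' A (Sum.inl i)| * |uval z3 x' A (Sum.inr i)|
      ≤ ∏ _i : Fin A, max 1 (12 * |x' - z3| + B * B) := by
        apply Finset.prod_le_prod
        · intro i _
          positivity
        · intro i _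
          refine le_trans ?_ (le_max_right _ _)
          simp only [uval]
          have hp := h.pos (i + 1)
          have hp2 := h.pos (i + 2)
          have hb1 := hB (i + 1)
          have hb2 := hB (i + 2)
          have hu := l_upper h (i + 1)
          have p2 := one_le_real h (i + 2)
          rw [abs_of_pos hp]
          have e : (aperyA (i + 2) : ℝ) * x' - aperyB (i + 2) =
              (aperyA (i + 2) : ℝ) * (x' - z3) + ((aperyA (i + 2) : ℝ) * z3 - aperyB (i + 2)) := by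
            ring
          have h1 : |(aperyA (i + 2) : ℝ) * x' - aperyB (i + 2)| ≤
              (aperyA (i + 2) : ℝ) * |x' - z3| + B := by
            rw [e]
            refine le_trans (abs_add_le _ _) ?_
            rw [abs_mul, abs_of_pos (by linarith : (0 : ℝ) < (aperyA (i + 2) : ℝ)), abs_of_pos hp2]
            linarith
          calc ((aperyA (i + 1) : ℝ) * z3 - aperyB (i + 1)) *
                |(aperyA (i + 2) : ℝ) * x' - aperyB (i + 2)|
              ≤ ((aperyA (i + 1) : ℝ) * z3 - aperyB (i + 1)) *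
                ((aperyA (i + 2) : ℝ) * |x' - z3| + B) := mul_le_mul_of_nonneg_left h1 hp.le
            _ = ((aperyA (i + 1) : ℝ) * z3 - aperyB (i + 1)) * (aperyA (i + 2) : ℝ) * |x' - z3| +
                ((aperyA (i + 1) : ℝ) * z3 - aperyB (i + 1)) * B := by ring
            _ ≤ 12 * |x' - z3| + B * B :=
                add_le_add (mul_le_mul_of_nonneg_right hu (abs_nonneg _))
                  (mul_le_mul_of_nonneg_right hb1 hB0.le)
    _ = _ := by simp

/-- `|a_n x' - b_n| ≥ c a_n` -/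
theorem u_lower {z3 : ℝ} (h : AperyFacts z3) (x' : ℝ) (hx' : x' ≠ z3)
    (hne : ∀ n, (aperyA n : ℝ) * x' - aperyB n ≠ 0) : ∃ c : ℝ, 0 < c ∧ ∀ n : ℕ,
    c * (aperyA n : ℝ) ≤ |(aperyA n : ℝ) * x' - aperyB n| := by
  obtain ⟨B, hB⟩ := h.bdd
  have hB0 : 0 < B := lt_of_lt_of_le (h.pos 0) (hB 0)
  have hd : 0 < |x' - z3| := abs_pos.mpr (sub_ne_zero.mpr hx')
  -- `3^n ≤ a_n`
  have h3 : ∀ n : ℕ, (3 : ℝ) ^ n ≤ (aperyA n : ℝ) := by
    intro n
    induction n with
    | zero => simpa using one_le_real h 0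
    | succ n ih =>
      rw [pow_succ]
      have := a_three h n
      linarith
  obtain ⟨N, hN⟩ := pow_unbounded_of_one_lt (2 * B / |x' - z3|) (by norm_num : (1 : ℝ) < 3)
  rw [div_lt_iff₀ hd] at hN
  -- finite minimum
  have hfin : ∃ c : ℝ, 0 < c ∧ ∀ n ∈ range N,
      c * (aperyA n : ℝ) ≤ |(aperyA n : ℝ) * x' - aperyB n| := by
    have : ∀ s : Finset ℕ, ∃ c : ℝ, 0 < c ∧ ∀ n ∈ s,
      c * (aperyA n : ℝ) ≤ |(aperyA n : ℝ) * x' - aperyB n| := by
      intro s
      induction s using Finset.induction_on with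
      | empty => exact ⟨1, one_pos, by simp⟩
      | insert a s ha ih =>
        obtain ⟨c, hc, hs⟩ := ih
        have hpa := one_le_real h a
        have hna : 0 < |(aperyA a : ℝ) * x' - aperyB a| := abs_pos.mpr (hne a)
        refine ⟨min c (|(aperyA a : ℝ) * x' - aperyB a| / (aperyA a : ℝ)),
          lt_min hc (div_pos hna (by linarith)), ?_⟩
        intro n hn
        have hpn := one_le_real h n
        rcases Finset.mem_insert.mp hn with rfl | hn
        · refine le_trans (mul_le_mul_of_nonneg_right (min_le_right _ _) (by linarith)) ?_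
          rw [div_mul_cancel₀ _ (by linarith)]
        · exact le_trans (mul_le_mul_of_nonneg_right (min_le_left _ _) (by linarith)) (hs n hn)
    exact this _
  obtain ⟨c, hc, hcn⟩ := hfin
  refine ⟨min c (|x' - z3| / 2), lt_min hc (by linarith), ?_⟩
  intro n
  have hpn := one_le_real h n
  rcases lt_or_ge n N with hn | hn
  · exact le_trans (mul_le_mul_of_nonneg_right (min_le_left _ _) (by linarith))
      (hcn n (Finset.mem_range.mpr hn))
  · refine le_trans (mul_le_mul_of_nonneg_right (min_le_right _ _) (by linarith)) ?_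
    have h4 : (3 : ℝ) ^ N ≤ (aperyA n : ℝ) :=
      le_trans (pow_le_pow_right₀ (by norm_num) hn) (h3 n)
    have h5 : 2 * B ≤ (aperyA n : ℝ) * |x' - z3| :=
      le_trans hN.le (mul_le_mul_of_nonneg_right h4 hd.le)
    have hp := h.pos n
    have hb := hB n
    have e : (aperyA n : ℝ) * x' - aperyB n =
        (aperyA n : ℝ) * (x' - z3) + ((aperyA n : ℝ) * z3 - aperyB n) := by ring
    have h6 : |(aperyA n : ℝ) * (x' - z3)| - |((aperyA n : ℝ) * z3 - aperyB n)| ≤
        |(aperyA n : ℝ) * x' - aperyB n| := by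
      rw [e]
      have := abs_sub_abs_le_abs_sub ((aperyA n : ℝ) * (x' - z3))
        (-((aperyA n : ℝ) * z3 - aperyB n))
      rw [abs_neg, sub_neg_eq_add] at this
      exact this
    rw [abs_mul, abs_of_pos (by linarith : (0 : ℝ) < (aperyA n : ℝ)), abs_of_pos hp] at h6
    linarith

/-- **masses of the left nodes** (`x'` irrational and different from `zeta(3)`) -/
theorem left_mass {z3 : ℝ} (h : AperyFacts z3) (x' : ℝ) (hx' : x' ≠ z3)
    (hne : ∀ n, (aperyA n : ℝ) * x' - aperyB n ≠ 0) : ∃ K1 : ℝ, 0 < K1 ∧ ∀ i : ℕ,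
    |((aperyA (i + 1) / aperyA (i + 2) : ℚ) : ℝ) -
      ((aperyA (i + 1) : ℝ) * x' - aperyB (i + 1)) / ((aperyA (i + 2) : ℝ) * x' - aperyB (i + 2))|
      ≤ K1 * Real.exp (-7 * ((i : ℝ) + 3)) := by
  obtain ⟨c, hc, hcn⟩ := u_lower h x' hx' hne
  obtain ⟨d, hd, hdn⟩ := a_lower h
  refine ⟨6 * Real.exp 7 / (c * d ^ 2), by positivity, ?_⟩
  intro i
  have p2 := one_le_real h (i + 2)
  have hu := hne (i + 2)
  have hcaso := caso_real h (i + 1)
  rw [show i + 1 + 1 = i + 2 from rfl] at hcaso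
  push_cast at hcaso
  have e : ((aperyA (i + 1) / aperyA (i + 2) : ℚ) : ℝ) -
      ((aperyA (i + 1) : ℝ) * x' - aperyB (i + 1)) / ((aperyA (i + 2) : ℝ) * x' - aperyB (i + 2))
      = -(6 / ((i : ℝ) + 1 + 1) ^ 3) /
        ((aperyA (i + 2) : ℝ) * ((aperyA (i + 2) : ℝ) * x' - aperyB (i + 2))) := by
    rw [← hcaso]
    push_cast
    have : (aperyA (i + 2) : ℝ) ≠ 0 := by linarith
    rw [div_sub_div _ _ this hu]
    congr 1
    ring
  rw [e, abs_div, abs_neg, abs_mul, abs_of_pos (by linarith : (0 : ℝ) < (aperyA (i + 2) : ℝ))]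
  have hn : (0 : ℝ) ≤ i := Nat.cast_nonneg i
  have h6 : |6 / ((i : ℝ) + 1 + 1) ^ 3| ≤ 6 := by
    rw [abs_of_nonneg (by positivity), div_le_iff₀ (by positivity)]
    have : (1 : ℝ) ≤ ((i : ℝ) + 1 + 1) ^ 3 := one_le_pow₀ (by linarith)
    linarith
  have h7 := hcn (i + 2)
  have h8 := hdn (i + 2)
  have hE : 0 < Real.exp (7 / 2 * ((i + 2 : ℕ) : ℝ)) := Real.exp_pos _
  have h9 : c * (d * Real.exp (7 / 2 * ((i + 2 : ℕ) : ℝ))) *
      (d * Real.exp (7 / 2 * ((i + 2 : ℕ) : ℝ))) ≤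
      (aperyA (i + 2) : ℝ) * |(aperyA (i + 2) : ℝ) * x' - aperyB (i + 2)| := by
    calc c * (d * Real.exp (7 / 2 * ((i + 2 : ℕ) : ℝ))) *
      (d * Real.exp (7 / 2 * ((i + 2 : ℕ) : ℝ)))
        ≤ (c * (aperyA (i + 2) : ℝ)) * (aperyA (i + 2) : ℝ) :=
          mul_le_mul (mul_le_mul_of_nonneg_left h8 hc.le) h8 (by positivity) (by positivity)
      _ ≤ |(aperyA (i + 2) : ℝ) * x' - aperyB (i + 2)| * (aperyA (i + 2) : ℝ) :=
          mul_le_mul_of_nonneg_right h7 (by linarith)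
      _ = _ := by ring
  have h10 : c * (d * Real.exp (7 / 2 * ((i + 2 : ℕ) : ℝ))) *
      (d * Real.exp (7 / 2 * ((i + 2 : ℕ) : ℝ))) = c * d ^ 2 * Real.exp (7 * ((i : ℝ) + 2)) := by
    have : Real.exp (7 / 2 * ((i + 2 : ℕ) : ℝ)) * Real.exp (7 / 2 * ((i + 2 : ℕ) : ℝ)) =
        Real.exp (7 * ((i : ℝ) + 2)) := by
      rw [← Real.exp_add]
      congr 1
      push_cast
      ring
    rw [← this]
    ring
  rw [h10] at h9
  have hpos : 0 < c * d ^ 2 * Real.exp (7 * ((i : ℝ) + 2)) := by positivity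
  calc |6 / ((i : ℝ) + 1 + 1) ^ 3| /
        ((aperyA (i + 2) : ℝ) * |(aperyA (i + 2) : ℝ) * x' - aperyB (i + 2)|)
      ≤ 6 / (c * d ^ 2 * Real.exp (7 * ((i : ℝ) + 2))) :=
        div_le_div₀ (by norm_num) h6 hpos h9
    _ = 6 * Real.exp 7 / (c * d ^ 2) * Real.exp (-7 * ((i : ℝ) + 3)) := by
        rw [show -7 * ((i : ℝ) + 3) = -(7 * ((i : ℝ) + 2) + 7) by ring, Real.exp_neg,
          Real.exp_add]
        field_simp

end QS2
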