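import Pool.Agent.QS2.AperyRec

/-! # QS2 (b): the product of the node values -/

set_option autoImplicit false

namespace QS2

open Finset Filter Topology

theorem aperyA_le_succ_U (n : ℕ) : aperyA n ≤ aperyA (n + 1) := by
  unfold aperyA
  rw [sum_range_succ _ (n + 1)]
  refine le_add_of_le_of_nonneg (Finset.sum_le_sum fun k _ => ?_) (by positivity)
  have h1 : (n.choose k : ℚ) ≤ ((n + 1).choose k : ℚ) := by
    exact_mod_cast Nat.choose_le_choose k (Nat.le_succ n)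
  have h2 : ((n + k).choose k : ℚ) ≤ ((n + 1 + k).choose k : ℚ) := by
    exact_mod_cast Nat.choose_le_choose k (by omega)
  gcongr

theorem aperyA_monoU : Monotone aperyA := monotone_nat_of_le_succ aperyA_le_succ_U

/-- `l_n a_{n+1} ≤ 6 ζ(3)` -/
theorem lrem_mul_le (n : ℕ) : lrem n * ((aperyA (n + 1) : ℚ) : ℝ) ≤ 6 * zeta3 := by
  have han : (0 : ℝ) < ((aperyA n : ℚ) : ℝ) := by exact_mod_cast aperyA_pos n
  have han1 : (0 : ℝ) < ((aperyA (n + 1) : ℚ) : ℝ) := by exact_mod_cast aperyA_pos (n + 1)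
  have h := (hasSum_lrem' n).mul_left (((aperyA n : ℚ) : ℝ) * ((aperyA (n + 1) : ℚ) : ℝ))
  have e : ((aperyA n : ℚ) : ℝ) * ((aperyA (n + 1) : ℚ) : ℝ) *
      (lrem n / ((aperyA n : ℚ) : ℝ)) = lrem n * ((aperyA (n + 1) : ℚ) : ℝ) := by
    field_simp
  rw [e] at h
  have hs : HasSum (fun k : ℕ => 6 * (1 / ((k : ℝ) + 1) ^ 3)) (6 * zeta3) :=
    (summable_cube.hasSum).mul_left 6
  refine hasSum_le (fun k => ?_) h hs
  have h1 : ((aperyA (n + 1) : ℚ) : ℝ) ≤ ((aperyA (n + k + 1) : ℚ) : ℝ) := by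
    exact_mod_cast aperyA_monoU (by omega : n + 1 ≤ n + k + 1)
  have h2 : ((aperyA n : ℚ) : ℝ) ≤ ((aperyA (n + k) : ℚ) : ℝ) := by
    exact_mod_cast aperyA_monoU (by omega : n ≤ n + k)
  have h3 : (0 : ℝ) < ((aperyA (n + k) : ℚ) : ℝ) := lt_of_lt_of_le han h2
  have h3' : (0 : ℝ) < ((aperyA (n + k + 1) : ℚ) : ℝ) := lt_of_lt_of_le han1 h1
  have h4 : ((k : ℝ) + 1) ^ 3 ≤ (((n + k : ℕ) : ℝ) + 1) ^ 3 := by
    refine pow_le_pow_left₀ (by positivity) ?_ 3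
    push_cast
    have : (0 : ℝ) ≤ n := Nat.cast_nonneg n
    linarith
  have h5 : (0 : ℝ) < ((k : ℝ) + 1) ^ 3 := by positivity
  have h6 : (0 : ℝ) < (((n + k : ℕ) : ℝ) + 1) ^ 3 := by positivity
  rw [mul_div_assoc', mul_one_div, div_le_div_iff₀ (by positivity) h5]
  have h7 : ((aperyA n : ℚ) : ℝ) * ((aperyA (n + 1) : ℚ) : ℝ) ≤
      ((aperyA (n + k) : ℚ) : ℝ) * ((aperyA (n + k + 1) : ℚ) : ℝ) :=
    mul_le_mul h2 h1 han1.le h3.le
  calc ((aperyA n : ℚ) : ℝ) * ((aperyA (n + 1) : ℚ) : ℝ) * 6 * ((k : ℝ) + 1) ^ 3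
      = 6 * ((((aperyA n : ℚ) : ℝ) * ((aperyA (n + 1) : ℚ) : ℝ)) * ((k : ℝ) + 1) ^ 3) := by ring
    _ ≤ 6 * ((((aperyA (n + k) : ℚ) : ℝ) * ((aperyA (n + k + 1) : ℚ) : ℝ)) *
        (((n + k : ℕ) : ℝ) + 1) ^ 3) := by
      refine mul_le_mul_of_nonneg_left ?_ (by norm_num)
      exact mul_le_mul h7 h4 h5.le (by positivity)
    _ = _ := by ring

theorem zeta3_le_two : zeta3 ≤ 2 := by
  refine le_of_tendsto tendsto_H3 (Eventually.of_forall (fun n => ?_))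
  exact_mod_cast H3_le_two n

theorem lrem_mul_le' (n : ℕ) : lrem n * ((aperyA (n + 1) : ℚ) : ℝ) ≤ 12 := by
  have h1 := lrem_mul_le n
  have h2 := zeta3_le_two
  linarith

theorem lrem_le_twelve (n : ℕ) : lrem n ≤ 12 := by
  have h1 := lrem_mul_le' n
  have h2 : (1 : ℝ) ≤ ((aperyA (n + 1) : ℚ) : ℝ) := by exact_mod_cast one_le_aperyA (n + 1)
  have h3 := lrem_pos' n
  nlinarith

/-- **product of the node values** for `zeta3`, uniform version -/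
theorem prod_u_unif (x' : ℝ) (A : ℕ) :
    ∏ f, |uval zeta3 x' A f| ≤ (12 * (|x' - zeta3| + 12)) ^ A := by
  rw [Fintype.prod_sum_type, ← prod_mul_distrib]
  have h1 : ∀ i : Fin A, |uval zeta3 x' A (Sum.inl i)| * |uval zeta3 x' A (Sum.inr i)| ≤
      12 * (|x' - zeta3| + 12) := by
    intro i
    simp only [uval]
    have e1 : ((aperyA ((i : ℕ) + 1) : ℚ) : ℝ) * zeta3 - ((aperyB ((i : ℕ) + 1) : ℚ) : ℝ) =
        lrem ((i : ℕ) + 1) := rfl
    have e2 : ((aperyA ((i : ℕ) + 2) : ℚ) : ℝ) * x' - ((aperyB ((i : ℕ) + 2) : ℚ) : ℝ) =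
        ((aperyA ((i : ℕ) + 2) : ℚ) : ℝ) * (x' - zeta3) + lrem ((i : ℕ) + 2) := by
      unfold lrem; ring
    rw [e1, e2, abs_of_pos (lrem_pos' _)]
    have ha : (1 : ℝ) ≤ ((aperyA ((i : ℕ) + 2) : ℚ) : ℝ) := by exact_mod_cast one_le_aperyA _
    have h2 : |((aperyA ((i : ℕ) + 2) : ℚ) : ℝ) * (x' - zeta3) + lrem ((i : ℕ) + 2)| ≤
        ((aperyA ((i : ℕ) + 2) : ℚ) : ℝ) * (|x' - zeta3| + 12) := by
      refine (abs_add_le _ _).trans ?_
      rw [abs_mul, abs_of_nonneg (by linarith : (0 : ℝ) ≤ ((aperyA ((i : ℕ) + 2) : ℚ) : ℝ)),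
        abs_of_pos (lrem_pos' _)]
      have h3 := lrem_le_twelve ((i : ℕ) + 2)
      nlinarith
    calc lrem ((i : ℕ) + 1) *
          |((aperyA ((i : ℕ) + 2) : ℚ) : ℝ) * (x' - zeta3) + lrem ((i : ℕ) + 2)|
        ≤ lrem ((i : ℕ) + 1) * (((aperyA ((i : ℕ) + 2) : ℚ) : ℝ) * (|x' - zeta3| + 12)) :=
          mul_le_mul_of_nonneg_left h2 (lrem_pos' _).le
      _ = (lrem ((i : ℕ) + 1) * ((aperyA ((i : ℕ) + 1 + 1) : ℚ) : ℝ)) * (|x' - zeta3| + 12) := by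
          ring
      _ ≤ 12 * (|x' - zeta3| + 12) :=
          mul_le_mul_of_nonneg_right (lrem_mul_le' _) (by positivity)
  calc ∏ i : Fin A, |uval zeta3 x' A (Sum.inl i)| * |uval zeta3 x' A (Sum.inr i)|
      ≤ ∏ _i : Fin A, 12 * (|x' - zeta3| + 12) :=
        prod_le_prod (fun i _ => by positivity) (fun i _ => h1 i)
    _ = (12 * (|x' - zeta3| + 12)) ^ A := by
        rw [prod_const, card_univ, Fintype.card_fin]

theorem prod_u_zeta (x' : ℝ) : ∃ C : ℝ, 1 ≤ C ∧ ∀ A : ℕ,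
    ∏ f, |uval zeta3 x' A f| ≤ C ^ A :=
  ⟨12 * (|x' - zeta3| + 12), by have := abs_nonneg (x' - zeta3); linarith,
    fun A => prod_u_unif x' A⟩

theorem aperyA_ge (n : ℕ) : (n : ℝ) ≤ ((aperyA n : ℚ) : ℝ) := by
  have h : (n : ℚ) ≤ aperyA n := by
    rcases Nat.eq_zero_or_pos n with h0 | h0
    · subst h0
      simpa using (aperyA_pos 0).le
    · unfold aperyA
      have h1 : ((n.choose 1 : ℚ) ^ 2 * ((n + 1).choose 1 : ℚ) ^ 2) ≤
          ∑ k ∈ range (n + 1), ((n.choose k : ℚ) ^ 2 * ((n + k).choose k : ℚ) ^ 2) :=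
        Finset.single_le_sum (f := fun k => ((n.choose k : ℚ) ^ 2 * ((n + k).choose k : ℚ) ^ 2))
          (fun k _ => by positivity) (mem_range.2 (by omega))
      refine le_trans ?_ h1
      rw [Nat.choose_one_right, Nat.choose_one_right]
      have h2 : (1 : ℚ) ≤ n := by exact_mod_cast h0
      push_cast
      nlinarith [mul_nonneg (sub_nonneg.2 h2) (sub_nonneg.2 h2), mul_pos (by linarith : (0:ℚ) < n) (by linarith : (0:ℚ) < n)]
  exact_mod_cast h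

/-- a number with bounded `a_n z - b_n` is `ζ(3)` -/
theorem eq_zeta3_of_bdd (z C : ℝ) (h : ∀ n : ℕ, |((aperyA n : ℚ) : ℝ) * z - ((aperyB n : ℚ) : ℝ)| ≤ C) :
    z = zeta3 := by
  have h1 : ∀ n : ℕ, (n : ℝ) * |z - zeta3| ≤ C + 12 := by
    intro n
    have e : ((aperyA n : ℚ) : ℝ) * (z - zeta3) =
        (((aperyA n : ℚ) : ℝ) * z - ((aperyB n : ℚ) : ℝ)) - lrem n := by unfold lrem; ring
    have h2 : |((aperyA n : ℚ) : ℝ) * (z - zeta3)| ≤ C + 12 := by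
      rw [e]
      refine (abs_sub _ _).trans ?_
      rw [abs_of_pos (lrem_pos' n)]
      linarith [h n, lrem_le_twelve n]
    rw [abs_mul, abs_of_nonneg (le_trans (Nat.cast_nonneg n) (aperyA_ge n))] at h2
    exact (mul_le_mul_of_nonneg_right (aperyA_ge n) (abs_nonneg _)).trans h2
  by_contra hne
  have hpos : 0 < |z - zeta3| := abs_pos.2 (sub_ne_zero.2 hne)
  obtain ⟨n, hn⟩ := exists_nat_gt ((C + 12) / |z - zeta3|)
  rw [div_lt_iff₀ hpos] at hn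
  linarith [h1 n]

end QS2
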