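import Pool.Agent.QS2.B.Cont

/-! # QS2 (b): estimates in the half plane `Re w ≥ -3/5` -/

set_option autoImplicit false

namespace QS2

open Finset Polynomial

theorem ap_half (t : ℂ) : ap (t - 1 / 2) = 34 * t ^ 3 + 3 / 2 * t := by
  unfold ap
  ring

theorem norm_sub_half_le (t : ℂ) (ht : 9 / 10 ≤ t.re) : ‖t - 1 / 2‖ ≤ ‖t‖ := by
  have h : Complex.normSq (t - 1 / 2) ≤ Complex.normSq t := by
    rw [Complex.normSq_apply, Complex.normSq_apply]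
    have e1 : (t - 1 / 2).re = t.re - 1 / 2 := by simp
    have e2 : (t - 1 / 2).im = t.im := by simp
    rw [e1, e2]
    nlinarith
  rw [Complex.normSq_eq_norm_sq, Complex.normSq_eq_norm_sq] at h
  exact (sq_le_sq₀ (norm_nonneg _) (norm_nonneg _)).mp h

theorem den_lower (t r : ℂ) (hr : ‖r‖ ≤ 1 / 31) :
    34 * ‖t‖ ^ 3 - 3 / 2 * ‖t‖ - (‖t‖ + 1 / 2) ^ 3 / 31 ≤
      ‖34 * t ^ 3 + 3 / 2 * t - (t + 1 / 2) ^ 3 * r‖ := by
  have h1 : ‖(34 : ℂ) * t ^ 3‖ = 34 * ‖t‖ ^ 3 := by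
    rw [norm_mul, norm_pow]; norm_num
  have h2 : ‖(3 / 2 : ℂ) * t‖ = 3 / 2 * ‖t‖ := by
    rw [norm_mul]; norm_num
  have h3 : ‖(t + 1 / 2) ^ 3 * r‖ ≤ (‖t‖ + 1 / 2) ^ 3 / 31 := by
    rw [norm_mul, norm_pow]
    have h4 : ‖t + 1 / 2‖ ≤ ‖t‖ + 1 / 2 := by
      refine (norm_add_le _ _).trans ?_
      norm_num
    have h5 : ‖t + 1 / 2‖ ^ 3 ≤ (‖t‖ + 1 / 2) ^ 3 := pow_le_pow_left₀ (norm_nonneg _) h4 3
    calc ‖t + 1 / 2‖ ^ 3 * ‖r‖ ≤ (‖t‖ + 1 / 2) ^ 3 * (1 / 31) :=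
          mul_le_mul h5 hr (norm_nonneg _) (by positivity)
      _ = _ := by ring
  have h6 : ‖(34 : ℂ) * t ^ 3‖ ≤ ‖34 * t ^ 3 + 3 / 2 * t - (t + 1 / 2) ^ 3 * r‖
      + ‖(3 / 2 : ℂ) * t‖ + ‖(t + 1 / 2) ^ 3 * r‖ := by
    have e : (34 : ℂ) * t ^ 3 = (34 * t ^ 3 + 3 / 2 * t - (t + 1 / 2) ^ 3 * r)
      + (-(3 / 2 * t)) + (t + 1 / 2) ^ 3 * r := by ring
    calc ‖(34 : ℂ) * t ^ 3‖ = ‖(34 * t ^ 3 + 3 / 2 * t - (t + 1 / 2) ^ 3 * r)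
      + (-(3 / 2 * t)) + (t + 1 / 2) ^ 3 * r‖ := by rw [← e]
      _ ≤ _ := by
        refine (norm_add_le _ _).trans ?_
        gcongr
        refine (norm_add_le _ _).trans ?_
        rw [norm_neg]
  linarith

theorem den31 (t r : ℂ) (ht : 9 / 10 ≤ t.re) (hr : ‖r‖ ≤ 1 / 31) :
    31 * ‖t - 1 / 2‖ ^ 3 ≤ ‖34 * t ^ 3 + 3 / 2 * t - (t + 1 / 2) ^ 3 * r‖ ∧
    0 < ‖34 * t ^ 3 + 3 / 2 * t - (t + 1 / 2) ^ 3 * r‖ := by
  have h1 := den_lower t r hr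
  have h2 : ‖t - 1 / 2‖ ^ 3 ≤ ‖t‖ ^ 3 := pow_le_pow_left₀ (norm_nonneg _) (norm_sub_half_le t ht) 3
  have h3 : 9 / 10 ≤ ‖t‖ := ht.trans (Complex.re_le_norm t)
  have h4 : 31 * ‖t‖ ^ 3 ≤ 34 * ‖t‖ ^ 3 - 3 / 2 * ‖t‖ - (‖t‖ + 1 / 2) ^ 3 / 31 := by
    set x := ‖t‖
    nlinarith [mul_nonneg (sub_nonneg.mpr h3) (sub_nonneg.mpr h3),
      mul_nonneg (mul_nonneg (sub_nonneg.mpr h3) (sub_nonneg.mpr h3)) (sub_nonneg.mpr h3)]
  have h5 : 0 < ‖t‖ ^ 3 := by positivity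
  constructor <;> linarith

theorem den33 (t r : ℂ) (ht : 19 / 10 ≤ t.re) (hr : ‖r‖ ≤ 1 / 31) :
    67 / 2 * ‖t - 1 / 2‖ ^ 3 ≤ ‖34 * t ^ 3 + 3 / 2 * t - (t + 1 / 2) ^ 3 * r‖ := by
  have h1 := den_lower t r hr
  have h2 : ‖t - 1 / 2‖ ^ 3 ≤ ‖t‖ ^ 3 :=
    pow_le_pow_left₀ (norm_nonneg _) (norm_sub_half_le t (by linarith)) 3
  have h3 : 19 / 10 ≤ ‖t‖ := ht.trans (Complex.re_le_norm t)
  have h4 : 67 / 2 * ‖t‖ ^ 3 ≤ 34 * ‖t‖ ^ 3 - 3 / 2 * ‖t‖ - (‖t‖ + 1 / 2) ^ 3 / 31 := by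
    set x := ‖t‖
    nlinarith [mul_nonneg (sub_nonneg.mpr h3) (sub_nonneg.mpr h3),
      mul_nonneg (mul_nonneg (sub_nonneg.mpr h3) (sub_nonneg.mpr h3)) (sub_nonneg.mpr h3)]
  linarith

/-- no zeros of the continuants and `|r_M| ≤ 1/31` for `Re w ≥ -3/5` -/
theorem right_bound (M : ℕ) (w : ℂ) (hw : -3 / 5 ≤ w.re) :
    (Y M).eval w ≠ 0 ∧ ‖rr M w‖ ≤ 1 / 31 := by
  induction M generalizing w with
  | zero =>
    constructor
    · simp [Y]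
    · simp [rr, Yp]
  | succ M ih =>
    have hw1 : -3 / 5 ≤ (w + 1).re := by
      rw [Complex.add_re, Complex.one_re]; linarith
    obtain ⟨h1, h2⟩ := ih (w + 1) hw1
    obtain ⟨e1, e2⟩ := rr_succ M w h1
    have ht : 9 / 10 ≤ (w + 3 / 2).re := by
      have : (w + 3 / 2).re = w.re + 3 / 2 := by simp
      rw [this]; linarith
    obtain ⟨h3, h4⟩ := den31 (w + 3 / 2) (rr M (w + 1)) ht h2
    have e3 : 34 * (w + 3 / 2) ^ 3 + 3 / 2 * (w + 3 / 2) - ((w + 3 / 2) + 1 / 2) ^ 3 * rr M (w + 1)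
        = ap (w + 1) - (w + 2) ^ 3 * rr M (w + 1) := by
      rw [← ap_half]
      have a1 : w + 3 / 2 - 1 / 2 = w + 1 := by ring
      have a2 : w + 3 / 2 + 1 / 2 = w + 2 := by ring
      rw [a1, a2]
    have e4 : w + 3 / 2 - 1 / 2 = w + 1 := by ring
    rw [e3] at h3 h4
    rw [e4] at h3
    constructor
    · rw [e1]
      exact mul_ne_zero h1 (norm_pos_iff.mp h4)
    · rw [e2, norm_div, norm_pow, div_le_iff₀ h4]
      linarith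

/-- `(67/2)^m ∏ |t+i|^3 ≤ |Y_m(t)|` for `Re t ≥ 2/5` -/
theorem Y_lower1 (m : ℕ) (t : ℂ) (ht : 2 / 5 ≤ t.re) :
    (67 / 2) ^ m * ∏ i ∈ range m, ‖t + i + 1‖ ^ 3 ≤ ‖(Y m).eval t‖ := by
  induction m generalizing t with
  | zero => simp [Y]
  | succ m ih =>
    have ht1 : 2 / 5 ≤ (t + 1).re := by
      rw [Complex.add_re, Complex.one_re]; linarith
    obtain ⟨h1, h2⟩ := right_bound m (t + 1) (by linarith)
    obtain ⟨e1, -⟩ := rr_succ m t h1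
    have ht2 : 19 / 10 ≤ (t + 3 / 2).re := by
      have : (t + 3 / 2).re = t.re + 3 / 2 := by simp
      rw [this]; linarith
    have h3 := den33 (t + 3 / 2) (rr m (t + 1)) ht2 h2
    have e3 : 34 * (t + 3 / 2) ^ 3 + 3 / 2 * (t + 3 / 2) - ((t + 3 / 2) + 1 / 2) ^ 3 * rr m (t + 1)
        = ap (t + 1) - (t + 2) ^ 3 * rr m (t + 1) := by
      rw [← ap_half]
      have a1 : t + 3 / 2 - 1 / 2 = t + 1 := by ring
      have a2 : t + 3 / 2 + 1 / 2 = t + 2 := by ring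
      rw [a1, a2]
    have e4 : t + 3 / 2 - 1 / 2 = t + 1 := by ring
    rw [e3, e4] at h3
    have h4 := ih (t + 1) ht1
    rw [e1, norm_mul, prod_range_succ', pow_succ]
    have e5 : ∏ i ∈ range m, ‖t + ((i + 1 : ℕ) : ℂ) + 1‖ ^ 3 = ∏ i ∈ range m, ‖t + 1 + i + 1‖ ^ 3 := by
      refine prod_congr rfl (fun i _ => ?_)
      congr 2
      push_cast
      ring
    rw [e5]
    have e6 : ‖t + ((0 : ℕ) : ℂ) + 1‖ = ‖t + 1‖ := by simp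
    rw [e6]
    calc (67 / 2 : ℝ) ^ m * (67 / 2) * ((∏ i ∈ range m, ‖t + 1 + i + 1‖ ^ 3) * ‖t + 1‖ ^ 3)
        = ((67 / 2) ^ m * ∏ i ∈ range m, ‖t + 1 + i + 1‖ ^ 3) * (67 / 2 * ‖t + 1‖ ^ 3) := by ring
      _ ≤ _ := mul_le_mul h4 h3 (by positivity) (norm_nonneg _)

theorem Y_lower2 (m : ℕ) (t : ℂ) (ht : -3 / 5 ≤ t.re) :
    31 * ‖t + 1‖ ^ 3 * ((67 / 2) ^ m * ∏ i ∈ range m, ‖t + i + 2‖ ^ 3) ≤ ‖(Y (m + 1)).eval t‖ := by
  have ht1 : 2 / 5 ≤ (t + 1).re := by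
    rw [Complex.add_re, Complex.one_re]; linarith
  obtain ⟨h1, h2⟩ := right_bound m (t + 1) (by linarith)
  obtain ⟨e1, -⟩ := rr_succ m t h1
  have ht2 : 9 / 10 ≤ (t + 3 / 2).re := by
    have : (t + 3 / 2).re = t.re + 3 / 2 := by simp
    rw [this]; linarith
  obtain ⟨h3, -⟩ := den31 (t + 3 / 2) (rr m (t + 1)) ht2 h2
  have e3 : 34 * (t + 3 / 2) ^ 3 + 3 / 2 * (t + 3 / 2) - ((t + 3 / 2) + 1 / 2) ^ 3 * rr m (t + 1)
      = ap (t + 1) - (t + 2) ^ 3 * rr m (t + 1) := by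
    rw [← ap_half]
    have a1 : t + 3 / 2 - 1 / 2 = t + 1 := by ring
    have a2 : t + 3 / 2 + 1 / 2 = t + 2 := by ring
    rw [a1, a2]
  have e4 : t + 3 / 2 - 1 / 2 = t + 1 := by ring
  rw [e3, e4] at h3
  have h4 := Y_lower1 m (t + 1) ht1
  have e5 : ∏ i ∈ range m, ‖t + i + 2‖ ^ 3 = ∏ i ∈ range m, ‖t + 1 + i + 1‖ ^ 3 := by
    refine prod_congr rfl (fun i _ => ?_)
    congr 2
    ring
  rw [e1, norm_mul, e5, mul_comm]
  exact mul_le_mul h4 h3 (by positivity) (norm_nonneg _)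

theorem exp_seven_lt : Real.exp 7 < 1100 := by
  have h1 : Real.exp 7 = Real.exp 1 ^ 7 := by
    rw [← Real.exp_nat_mul]; norm_num
  rw [h1]
  calc Real.exp 1 ^ 7 < 2.7182818286 ^ 7 :=
        pow_lt_pow_left₀ Real.exp_one_lt_d9 (Real.exp_pos 1).le (by norm_num)
    _ < 1100 := by norm_num

theorem poly_geom_bdd : ∃ B : ℝ, 0 < B ∧ ∀ m : ℕ,
    ((m : ℝ) + 4) ^ 3 * (Real.exp 7 / (67 / 2) ^ 2) ^ m ≤ B := by
  have hq0 : 0 ≤ Real.exp 7 / (67 / 2) ^ 2 := by positivity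
  have hq1 : Real.exp 7 / (67 / 2) ^ 2 < 1 := by
    rw [div_lt_one (by norm_num)]
    calc Real.exp 7 < 1100 := exp_seven_lt
      _ < _ := by norm_num
  have h0 := tendsto_pow_const_mul_const_pow_of_lt_one 3 hq0 hq1
  obtain ⟨B, hB⟩ := h0.bddAbove_range
  refine ⟨125 * max B 1 + 64, by positivity, fun m => ?_⟩
  have h1 : (m : ℝ) ^ 3 * (Real.exp 7 / (67 / 2) ^ 2) ^ m ≤ B := hB ⟨m, rfl⟩
  rcases Nat.eq_zero_or_pos m with hm | hm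
  · subst hm
    simp only [Nat.cast_zero, zero_add, pow_zero, mul_one]
    have := le_max_right B 1
    nlinarith
  · have h2 : (1 : ℝ) ≤ m := by exact_mod_cast hm
    have h3 : ((m : ℝ) + 4) ^ 3 ≤ 125 * (m : ℝ) ^ 3 := by
      have : (m : ℝ) + 4 ≤ 5 * m := by linarith
      calc ((m : ℝ) + 4) ^ 3 ≤ (5 * (m : ℝ)) ^ 3 := pow_le_pow_left₀ (by positivity) this 3
        _ = _ := by ring
    have h4 : 0 ≤ (Real.exp 7 / (67 / 2) ^ 2) ^ m := by positivity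
    have h5 := le_max_left B 1
    nlinarith [mul_le_mul_of_nonneg_right h3 h4]

/-- lower bound of the continuants (used for the residues) -/
theorem Y_lower : ∃ K0 : ℝ, 0 < K0 ∧ ∀ (m : ℕ) (t : ℂ), -3 / 5 ≤ t.re → ‖t‖ ≤ 2 →
    ‖t + 1‖ ^ 3 * ‖t + (m + 1)‖ ^ 3 * ∏ i ∈ range (m - 1), ‖t + i + 2‖ ^ 6
      ≤ K0 * Real.exp (-7 * m) * ‖(Y m).eval t‖ ^ 2 := by
  obtain ⟨B, hB0, hB⟩ := poly_geom_bdd
  refine ⟨729 + Real.exp 7 * B, by positivity, fun m t ht hn => ?_⟩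
  have hn1 : ‖t + 1‖ ≤ 3 := by
    refine (norm_add_le _ _).trans ?_
    rw [norm_one]; linarith
  rcases m with _ | m
  · simp only [Nat.cast_zero, zero_add, Nat.zero_sub, range_zero, prod_empty, mul_one, mul_zero,
      Real.exp_zero]
    have e : (Y 0).eval t = 1 := by simp [Y]
    rw [e, norm_one]
    have h1 : ‖t + 1‖ ^ 3 ≤ 3 ^ 3 := pow_le_pow_left₀ (norm_nonneg _) hn1 3
    have h2 : 0 ≤ ‖t + 1‖ ^ 3 := by positivity
    have h3 : 0 ≤ Real.exp 7 * B := by positivity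
    nlinarith
  · have h1 := Y_lower2 m t ht
    have hp : (2 / 5 : ℝ) ≤ ‖t + 1‖ := by
      have h2 : 2 / 5 ≤ (t + 1).re := by
        rw [Complex.add_re, Complex.one_re]; linarith
      exact h2.trans (Complex.re_le_norm _)
    set a := ‖t + 1‖ with ha
    set Q := ∏ i ∈ range m, ‖t + i + 2‖ ^ 3 with hQ
    have hQ0 : 0 ≤ Q := prod_nonneg (fun i _ => by positivity)
    have eQ : ∏ i ∈ range (m + 1 - 1), ‖t + i + 2‖ ^ 6 = Q ^ 2 := by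
      rw [Nat.add_sub_cancel, hQ, ← prod_pow]
      refine prod_congr rfl (fun i _ => ?_)
      ring
    rw [eQ]
    have hb : ‖t + ((m + 1 : ℕ) + 1)‖ ≤ (m : ℝ) + 4 := by
      refine (norm_add_le _ _).trans ?_
      have : ‖(((m + 1 : ℕ) : ℂ) + 1)‖ = (m : ℝ) + 2 := by
        have e : (((m + 1 : ℕ) : ℂ) + 1) = ((m + 2 : ℕ) : ℂ) := by push_cast; ring
        rw [e, Complex.norm_natCast]; push_cast; ring
      rw [this]; linarith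
    have hb3 : ‖t + ((m + 1 : ℕ) + 1)‖ ^ 3 ≤ ((m : ℝ) + 4) ^ 3 :=
      pow_le_pow_left₀ (norm_nonneg _) hb 3
    have h2 : (31 * a ^ 3 * ((67 / 2) ^ m * Q)) ^ 2 ≤ ‖(Y (m + 1)).eval t‖ ^ 2 :=
      pow_le_pow_left₀ (by positivity) h1 2
    have ha3 : (2 / 5 : ℝ) ^ 3 ≤ a ^ 3 := pow_le_pow_left₀ (by norm_num) hp 3
    have h3 : a ^ 3 * Q ^ 2 * ((67 / 2 : ℝ) ^ 2) ^ m ≤ (31 * a ^ 3 * ((67 / 2) ^ m * Q)) ^ 2 := by
      have e1 : (31 * a ^ 3 * ((67 / 2 : ℝ) ^ m * Q)) ^ 2 =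
          (961 * a ^ 3) * (a ^ 3 * Q ^ 2 * ((67 / 2 : ℝ) ^ 2) ^ m) := by
        rw [← pow_mul, mul_comm 2 m, pow_mul]
        ring
      rw [e1]
      refine le_mul_of_one_le_left (by positivity) ?_
      nlinarith
    have h4 := hB m
    have h5 : Real.exp (-7 * ((m + 1 : ℕ) : ℝ)) = Real.exp (-7) / (Real.exp 7) ^ m := by
      rw [← Real.exp_nat_mul, ← Real.exp_sub]
      congr 1
      push_cast
      ring
    have h6 : ((m : ℝ) + 4) ^ 3 ≤ B * ((67 / 2 : ℝ) ^ 2) ^ m / (Real.exp 7) ^ m := by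
      rw [div_pow] at h4
      rw [le_div_iff₀ (by positivity)]
      have h7 : 0 < ((67 / 2 : ℝ) ^ 2) ^ m := by positivity
      rw [mul_div_assoc', div_le_iff₀ h7] at h4
      exact h4
    have h8 : Real.exp 7 * Real.exp (-7) = 1 := by
      rw [← Real.exp_add]; norm_num
    rw [h5]
    calc a ^ 3 * ‖t + ((m + 1 : ℕ) + 1)‖ ^ 3 * Q ^ 2
        ≤ a ^ 3 * (B * ((67 / 2 : ℝ) ^ 2) ^ m / (Real.exp 7) ^ m) * Q ^ 2 := by
          gcongr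
          exact hb3.trans h6
      _ = B / (Real.exp 7) ^ m * (a ^ 3 * Q ^ 2 * ((67 / 2 : ℝ) ^ 2) ^ m) := by ring
      _ ≤ B / (Real.exp 7) ^ m * ‖(Y (m + 1)).eval t‖ ^ 2 := by
          gcongr
          exact h3.trans h2
      _ = (Real.exp 7 * B) * (Real.exp (-7) / (Real.exp 7) ^ m) * ‖(Y (m + 1)).eval t‖ ^ 2 := by
          have : (Real.exp 7 * B) * (Real.exp (-7) / (Real.exp 7) ^ m) =
            (Real.exp 7 * Real.exp (-7)) * (B / (Real.exp 7) ^ m) := by ring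
          rw [this, h8, one_mul]
      _ ≤ _ := by
          gcongr
          linarith

end QS2
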