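import Pool.Agent.QS2.B.Cont

/-! # QS2 (b): partial fractions of `r_M` with simple poles -/

set_option autoImplicit false

namespace QS2

open Finset Polynomial

/-- partial fractions with simple poles -/
theorem rr_pf (M : ℕ) (xi : Fin M × Fin 3 → ℂ) (hinj : Function.Injective xi)
    (hY : Y M = C (ylead M : ℂ) * ∏ p, (X - C (xi p))) (w : ℂ) (hw : ∀ p, w ≠ xi p) :
    rr M w = (am M : ℂ) + ∑ p, ((xi p + 1) ^ 3 * (Yp M).eval (xi p + 1) /
      (ylead M * ∏ q ∈ univ.erase p, (xi p - xi q))) / (w - xi p) := by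
  classical
  have hlead : (ylead M : ℂ) ≠ 0 := by
    exact_mod_cast (ylead_pos M).ne'
  rcases M with _ | m
  · -- `M = 0`: both sides are `0`
    simp [rr, Yp, am]
  · -- the numerator
    set A : ℂ[X] := (X + 1) ^ 3 * (Y m).comp (X + 1) with hA
    set N : ℂ[X] := Lagrange.nodal univ xi with hN
    have hYN : Y (m + 1) = C (ylead (m + 1) : ℂ) * N := hY
    have hcard : #(univ : Finset (Fin (m + 1) × Fin 3)) = 3 * m + 3 := by
      simp [Finset.card_univ]
      ring
    have hNmonic : N.Monic := Lagrange.nodal_monic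
    have hNdeg : N.natDegree = 3 * m + 3 := by
      rw [hN, Lagrange.natDegree_nodal, hcard]
    -- leading data of `A`
    have hX1 : ((X : ℂ[X]) + 1) = X + C 1 := by simp
    have hmon : ((X : ℂ[X]) + 1).Monic := by rw [hX1]; exact monic_X_add_C 1
    have hX1deg : ((X : ℂ[X]) + 1).natDegree = 1 := by rw [hX1]; exact natDegree_X_add_C 1
    have hcompdeg : ((Y m).comp (X + 1)).natDegree = 3 * m := by
      rw [natDegree_comp, hX1deg, natDegree_Y, mul_one]
    have hcomplead : ((Y m).comp (X + 1)).leadingCoeff = (ylead m : ℂ) := by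
      rw [leadingCoeff_comp (by rw [hX1deg]; exact one_ne_zero), hmon.leadingCoeff, one_pow,
        mul_one, leadingCoeff_Y]
    have hAlead : A.leadingCoeff = (ylead m : ℂ) := by
      rw [hA, leadingCoeff_mul, hcomplead, leadingCoeff_pow, hmon.leadingCoeff, one_pow, one_mul]
    have hylm : (ylead m : ℂ) ≠ 0 := by exact_mod_cast (ylead_pos m).ne'
    have hA0 : A ≠ 0 := by
      intro h
      rw [h, leadingCoeff_zero] at hAlead
      exact hylm hAlead.symm
    have hAdeg : A.natDegree = 3 * m + 3 := by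
      rw [hA, (hmon.pow 3).natDegree_mul', (hmon.natDegree_pow 3), hX1deg, hcompdeg]
      · ring
      · intro h
        rw [h, leadingCoeff_zero] at hcomplead
        exact hylm hcomplead.symm
    -- the difference has small degree
    set D : ℂ[X] := A - C (ylead m : ℂ) * N with hD
    have hCN : (C (ylead m : ℂ) * N).leadingCoeff = (ylead m : ℂ) := by
      rw [leadingCoeff_mul, leadingCoeff_C, hNmonic.leadingCoeff, mul_one]
    have hCNdeg : (C (ylead m : ℂ) * N).natDegree = 3 * m + 3 := by
      rw [natDegree_C_mul hylm, hNdeg]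
    have hCN0 : C (ylead m : ℂ) * N ≠ 0 := mul_ne_zero (C_ne_zero.2 hylm) hNmonic.ne_zero
    have hDdeg : D.degree < (#(univ : Finset (Fin (m + 1) × Fin 3)) : ℕ) := by
      have h1 : D.degree < A.degree := by
        rw [hD]
        apply degree_sub_lt_left
        · rw [degree_eq_natDegree hA0, degree_eq_natDegree hCN0, hAdeg, hCNdeg]
        · exact hA0
        · rw [hAlead, hCN]
      rw [degree_eq_natDegree hA0, hAdeg] at h1
      rw [hcard]
      exact h1
    have hDeval : ∀ p ∈ (univ : Finset (Fin (m + 1) × Fin 3)), D.eval (xi p) = A.eval (xi p) := by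
      intro p hp
      rw [hD, eval_sub, eval_C_mul, Lagrange.eval_nodal_at_node hp, mul_zero, sub_zero]
    have hDint := Lagrange.eq_interpolate_of_eval_eq (r := fun p => A.eval (xi p))
      (v := xi) (s := univ) hinj.injOn hDdeg hDeval
    have hw' : ∀ p ∈ (univ : Finset (Fin (m + 1) × Fin 3)), w ≠ xi p := fun p _ => hw p
    have hNw : N.eval w ≠ 0 := Lagrange.eval_nodal_not_at_node hw'
    have hDw : D.eval w = N.eval w *
        ∑ p, Lagrange.nodalWeight univ xi p * (w - xi p)⁻¹ * A.eval (xi p) := by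
      conv_lhs => rw [hDint]
      rw [Lagrange.eval_interpolate_not_at_node _ hw']
    have hAw : A.eval w = N.eval w * ((ylead m : ℂ) +
        ∑ p, Lagrange.nodalWeight univ xi p * (w - xi p)⁻¹ * A.eval (xi p)) := by
      have : A.eval w = D.eval w + (ylead m : ℂ) * N.eval w := by
        rw [hD, eval_sub, eval_C_mul]; ring
      rw [this, hDw]; ring
    have hev : ∀ z : ℂ, A.eval z = (z + 1) ^ 3 * (Yp (m + 1)).eval (z + 1) := by
      intro z
      simp [hA, Yp, eval_comp]
    have hrr : rr (m + 1) w = A.eval w / ((ylead (m + 1) : ℂ) * N.eval w) := by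
      have hden : (Y (m + 1)).eval w = (ylead (m + 1) : ℂ) * N.eval w := by
        rw [hYN, eval_mul, eval_C]
      rw [rr, ← hev, hden]
    rw [hrr, hAw, am_eq]
    have hsum : ∑ p, ((xi p + 1) ^ 3 * (Yp (m + 1)).eval (xi p + 1) /
          ((ylead (m + 1) : ℂ) * ∏ q ∈ univ.erase p, (xi p - xi q))) / (w - xi p) =
        (ylead (m + 1) : ℂ)⁻¹ *
          ∑ p, Lagrange.nodalWeight univ xi p * (w - xi p)⁻¹ * A.eval (xi p) := by
      rw [Finset.mul_sum]
      refine Finset.sum_congr rfl fun p _ => ?_
      rw [← hev, Lagrange.nodalWeight, Finset.prod_inv_distrib, div_eq_mul_inv, div_eq_mul_inv,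
        mul_inv]
      ring
    rw [hsum]
    push_cast
    field_simp

end QS2
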